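import Mathlib
import Pool.Agent.TH507.Host

/-!
Graphs of treewidth larger than `3 t` without `t` disjoint models of a triangle.
-/

set_option autoImplicit false
set_option linter.unusedSectionVars false

namespace Pool.Agent.V1162.TM

open Finset Pool.Agent.TH507.RG Pool.Agent.TH507.Host

section

variable {V : Type} [Fintype V] [DecidableEq V] {M : ℕ}

/-- pairs of sets of equal small size -/
def pairs (V : Type) [Fintype V] [DecidableEq V] (M g : ℕ) : Finset (Finset V × Finset (Fin M)) :=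
  (Icc 1 g).biUnion (fun k => powersetCard k univ ×ˢ powersetCard k univ)

open Classical in
/-- the number of small dense places -/
noncomputable def cnt (g : ℕ) (φ : Fin M → V × V) : ℕ :=
  ((pairs V M g).filter (fun p => φ ∈ badIn p.1 p.2)).card

lemma sum_cnt (g : ℕ) : ∑ φ : Fin M → V × V, cnt g φ = ∑ p ∈ pairs V M g, (badIn p.1 p.2).card := by
  classical
  unfold cnt
  simp only [card_filter]
  rw [sum_comm]
  apply sum_congr rfl
  intro p _
  rw [card_eq_sum_ones, ← sum_filter]
  congr 1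
  ext φ
  simp

lemma sum_cnt_le (g n : ℕ) : ∑ φ : Fin (16 * n) → Fin n × Fin n, cnt g φ ≤
    (∑ k ∈ Icc 1 g, (16 * k ^ 2) ^ k) * (n ^ 2) ^ (16 * n) := by
  rw [sum_cnt, sum_mul]
  unfold pairs
  rw [sum_biUnion]
  · refine sum_le_sum fun k hk => ?_
    have h1 : ∀ p ∈ powersetCard k (univ : Finset (Fin n)) ×ˢ
        powersetCard k (univ : Finset (Fin (16 * n))),
        (badIn p.1 p.2).card = (k ^ 2) ^ k * (n ^ 2) ^ (16 * n - k) := by
      intro p hp
      rw [mem_product, mem_powersetCard, mem_powersetCard] at hp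
      rw [card_badIn, hp.1.2, hp.2.2, Fintype.card_fin]
    rw [sum_congr rfl h1, sum_const, card_product, card_powersetCard, card_powersetCard, card_univ,
      card_univ, Fintype.card_fin, Fintype.card_fin, smul_eq_mul]
    by_cases hk' : k ≤ 16 * n
    · have h2 : n.choose k ≤ n ^ k := Nat.choose_le_pow n k
      have h3 : (16 * n).choose k ≤ (16 * n) ^ k := Nat.choose_le_pow _ k
      calc n.choose k * (16 * n).choose k * ((k ^ 2) ^ k * (n ^ 2) ^ (16 * n - k))
          ≤ n ^ k * (16 * n) ^ k * ((k ^ 2) ^ k * (n ^ 2) ^ (16 * n - k)) :=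
            Nat.mul_le_mul_right _ (Nat.mul_le_mul h2 h3)
        _ = (16 * k ^ 2) ^ k * ((n ^ 2) ^ k * (n ^ 2) ^ (16 * n - k)) := by ring
        _ = (16 * k ^ 2) ^ k * (n ^ 2) ^ (16 * n) := by
            rw [← pow_add]
            congr 2
            omega
    · rw [Nat.choose_eq_zero_of_lt (show 16 * n < k by omega)]
      simp
  · intro i _ j _ hij
    rw [Function.onFun, Finset.disjoint_left]
    rintro ⟨a, b⟩ h1 h2
    rw [mem_product, mem_powersetCard, mem_powersetCard] at h1 h2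
    exact hij (h1.1.2.symm.trans h2.1.2)

/-- the random list -/
theorem exists_host (g : ℕ) : ∃ s : ℕ, ∀ n : ℕ, 1 ≤ n → ∃ φ : Fin (16 * n) → Fin n × Fin n,
    (∀ A B : Finset (Fin n), Disjoint A B → n ≤ 4 * A.card → n ≤ 4 * B.card →
      ∃ i, φ i ∈ A ×ˢ B ∪ B ×ˢ A) ∧ cnt g φ ≤ 2 * s := by
  classical
  refine ⟨∑ k ∈ Icc 1 g, (16 * k ^ 2) ^ k, fun n hn => ?_⟩
  set s := ∑ k ∈ Icc 1 g, (16 * k ^ 2) ^ k with hs
  set N := (n ^ 2) ^ (16 * n) with hN
  have hN0 : 0 < N := by positivity
  have h1 : 2 * (bad1 (Fin n) (16 * n)).card ≤ N := by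
    have h := card_bad1 (V := Fin n) (M := 16 * n)
    rw [Fintype.card_fin] at h
    have e1 : 2 * 4 ^ n * 7 ^ (16 * n) ≤ 8 ^ (16 * n) := by
      rw [pow_mul 7, pow_mul 8]
      calc 2 * 4 ^ n * (7 ^ 16) ^ n ≤ 2 ^ n * 4 ^ n * (7 ^ 16) ^ n := by
            apply Nat.mul_le_mul_right
            apply Nat.mul_le_mul_right
            calc 2 = 2 ^ 1 := rfl
              _ ≤ 2 ^ n := Nat.pow_le_pow_right (by norm_num) hn
        _ = (2 * 4 * 7 ^ 16) ^ n := by rw [mul_pow, mul_pow]
        _ ≤ (8 ^ 16) ^ n := Nat.pow_le_pow_left (by norm_num) _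
    have e2 : 8 ^ (16 * n) * (2 * (bad1 (Fin n) (16 * n)).card) ≤ 8 ^ (16 * n) * N := by
      calc 8 ^ (16 * n) * (2 * (bad1 (Fin n) (16 * n)).card)
          = 2 * (8 ^ (16 * n) * (bad1 (Fin n) (16 * n)).card) := by ring
        _ ≤ 2 * (4 ^ n * (7 ^ (16 * n) * N)) := Nat.mul_le_mul_left _ h
        _ = (2 * 4 ^ n * 7 ^ (16 * n)) * N := by ring
        _ ≤ 8 ^ (16 * n) * N := Nat.mul_le_mul_right _ e1
    exact Nat.le_of_mul_le_mul_left e2 (by positivity)
  have hcard : (univ : Finset (Fin (16 * n) → Fin n × Fin n)).card = N := by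
    rw [card_univ, Fintype.card_fun, Fintype.card_prod, Fintype.card_fin, Fintype.card_fin, hN,
      pow_two]
  have h2 : N ≤ 2 * ((bad1 (Fin n) (16 * n))ᶜ).card := by
    have h3 := card_compl_add_card (bad1 (Fin n) (16 * n))
    rw [← card_univ, hcard] at h3
    omega
  by_contra hcon
  push Not at hcon
  have h3 : ∀ φ ∈ (bad1 (Fin n) (16 * n))ᶜ, 2 * s + 1 ≤ cnt g φ := by
    intro φ hφ
    rw [mem_compl] at hφ
    apply hcon φ
    intro A B hd hA hB
    by_contra hno
    push Not at hno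
    apply hφ
    unfold bad1
    rw [mem_biUnion]
    refine ⟨(A, B), ?_, ?_⟩
    · rw [mem_filter, Fintype.card_fin]
      exact ⟨mem_univ _, hd, hA, hB⟩
    · unfold badPair
      rw [Fintype.mem_piFinset]
      intro i
      rw [mem_compl]
      exact hno i
  have h4 : ((bad1 (Fin n) (16 * n))ᶜ).card * (2 * s + 1) ≤ s * N := by
    calc _ = ∑ φ ∈ (bad1 (Fin n) (16 * n))ᶜ, (2 * s + 1) := by rw [sum_const, smul_eq_mul]
      _ ≤ ∑ φ ∈ (bad1 (Fin n) (16 * n))ᶜ, cnt g φ := sum_le_sum h3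
      _ ≤ ∑ φ : Fin (16 * n) → Fin n × Fin n, cnt g φ := by
          apply sum_le_sum_of_subset
          exact subset_univ _
      _ ≤ s * N := sum_cnt_le g n
  nlinarith

end

/-- **few disjoint triangles, large treewidth** -/
theorem lower : ∃ t₀ : ℕ, ∀ t, t₀ ≤ t → ∃ (n : ℕ) (G : SimpleGraph (Fin n)), 0 < n ∧
    ¬ TwLE G (3 * t) ∧ ¬ ∃ B : Fin t × Fin 3 → Set (Fin n), (∀ x, (G.induce (B x)).Connected) ∧
      (∀ x y, x ≠ y → Disjoint (B x) (B y)) ∧
      ∀ i a b, a ≠ b → ∃ u ∈ B (i, a), ∃ v ∈ B (i, b), G.Adj u v := by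
  classical
  obtain ⟨g, hg⟩ : ∃ g, g = 24 := ⟨_, rfl⟩
  obtain ⟨s, hs⟩ := exists_host g
  refine ⟨4 * s + 3, fun t ht => ?_⟩
  obtain ⟨n, hn⟩ : ∃ n, n = 25 * (t - 2 * s - 1) := ⟨_, rfl⟩
  obtain ⟨φ, hφ1, hφ2⟩ := hs n (by omega)
  refine ⟨n, gr φ, by omega, ?_, ?_⟩
  · refine not_twLE ?_ ?_
    · intro A B hd hA hB
      rw [Fintype.card_fin] at hA hB
      obtain ⟨i, hi⟩ := hφ1 A B hd hA hB
      rw [mem_union, mem_product, mem_product] at hi
      rcases hi with hi | hi
      · refine ⟨_, hi.1, _, hi.2, ?_, i, Or.inl rfl⟩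
        exact fun h => Finset.disjoint_left.1 hd hi.1 (h ▸ hi.2)
      · refine ⟨_, hi.2, _, hi.1, ?_, i, Or.inr rfl⟩
        exact fun h => Finset.disjoint_left.1 hd hi.2 (h ▸ hi.1)
    · rw [Fintype.card_fin]; omega
  · rintro ⟨B, h1, h2, h3⟩
    let B' : Fin t → Fin 3 → Finset (Fin n) := fun i a => (B (i, a)).toFinset
    have hB' : ∀ i a, ((B' i a : Finset (Fin n)) : Set (Fin n)) = B (i, a) :=
      fun i a => Set.coe_toFinset _
    let U : Fin t → Finset (Fin n) := fun i => univ.biUnion (B' i)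
    have hUd : ∀ i j, i ≠ j → Disjoint (U i) (U j) := by
      intro i j hij
      rw [Finset.disjoint_left]
      intro x hx hx'
      simp only [U, mem_biUnion] at hx hx'
      obtain ⟨a, -, ha⟩ := hx
      obtain ⟨b, -, hb⟩ := hx'
      exact Set.disjoint_left.1 (h2 (i, a) (j, b) (fun h => hij (Prod.mk.inj h).1))
        (Set.mem_toFinset.1 ha) (Set.mem_toFinset.1 hb)
    have hUn : ∀ i, (U i).Nonempty := by
      intro i
      obtain ⟨⟨x, hx⟩⟩ := (h1 (i, 0)).nonempty
      exact ⟨x, mem_biUnion.2 ⟨0, mem_univ _, Set.mem_toFinset.2 hx⟩⟩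
    have hI : ∀ i, ∃ I : Finset (Fin (16 * n)), I.card = (U i).card ∧ φ ∈ badIn (U i) I := by
      intro i
      obtain ⟨E, hE1, hE2⟩ := count_model (G := gr φ) (P := Fin 3) (B' i)
        (fun w => by rw [hB']; exact h1 _)
        (fun w w' hww => by
          rw [← Finset.disjoint_coe, hB', hB']
          exact h2 _ _ (fun h => hww (Prod.mk.inj h).2))
        (fun p => p) (fun p => p + 1) (by decide) (by decide) (fun p => by
          obtain ⟨u, hu, v, hv, huv⟩ := h3 i p (p + 1) (by revert p; decide)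
          exact ⟨u, Set.mem_toFinset.2 hu, v, Set.mem_toFinset.2 hv, huv⟩)
      have hE3 := card_edges_le φ (univ.biUnion (B' i)) E hE1
      have hE4 : (U i).card ≤ (univ.filter (fun j => φ j ∈ U i ×ˢ U i)).card := by
        simp only [U]
        omega
      obtain ⟨I, hI1, hI2⟩ := exists_subset_card_eq hE4
      refine ⟨I, hI2, ?_⟩
      unfold badIn
      rw [Fintype.mem_piFinset]
      intro j
      split_ifs with hj
      · exact (mem_filter.1 (hI1 hj)).2
      · exact mem_univ _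
    choose I hI1 hI2 using hI
    -- small models
    have hsmall : (univ.filter (fun i : Fin t => (U i).card ≤ g)).card ≤ 2 * s := by
      refine le_trans ?_ hφ2
      unfold cnt
      apply card_le_card_of_injOn (fun i => (U i, I i))
      · intro i hi
        have hi' := (mem_filter.1 (mem_coe.1 hi)).2
        refine mem_coe.2 (mem_filter.2 ⟨?_, hI2 i⟩)
        unfold pairs
        rw [mem_biUnion]
        refine ⟨(U i).card, mem_Icc.2 ⟨card_pos.2 (hUn i), hi'⟩, ?_⟩
        rw [mem_product, mem_powersetCard, mem_powersetCard]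
        exact ⟨⟨subset_univ _, rfl⟩, subset_univ _, hI1 i⟩
      · intro i _ j _ hij
        by_contra hne
        have h5 : U i = U j := (Prod.mk.inj hij).1
        obtain ⟨x, hx⟩ := hUn i
        exact Finset.disjoint_left.1 (hUd i j hne) hx (h5 ▸ hx)
    have hlarge : (univ.filter (fun i : Fin t => ¬ (U i).card ≤ g)).card * (g + 1) ≤ n := by
      calc _ = ∑ i ∈ univ.filter (fun i : Fin t => ¬ (U i).card ≤ g), (g + 1) := by
            rw [sum_const, smul_eq_mul]
        _ ≤ ∑ i ∈ univ.filter (fun i : Fin t => ¬ (U i).card ≤ g), (U i).card :=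
            sum_le_sum fun i hi => by
              have := (mem_filter.1 hi).2
              omega
        _ = ((univ.filter (fun i : Fin t => ¬ (U i).card ≤ g)).biUnion U).card :=
            (card_biUnion (fun i _ j _ h => hUd i j h)).symm
        _ ≤ n := (card_le_univ _).trans (by rw [Fintype.card_fin])
    have hsum := card_filter_add_card_filter_not (s := (univ : Finset (Fin t)))
      (fun i : Fin t => (U i).card ≤ g)
    rw [card_univ, Fintype.card_fin] at hsum
    subst hg
    omega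

end Pool.Agent.V1162.TM
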