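import Mathlib
import Pool.Agent.W126.SplitConv

/-!
A strategy predicate for tree decompositions: `P G w X C` says that the part `C` of the graph `G`
can be decomposed below the bag `X`, all bags having at most `w` elements.
-/

set_option autoImplicit false
set_option linter.unusedSectionVars false

namespace Pool.Agent.V1162.TM

open SimpleGraph Finset
open Pool.Agent.W126.Split

variable {V : Type} [Fintype V] [DecidableEq V] {G : SimpleGraph V}

/-- the part `C` can be decomposed below the bag `X` with bags of size at most `w` -/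
inductive P (G : SimpleGraph V) (w : ℕ) : Finset V → Finset V → Prop
  | nil (X : Finset V) : X.card ≤ w → P G w X ∅
  | add (X C : Finset V) (x : V) : x ∈ C → P G w (insert x X) (C.erase x) → P G w X C
  | split (X C C' : Finset V) : Disjoint C C' → (∀ u ∈ C, ∀ v ∈ C', ¬ G.Adj u v) →
      P G w X C → P G w X C' → P G w X (C ∪ C')
  | forget (X X' C : Finset V) : X' ⊆ X → X.card ≤ w →
      (∀ x ∈ X, x ∉ X' → ∀ c ∈ C, ¬ G.Adj x c) → P G w X' C → P G w X C

/-- rooted tree decompositions of the subgraph induced by `S`, with `X` inside the root bag -/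
def RB (G : SimpleGraph V) (w : ℕ) (X S : Finset V) : Prop :=
  ∃ (ι : Type) (_ : Fintype ι) (T : SimpleGraph ι) (bag : ι → Finset V) (r : ι),
    T.IsTree ∧ (∀ i, bag i ⊆ S) ∧ (∀ v ∈ S, ∃ i, v ∈ bag i) ∧
    (∀ u ∈ S, ∀ v ∈ S, G.Adj u v → ∃ i, u ∈ bag i ∧ v ∈ bag i) ∧
    (∀ v, ∀ i j, v ∈ bag i → v ∈ bag j → ∃ p : T.Walk i j, ∀ x ∈ p.support, v ∈ bag x) ∧
    (∀ i, (bag i).card ≤ w) ∧ X ⊆ bag r

lemma RB.single {w : ℕ} {X : Finset V} (h : X.card ≤ w) : RB G w X X := by
  refine ⟨Unit, inferInstance, ⊥, fun _ => X, (), ?_, fun _ => Subset.rfl, fun v hv => ⟨(), hv⟩,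
    fun u hu v hv _ => ⟨(), hu, hv⟩, ?_, fun _ => h, Subset.rfl⟩
  · rw [SimpleGraph.isTree_iff_connected_and_card]
    refine ⟨?_, by simp⟩
    refine SimpleGraph.Connected.mk ?_
    intro x y
    exact SimpleGraph.Reachable.refl _
  · intro v i j hi _
    exact ⟨Walk.nil, fun x _ => hi⟩

lemma RB.join {w : ℕ} {X S X' S' : Finset V} (h : RB G w X S) (h' : RB G w X' S')
    (hX : ∀ v ∈ S, v ∈ S' → v ∈ X ∧ v ∈ X')
    (hn : ∀ u ∈ S, ∀ v ∈ S', G.Adj u v → u ∈ S' ∨ v ∈ S) : RB G w X (S ∪ S') := by
  obtain ⟨ι, hι, T, bag, r, hT, hsub, hcov, hedge, hconn, hcard, hr⟩ := h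
  obtain ⟨κ, hκ, T', bag', r', hT', hsub', hcov', hedge', hconn', hcard', hr'⟩ := h'
  refine ⟨ι ⊕ κ, inferInstance, glue T T' r r', Sum.elim bag bag', Sum.inl r,
    glue_isTree hT hT', ?_, ?_, ?_, ?_, ?_, hr⟩
  · rintro (i | i)
    · exact (hsub i).trans subset_union_left
    · exact (hsub' i).trans subset_union_right
  · intro v hv
    rcases mem_union.1 hv with h | h
    · obtain ⟨i, hi⟩ := hcov v h
      exact ⟨Sum.inl i, hi⟩
    · obtain ⟨i, hi⟩ := hcov' v h
      exact ⟨Sum.inr i, hi⟩
  · intro u hu v hv huv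
    have key1 : ∀ a ∈ S, ∀ b ∈ S, G.Adj a b → ∃ i, a ∈ Sum.elim bag bag' i ∧ b ∈ Sum.elim bag bag' i := by
      intro a ha b hb hab
      obtain ⟨i, hi⟩ := hedge a ha b hb hab
      exact ⟨Sum.inl i, hi⟩
    have key2 : ∀ a ∈ S', ∀ b ∈ S', G.Adj a b → ∃ i, a ∈ Sum.elim bag bag' i ∧ b ∈ Sum.elim bag bag' i := by
      intro a ha b hb hab
      obtain ⟨i, hi⟩ := hedge' a ha b hb hab
      exact ⟨Sum.inr i, hi⟩
    rcases mem_union.1 hu with h1 | h1 <;> rcases mem_union.1 hv with h2 | h2
    · exact key1 u h1 v h2 huv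
    · rcases hn u h1 v h2 huv with h3 | h3
      · exact key2 u h3 v h2 huv
      · exact key1 u h1 v h3 huv
    · rcases hn v h2 u h1 huv.symm with h3 | h3
      · exact key2 u h1 v h3 huv
      · exact key1 u h3 v h2 huv
    · exact key2 u h1 v h2 huv
  · have cross : ∀ (v : V) (i : ι) (j : κ), v ∈ bag i → v ∈ bag' j →
        ∃ p : (glue T T' r r').Walk (Sum.inl i) (Sum.inr j),
          ∀ x ∈ p.support, v ∈ Sum.elim bag bag' x := by
      intro v i j hi hj
      obtain ⟨h1, h2⟩ := hX v (hsub i hi) (hsub' j hj)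
      obtain ⟨p, hp⟩ := hconn v i r hi (hr h1)
      obtain ⟨p', hp'⟩ := hconn' v r' j (hr' h2) hj
      obtain ⟨q, hq⟩ := walk_inl (T' := T') (a := r) (b := r') p
      obtain ⟨q', hq'⟩ := walk_inr (T := T) (a := r) (b := r') p'
      have hadj : (glue T T' r r').Adj (Sum.inl r) (Sum.inr r') := ⟨rfl, rfl⟩
      refine ⟨q.append (Walk.cons hadj q'), ?_⟩
      intro x hx
      rw [Walk.mem_support_append_iff, Walk.support_cons, List.mem_cons] at hx
      rcases hx with hx | rfl | hx
      · obtain ⟨y, hy, rfl⟩ := hq x hx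
        exact hp y hy
      · exact hr h1
      · obtain ⟨y, hy, rfl⟩ := hq' x hx
        exact hp' y hy
    rintro v (i | i) (j | j) hi hj
    · obtain ⟨p, hp⟩ := hconn v i j hi hj
      obtain ⟨q, hq⟩ := walk_inl (T' := T') (a := r) (b := r') p
      refine ⟨q, fun x hx => ?_⟩
      obtain ⟨y, hy, rfl⟩ := hq x hx
      exact hp y hy
    · exact cross v i j hi hj
    · obtain ⟨p, hp⟩ := cross v j i hj hi
      exact ⟨p.reverse, fun x hx => hp x (by simpa using hx)⟩
    · obtain ⟨p, hp⟩ := hconn' v i j hi hj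
      obtain ⟨q, hq⟩ := walk_inr (T := T) (a := r) (b := r') p
      refine ⟨q, fun x hx => ?_⟩
      obtain ⟨y, hy, rfl⟩ := hq x hx
      exact hp y hy
  · rintro (i | i)
    · exact hcard i
    · exact hcard' i

theorem P.sound {w : ℕ} {X C : Finset V} (h : P G w X C) (hd : Disjoint X C) :
    RB G w X (X ∪ C) := by
  induction h with
  | nil X h =>
    rw [union_empty]
    exact RB.single h
  | add X C x hx _ ih =>
    have hxX : x ∉ X := fun h => Finset.disjoint_left.1 hd h hx
    have h1 : Disjoint (insert x X) (C.erase x) := by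
      rw [Finset.disjoint_left]
      intro y hy hy'
      rw [mem_insert] at hy
      rw [mem_erase] at hy'
      rcases hy with rfl | hy
      · exact hy'.1 rfl
      · exact Finset.disjoint_left.1 hd hy hy'.2
    obtain ⟨ι, hι, T, bag, r, a1, a2, a3, a4, a5, a6, a7⟩ := ih h1
    have e : insert x X ∪ C.erase x = X ∪ C := by
      ext y
      simp only [mem_union, mem_insert, mem_erase]
      by_cases hy : y = x
      · subst hy; simp [hx]
      · simp [hy]
    rw [e] at a2 a3 a4
    exact ⟨ι, hι, T, bag, r, a1, a2, a3, a4, a5, a6, (subset_insert _ _).trans a7⟩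
  | split X C C' hCC hno _ _ ih ih' =>
    rw [disjoint_union_right] at hd
    have h1 := ih hd.1
    have h2 := ih' hd.2
    have h3 := h1.join h2 (by
      intro v hv hv'
      rw [mem_union] at hv hv'
      rcases hv with hv | hv
      · exact ⟨hv, hv⟩
      · rcases hv' with hv' | hv'
        · exact ⟨hv', hv'⟩
        · exact absurd hv' (Finset.disjoint_left.1 hCC hv)) (by
      intro u hu v hv huv
      rw [mem_union] at hu hv
      rcases hu with hu | hu
      · exact Or.inl (mem_union_left _ hu)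
      · rcases hv with hv | hv
        · exact Or.inr (mem_union_left _ hv)
        · exact absurd huv (hno u hu v hv))
    have e : X ∪ C ∪ (X ∪ C') = X ∪ (C ∪ C') := by
      ext y
      simp only [mem_union]
      tauto
    rwa [e] at h3
  | forget X X' C hX hcard hno _ ih =>
    have hd' : Disjoint X' C := Finset.disjoint_of_subset_left hX hd
    have h1 := (RB.single (G := G) hcard).join (ih hd') (by
      intro v hv hv'
      rw [mem_union] at hv'
      rcases hv' with hv' | hv'
      · exact ⟨hv, hv'⟩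
      · exact absurd hv' (Finset.disjoint_left.1 hd hv)) (by
      intro u hu v hv huv
      rw [mem_union] at hv
      rcases hv with hv | hv
      · exact Or.inr (hX hv)
      · by_cases hu' : u ∈ X'
        · exact Or.inl (mem_union_left _ hu')
        · exact absurd huv (hno u hu hu' v hv))
    have e : X ∪ (X' ∪ C) = X ∪ C := by
      rw [← union_assoc, union_eq_left.2 hX]
    rwa [e] at h1

theorem P.bw {w : ℕ} (h : P G w ∅ univ) : Bw G univ w := by
  obtain ⟨ι, hι, T, bag, r, a1, a2, a3, a4, a5, a6, a7⟩ := h.sound (disjoint_empty_left _)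
  rw [empty_union] at a2 a3 a4
  exact ⟨ι, hι, T, bag, a1, a2, a3, a4, a5, a6⟩

lemma P.card_le {w : ℕ} {X C : Finset V} (h : P G w X C) : X.card ≤ w := by
  induction h with
  | nil X h => exact h
  | add X C x _ _ ih => exact (card_le_card (subset_insert _ _)).trans ih
  | split X C C' _ _ _ _ ih _ => exact ih
  | forget X X' C _ h _ _ _ => exact h

lemma P.mono {w w' : ℕ} {X X' C C' : Finset V} (h : P G w X C) (hX : X' ⊆ X) (hC : C' ⊆ C)
    (hw : w ≤ w') : P G w' X' C' := by
  induction h generalizing X' C' with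
  | nil X h =>
    rw [subset_empty] at hC
    subst hC
    exact P.nil _ ((card_le_card hX).trans (h.trans hw))
  | add X C x hx _ ih =>
    by_cases hx' : x ∈ C'
    · exact P.add _ _ x hx' (ih (insert_subset_insert _ hX) (erase_subset_erase _ hC))
    · refine ih (hX.trans (subset_insert _ _)) ?_
      intro y hy
      rw [mem_erase]
      exact ⟨fun h => hx' (h ▸ hy), hC hy⟩
  | split X C₁ C₂ hd hno _ _ ih ih' =>
    have e : C' = (C' ∩ C₁) ∪ (C' ∩ C₂) := by
      rw [← inter_union_distrib_left]
      exact (inter_eq_left.2 hC).symm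
    rw [e]
    refine P.split _ _ _ ?_ ?_ (ih hX inter_subset_right) (ih' hX inter_subset_right)
    · exact Finset.disjoint_of_subset_left inter_subset_right
        (Finset.disjoint_of_subset_right inter_subset_right hd)
    · intro u hu v hv
      exact hno u (mem_inter.1 hu).2 v (mem_inter.1 hv).2
  | forget X X'' C hX'' hcard hno _ ih =>
    refine P.forget _ (X' ∩ X'') _ inter_subset_left ((card_le_card hX).trans (hcard.trans hw)) ?_
      (ih inter_subset_right hC)
    intro x hx hx' c hc
    refine hno x (hX hx) (fun h => hx' (mem_inter.2 ⟨hx, h⟩)) c (hC hc)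

lemma P.addY {w : ℕ} {X C : Finset V} (h : P G w X C) (Y : Finset V) :
    P G (w + Y.card) (X ∪ Y) (C \ Y) := by
  induction h with
  | nil X h =>
    rw [empty_sdiff]
    exact P.nil _ ((card_union_le _ _).trans (Nat.add_le_add_right h _))
  | add X C x hx _ ih =>
    by_cases hxY : x ∈ Y
    · have e1 : insert x X ∪ Y = X ∪ Y := by
        ext y; simp only [mem_union, mem_insert]
        constructor
        · rintro ((rfl | h) | h)
          · exact Or.inr hxY
          · exact Or.inl h
          · exact Or.inr h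
        · tauto
      have e2 : C.erase x \ Y = C \ Y := by
        ext y; simp only [mem_sdiff, mem_erase]
        constructor
        · tauto
        · rintro ⟨h1, h2⟩
          exact ⟨⟨fun h => h2 (h ▸ hxY), h1⟩, h2⟩
      rwa [e1, e2] at ih
    · refine P.add _ _ x (mem_sdiff.2 ⟨hx, hxY⟩) ?_
      have e1 : insert x (X ∪ Y) = insert x X ∪ Y := by rw [insert_union]
      have e2 : (C \ Y).erase x = C.erase x \ Y := by
        ext y; simp only [mem_sdiff, mem_erase]; tauto
      rwa [e1, e2]
  | split X C C' hd hno _ _ ih ih' =>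
    rw [union_sdiff_distrib]
    refine P.split _ _ _ ?_ ?_ ih ih'
    · exact Finset.disjoint_of_subset_left sdiff_subset
        (Finset.disjoint_of_subset_right sdiff_subset hd)
    · intro u hu v hv
      exact hno u (mem_sdiff.1 hu).1 v (mem_sdiff.1 hv).1
  | forget X X' C hX hcard hno _ ih =>
    refine P.forget _ (X' ∪ Y) _ (union_subset_union hX Subset.rfl)
      ((card_union_le _ _).trans (Nat.add_le_add_right hcard _)) ?_ ih
    intro x hx hx' c hc
    rw [mem_union] at hx hx'
    push Not at hx'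
    refine hno x (hx.resolve_right hx'.2) hx'.1 c (mem_sdiff.1 hc).1

/-- placing a whole set -/
lemma P.adds {w : ℕ} (Y : Finset V) : ∀ {X C : Finset V}, Y ⊆ C → P G w (X ∪ Y) (C \ Y) →
    P G w X C := by
  induction Y using Finset.induction_on with
  | empty => intro X C _ h; simpa using h
  | insert y Y hy ih =>
    intro X C hY h
    have h1 : y ∈ C := hY (mem_insert_self _ _)
    refine P.add _ _ y h1 (ih ?_ ?_)
    · intro z hz
      rw [mem_erase]
      exact ⟨fun h => hy (h ▸ hz), hY (mem_insert_of_mem hz)⟩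
    · have e1 : insert y X ∪ Y = X ∪ insert y Y := by
        ext z; simp only [mem_union, mem_insert]; tauto
      have e2 : C.erase y \ Y = C \ insert y Y := by
        ext z; simp only [mem_sdiff, mem_erase, mem_insert]; tauto
      rwa [e1, e2]

/-- deleting a set of vertices -/
lemma P.delete {w w' : ℕ} {S Y : Finset V} (hY : Y ⊆ S) (hw : w' + Y.card ≤ w)
    (h : P G w' ∅ (S \ Y)) : P G w ∅ S := by
  refine P.adds Y hY ?_
  have h1 := h.addY Y
  rw [sdiff_sdiff, sup_idem] at h1
  exact h1.mono Subset.rfl Subset.rfl hw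

lemma exists_compP {w : ℕ} {X : Finset V} (hX : X.card ≤ w) (D : Finset V) (h : ¬ P G w X D) :
    ∃ K, K ⊆ D ∧ K.Nonempty ∧ Conn G K ∧ Closed G D K ∧ ¬ P G w X K := by
  induction hn : D.card using Nat.strong_induction_on generalizing D with
  | _ n ih =>
    have hne : D.Nonempty := by
      rw [nonempty_iff_ne_empty]
      rintro rfl
      exact h (P.nil _ hX)
    obtain ⟨x, hx⟩ := hne
    have hK := closed_comp (G := G) D x
    by_cases hb : P G w X (comp G D x)
    · have h1 : ¬ P G w X (D \ comp G D x) := by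
        intro h2
        apply h
        have h3 := P.split _ _ _ disjoint_sdiff (hK.nonadj sdiff_subset disjoint_sdiff) hb h2
        rwa [union_sdiff_of_subset hK.1] at h3
      have h2 : (D \ comp G D x).card < n := by
        rw [← hn]
        exact card_lt_card (sdiff_ssubset hK.1 ⟨x, mem_comp_self hx⟩)
      obtain ⟨K, hK1, hK0, hK2, hK3, hK4⟩ := ih _ h2 _ h1 rfl
      refine ⟨K, hK1.trans sdiff_subset, hK0, hK2, ⟨hK1.trans sdiff_subset, ?_⟩, hK4⟩
      intro u hu v hv huv
      apply hK3.2 u hu v _ huv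
      rw [mem_sdiff]
      refine ⟨hv, fun hv' => ?_⟩
      exact (mem_sdiff.1 (hK1 hu)).2 (hK.2 v hv' u (mem_sdiff.1 (hK1 hu)).1 huv.symm)
    · exact ⟨_, hK.1, ⟨x, mem_comp_self hx⟩, conn_comp D x, hK, hb⟩

end Pool.Agent.V1162.TM
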