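import Mathlib
import Pool.Agent.V1162.TM.Game

/-!
Paths and cycles as lists of vertices.
-/

set_option autoImplicit false
set_option linter.unusedSectionVars false

namespace Pool.Agent.V1162.TM

open SimpleGraph Finset
open Pool.Agent.W126.Split

variable {V : Type} [Fintype V] [DecidableEq V] {G : SimpleGraph V}

/-- path lists -/
def PL (G : SimpleGraph V) (l : List V) : Prop := l.IsChain G.Adj ∧ l.Nodup

/-- path lists from `u` to `v` -/
def PB (G : SimpleGraph V) (u v : V) (l : List V) : Prop :=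
  PL G l ∧ l.head? = some u ∧ l.getLast? = some v

/-- cycles -/
def CycL (G : SimpleGraph V) (l : List V) : Prop :=
  PL G l ∧ 3 ≤ l.length ∧ ∃ a b, l.head? = some a ∧ l.getLast? = some b ∧ G.Adj b a

lemma PL.nil : PL G [] := ⟨List.IsChain.nil, List.nodup_nil⟩

lemma PL.singleton (v : V) : PL G [v] := ⟨List.IsChain.singleton _, List.nodup_singleton _⟩

lemma PL.reverse {l : List V} (h : PL G l) : PL G l.reverse := by
  refine ⟨?_, List.nodup_reverse.2 h.2⟩
  rw [List.isChain_reverse]
  exact h.1.imp fun _ _ h => h.symm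

lemma PB.reverse {u v : V} {l : List V} (h : PB G u v l) : PB G v u l.reverse := by
  refine ⟨h.1.reverse, ?_, ?_⟩
  · rw [List.head?_reverse]; exact h.2.2
  · rw [List.getLast?_reverse]; exact h.2.1

lemma PB.ne_nil {u v : V} {l : List V} (h : PB G u v l) : l ≠ [] := by
  rintro rfl
  simpa using h.2.1

lemma PB.head_mem {u v : V} {l : List V} (h : PB G u v l) : u ∈ l :=
  List.mem_of_mem_head? (by rw [h.2.1]; simp)

lemma PB.last_mem {u v : V} {l : List V} (h : PB G u v l) : v ∈ l :=
  List.mem_of_mem_getLast? (by rw [h.2.2]; simp)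

lemma PL.exists_pb {l : List V} (h : PL G l) (hne : l ≠ []) : ∃ u v, PB G u v l :=
  ⟨l.head hne, l.getLast hne, h, List.head?_eq_some_head hne, List.getLast?_eq_some_getLast hne⟩

/-- concatenation -/
lemma PL.append {l l' : List V} (h : PL G l) (h' : PL G l') (hd : ∀ x ∈ l, x ∉ l')
    (hj : ∀ x ∈ l.getLast?, ∀ y ∈ l'.head?, G.Adj x y) : PL G (l ++ l') := by
  refine ⟨h.1.append h'.1 hj, ?_⟩
  rw [List.nodup_append']
  exact ⟨h.2, h'.2, fun x hx hx' => hd x hx hx'⟩

lemma PB.append {u v u' v' : V} {l l' : List V} (h : PB G u v l) (h' : PB G u' v' l')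
    (hd : ∀ x ∈ l, x ∉ l') (hj : G.Adj v u') : PB G u v' (l ++ l') := by
  refine ⟨h.1.append h'.1 hd ?_, ?_, ?_⟩
  · intro x hx y hy
    rw [h.2.2] at hx
    rw [h'.2.1] at hy
    simp only [Option.mem_some_iff] at hx hy
    subst hx; subst hy
    exact hj
  · rw [List.head?_append, h.2.1]; rfl
  · rw [List.getLast?_append, h'.2.2]; rfl

lemma PL.left {l l' : List V} (h : PL G (l ++ l')) : PL G l :=
  ⟨h.1.left_of_append, (List.nodup_append'.1 h.2).1⟩

lemma PL.right {l l' : List V} (h : PL G (l ++ l')) : PL G l' :=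
  ⟨h.1.right_of_append, (List.nodup_append'.1 h.2).2.1⟩

lemma PL.disj {l l' : List V} (h : PL G (l ++ l')) : ∀ x ∈ l, x ∉ l' :=
  fun _ hx hx' => (List.nodup_append'.1 h.2).2.2 hx hx'

/-- a connected set contains path lists -/
lemma conn_pb {K : Finset V} (h : Conn G K) {u v : V} (hu : u ∈ K) (hv : v ∈ K) :
    ∃ l, PB G u v l ∧ ∀ x ∈ l, x ∈ K := by
  obtain ⟨p, hp⟩ := h u hu v hv
  refine ⟨p.bypass.support, ⟨⟨p.bypass.isChain_adj_support, p.bypass_isPath.support_nodup⟩, ?_, ?_⟩,
    fun x hx => hp x (p.support_bypass_subset_support hx)⟩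
  · have h1 : p.bypass.support.head? = some (p.bypass.support.head (by simp)) :=
      List.head?_eq_some_head _
    rw [h1, Walk.head_support]
  · have h1 : p.bypass.support.getLast? = some (p.bypass.support.getLast (by simp)) :=
      List.getLast?_eq_some_getLast _
    rw [h1, Walk.getLast_support]

/-- path lists stay in closed sets -/
lemma closed_chain {D L : Finset V} (hL : Closed G D L) {l : List V} (hc : l.IsChain G.Adj)
    (hD : ∀ x ∈ l, x ∈ D) {u : V} (hu : u ∈ l) (huL : u ∈ L) : ∀ x ∈ l, x ∈ L := by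
  have key : ∀ l : List V, l.IsChain G.Adj → (∀ x ∈ l, x ∈ D) → ∀ a, l.head? = some a → a ∈ L →
      ∀ x ∈ l, x ∈ L := by
    intro l
    induction l with
    | nil => intro _ _ a ha; simp at ha
    | cons b t ih =>
      intro hc hD a ha haL x hx
      simp only [List.head?_cons, Option.some.injEq] at ha
      subst ha
      rw [List.mem_cons] at hx
      rcases hx with rfl | hx
      · exact haL
      · cases t with
        | nil => simp at hx
        | cons c t =>
          rw [List.isChain_cons_cons] at hc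
          refine ih hc.2 (fun y hy => hD y (List.mem_cons_of_mem _ hy)) c rfl ?_ x hx
          exact hL.2 b haL c (hD c (by simp)) hc.1
  obtain ⟨s, t, rfl⟩ := List.append_of_mem hu
  rw [List.isChain_split] at hc
  intro x hx
  rw [List.mem_append] at hx
  rcases hx with hx | hx
  · have h1 : ((s ++ [u]).reverse).IsChain G.Adj := by
      rw [List.isChain_reverse]
      exact hc.1.imp fun _ _ h => h.symm
    refine key _ h1 ?_ u ?_ huL x ?_
    · intro y hy
      rw [List.mem_reverse, List.mem_append] at hy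
      apply hD
      rw [List.mem_append]
      rcases hy with hy | hy
      · exact Or.inl hy
      · rw [List.mem_singleton] at hy; subst hy; exact Or.inr (by simp)
    · simp
    · rw [List.mem_reverse]; exact List.mem_append_left _ hx
  · exact key _ hc.2 (fun y hy => hD y (List.mem_append_right _ hy)) u rfl huL x hx

lemma split_first (p : V → Prop) : ∀ (l : List V), (∃ x ∈ l, p x) →
    ∃ l₁ y l₂, l = l₁ ++ y :: l₂ ∧ p y ∧ ∀ x ∈ l₁, ¬ p x := by
  classical
  intro l
  induction l with
  | nil => rintro ⟨x, hx, -⟩; simp at hx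
  | cons a t ih =>
    rintro ⟨x, hx, hpx⟩
    by_cases ha : p a
    · exact ⟨[], a, t, rfl, ha, by simp⟩
    · rw [List.mem_cons] at hx
      rcases hx with rfl | hx
      · exact absurd hpx ha
      · obtain ⟨l₁, y, l₂, h1, h2, h3⟩ := ih ⟨x, hx, hpx⟩
        refine ⟨a :: l₁, y, l₂, by rw [h1]; rfl, h2, ?_⟩
        intro z hz
        rw [List.mem_cons] at hz
        rcases hz with rfl | hz
        · exact ha
        · exact h3 z hz

lemma split_last (p : V → Prop) (l : List V) (h : ∃ x ∈ l, p x) :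
    ∃ l₁ y l₂, l = l₁ ++ y :: l₂ ∧ p y ∧ ∀ x ∈ l₂, ¬ p x := by
  obtain ⟨x, hx, hpx⟩ := h
  obtain ⟨l₁, y, l₂, h1, h2, h3⟩ := split_first p l.reverse ⟨x, List.mem_reverse.2 hx, hpx⟩
  refine ⟨l₂.reverse, y, l₁.reverse, ?_, h2, fun z hz => h3 z (List.mem_reverse.1 hz)⟩
  have := congrArg List.reverse h1
  rw [List.reverse_reverse] at this
  rw [this]
  simp

/-- following `l` until it meets `p` -/
lemma join_Y {l p : List V} (hl : PL G l) (hp : PL G p) (h : ∃ x ∈ l, x ∈ p) :
    ∃ s y t a b, l = s ++ y :: t ∧ p = a ++ y :: b ∧ PL G (s ++ y :: b) ∧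
      PL G (s ++ y :: a.reverse) ∧ ∀ x ∈ s, x ∉ p := by
  obtain ⟨s, y, t, h1, h2, h3⟩ := split_first (fun x => x ∈ p) l h
  obtain ⟨a, b, h4⟩ := List.append_of_mem h2
  have hl' := hl
  have hp' := hp
  rw [h1] at hl'
  rw [h4] at hp'
  have hs : (s ++ [y]).IsChain G.Adj := (List.isChain_split.1 hl'.1).1
  have hsn : s.Nodup := hl'.left.2
  have hr : PL G (y :: a.reverse) := by
    have h5 := hp'.reverse
    rw [List.reverse_append, List.reverse_cons, List.append_assoc] at h5
    exact h5.right
  refine ⟨s, y, t, a, b, h1, h4, ⟨List.isChain_split.2 ⟨hs, hp'.right.1⟩, ?_⟩,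
    ⟨List.isChain_split.2 ⟨hs, hr.1⟩, ?_⟩, h3⟩
  · rw [List.nodup_append']
    refine ⟨hsn, hp'.right.2, fun x hx hx' => h3 x hx ?_⟩
    rw [h4]
    exact List.mem_append_right _ hx'
  · rw [List.nodup_append']
    refine ⟨hsn, hr.2, fun x hx hx' => h3 x hx ?_⟩
    rw [h4]
    rw [List.mem_cons] at hx'
    rcases hx' with rfl | hx'
    · simp
    · exact List.mem_append_left _ (List.mem_reverse.1 hx')

/-- in a connected set containing a long path there is a long path starting anywhere -/
lemma half {T : Finset V} (hT : Conn G T) {z : V} (hz : z ∈ T) {p : List V} (hp : PL G p)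
    (hpT : ∀ x ∈ p, x ∈ T) (hne : p ≠ []) :
    ∃ q, PL G q ∧ (∀ x ∈ q, x ∈ T) ∧ q.head? = some z ∧ p.length ≤ 2 * q.length := by
  obtain ⟨u, v, hpb⟩ := hp.exists_pb hne
  obtain ⟨l, hl, hlT⟩ := conn_pb hT hz (hpT u hpb.head_mem)
  obtain ⟨s, y, t, a, b, h1, h2, h3, h4, h5⟩ := join_Y hl.1 hp ⟨u, hl.last_mem, hpb.head_mem⟩
  have hhead : ∀ c : List V, (s ++ y :: c).head? = some z := by
    intro c
    have h6 := hl.2.1
    rw [h1] at h6
    cases s with
    | nil => simpa using h6
    | cons d s => simpa using h6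
  have hsT : ∀ x ∈ s, x ∈ T := fun x hx => hlT x (by rw [h1]; exact List.mem_append_left _ hx)
  have hlen : p.length = a.length + b.length + 1 := by rw [h2]; simp; omega
  by_cases hab : a.length ≤ b.length
  · refine ⟨s ++ y :: b, h3, ?_, hhead _, ?_⟩
    · intro x hx
      rw [List.mem_append] at hx
      rcases hx with hx | hx
      · exact hsT x hx
      · exact hpT x (by rw [h2]; exact List.mem_append_right _ hx)
    · simp only [List.length_append, List.length_cons]; omega
  · refine ⟨s ++ y :: a.reverse, h4, ?_, hhead _, ?_⟩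
    · intro x hx
      rw [List.mem_append] at hx
      rcases hx with hx | hx
      · exact hsT x hx
      · rw [List.mem_cons, List.mem_reverse] at hx
        apply hpT x
        rw [h2]
        rcases hx with rfl | hx
        · simp
        · exact List.mem_append_left _ hx
    · simp only [List.length_append, List.length_cons, List.length_reverse]; omega

/-- two intersecting path lists contain a path between their first vertices -/
lemma meet {u v u' v' : V} {q q' : List V} (h : PB G u v q) (h' : PB G u' v' q')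
    (hm : ∃ x ∈ q, x ∈ q') : ∃ l, PB G u u' l ∧ ∀ x ∈ l, x ∈ q ∨ x ∈ q' := by
  obtain ⟨s, y, t, a, b, h1, h2, h3, h4, h5⟩ := join_Y h.1 h'.1 hm
  refine ⟨s ++ y :: a.reverse, ⟨h4, ?_, ?_⟩, ?_⟩
  · have h6 := h.2.1
    rw [h1] at h6
    cases s with
    | nil => simpa using h6
    | cons d s => simpa using h6
  · have h6 := h'.2.1
    rw [h2] at h6
    rw [List.getLast?_append]
    cases a with
    | nil => simpa using h6
    | cons d a =>
      simp only [List.cons_append, List.head?_cons, Option.some.injEq] at h6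
      subst h6
      rw [List.reverse_cons, ← List.cons_append, List.getLast?_append]
      simp
  · intro x hx
    rw [List.mem_append, List.mem_cons, List.mem_reverse] at hx
    rcases hx with hx | rfl | hx
    · exact Or.inl (by rw [h1]; exact List.mem_append_left _ hx)
    · exact Or.inr (by rw [h2]; simp)
    · exact Or.inr (by rw [h2]; exact List.mem_append_left _ hx)

lemma CycL.rotate {l : List V} (h : CycL G l) {y : V} (hy : y ∈ l) :
    ∃ l', PL G l' ∧ l'.head? = some y ∧ l'.length = l.length ∧ ∀ x, x ∈ l' ↔ x ∈ l := by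
  obtain ⟨hp, -, a, b, ha, hb, hab⟩ := h
  obtain ⟨s, t, rfl⟩ := List.append_of_mem hy
  refine ⟨y :: t ++ s, ?_, rfl, by simp; omega, fun x => by simp; tauto⟩
  refine hp.right.append hp.left (fun x hx hx' => hp.disj x hx' hx) ?_
  intro x hx z hz
  have h1 : b = x := by
    rw [List.getLast?_append] at hb
    rw [Option.mem_def] at hx
    rw [hx] at hb
    simpa using hb.symm
  have h2 : a = z := by
    rw [List.head?_append] at ha
    rw [Option.mem_def] at hz
    rw [hz] at ha
    simpa using ha.symm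
  rw [← h1, ← h2]
  exact hab

/-- `t` disjoint cycles in `S` -/
def NC (G : SimpleGraph V) (t : ℕ) (S : Finset V) : Prop :=
  ∃ c : Fin t → List V, (∀ i, CycL G (c i)) ∧ (∀ i, ∀ x ∈ c i, x ∈ S) ∧
    ∀ i j, i ≠ j → ∀ x ∈ c i, x ∉ c j

lemma NC.zero (S : Finset V) : NC G 0 S := ⟨fun i => i.elim0, fun i => i.elim0, fun i => i.elim0,
  fun i => i.elim0⟩

lemma NC.mono {t : ℕ} {S S' : Finset V} (h : NC G t S) (hS : S ⊆ S') : NC G t S' := by
  obtain ⟨c, h1, h2, h3⟩ := h
  exact ⟨c, h1, fun i x hx => hS (h2 i x hx), h3⟩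

lemma NC.cons {t : ℕ} {S S' : Finset V} (h : NC G t S') {l : List V} (hl : CycL G l)
    (hlS : ∀ x ∈ l, x ∈ S) (hS : S' ⊆ S) (hd : ∀ x ∈ l, x ∉ S') : NC G (t + 1) S := by
  obtain ⟨c, h1, h2, h3⟩ := h
  refine ⟨Fin.cons l c, ?_, ?_, ?_⟩
  · intro i
    refine Fin.cases ?_ (fun i => ?_) i
    · exact hl
    · simpa using h1 i
  · intro i
    refine Fin.cases ?_ (fun i => ?_) i
    · exact hlS
    · simpa using fun x hx => hS (h2 i x hx)
  · intro i j
    refine Fin.cases ?_ (fun i => ?_) i <;> refine Fin.cases ?_ (fun j => ?_) j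
    · intro h; exact absurd rfl h
    · intro _ x hx hx'
      simp only [Fin.cons_zero, Fin.cons_succ] at hx hx'
      exact hd x hx (h2 j x hx')
    · intro _ x hx hx'
      simp only [Fin.cons_zero, Fin.cons_succ] at hx hx'
      exact hd x hx' (h2 i x hx)
    · intro hij x hx
      simp only [Fin.cons_succ] at hx ⊢
      exact h3 i j (fun h => hij (by rw [h])) x hx

/-- a path running into one of several disjoint long cycles -/
lemma absorb {t ℓ : ℕ} {C : Finset V} (hC : Conn G C) {r : V} (hr : r ∈ C) (h : NC G (t + 1) C)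
    (hlong : ∀ l : List V, CycL G l → (∀ x ∈ l, x ∈ C) → ℓ ≤ l.length) :
    ∃ p, PL G p ∧ (∀ x ∈ p, x ∈ C) ∧ p.head? = some r ∧ ℓ ≤ p.length ∧
      ∃ S', S' ⊆ C ∧ (∀ x ∈ p, x ∉ S') ∧ NC G t S' := by
  obtain ⟨c, h1, h2, h3⟩ := h
  have hne : (c 0) ≠ [] := by
    intro h
    have := (h1 0).2.1
    rw [h] at this
    simp at this
  obtain ⟨z, hz⟩ := List.exists_mem_of_ne_nil _ hne
  obtain ⟨l, hl, hlC⟩ := conn_pb hC hr (h2 0 z hz)
  obtain ⟨s, y, b, e1, ⟨j, hj⟩, e3⟩ := split_first (fun x => ∃ i, x ∈ c i) l ⟨z, hl.last_mem, 0, hz⟩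
  obtain ⟨c', g1, g2, g3, g4⟩ := (h1 j).rotate hj
  have hls := hl.1
  rw [e1] at hls
  cases c' with
  | nil => simp at g2
  | cons y' b' =>
    simp only [List.head?_cons, Option.some.injEq] at g2
    subst g2
    refine ⟨s ++ y' :: b', ⟨List.isChain_split.2 ⟨(List.isChain_split.1 hls.1).1, g1.1⟩, ?_⟩, ?_, ?_,
      ?_, ?_⟩
    · rw [List.nodup_append']
      exact ⟨hls.left.2, g1.2, fun x hx hx' => e3 x hx ⟨j, (g4 x).1 hx'⟩⟩
    · intro x hx
      rw [List.mem_append] at hx
      rcases hx with hx | hx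
      · exact hlC x (by rw [e1]; exact List.mem_append_left _ hx)
      · exact h2 j x ((g4 x).1 hx)
    · have h6 := hl.2.1
      rw [e1] at h6
      cases s with
      | nil => simpa using h6
      | cons d s => simpa using h6
    · have h7 := hlong (c j) (h1 j) (h2 j)
      rw [List.length_append, g3]
      omega
    · refine ⟨C.filter (fun x => ∃ i, i ≠ j ∧ x ∈ c i), filter_subset _ _, ?_, ?_⟩
      · intro x hx hx'
        rw [mem_filter] at hx'
        obtain ⟨-, i, hij, hxi⟩ := hx'
        rw [List.mem_append] at hx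
        rcases hx with hx | hx
        · exact e3 x hx ⟨i, hxi⟩
        · exact h3 i j hij x hxi ((g4 x).1 hx)
      · refine ⟨fun i => c (j.succAbove i), fun i => h1 _, ?_, ?_⟩
        · intro i x hx
          rw [mem_filter]
          exact ⟨h2 _ x hx, _, Fin.succAbove_ne j i, hx⟩
        · intro i i' hii
          exact h3 _ _ (fun h => hii (Fin.succAbove_right_injective h))

end Pool.Agent.V1162.TM
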