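import Mathlib
import Pool.Agent.V1162.TM.Lists

/-!
The path of the robber: a path with a connected set attached to many of its vertices.
-/

set_option autoImplicit false
set_option linter.unusedSectionVars false

namespace Pool.Agent.V1162.TM

open SimpleGraph Finset
open Pool.Agent.W126.Split

variable {V : Type} [Fintype V] [DecidableEq V] {G : SimpleGraph V}

open Classical in
/-- the vertices of `l` with a neighbour in `C` -/
noncomputable def att (G : SimpleGraph V) (l : List V) (C : Finset V) : Finset V :=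
  l.toFinset.filter (fun x => ∃ c ∈ C, G.Adj x c)

lemma mem_att {l : List V} {C : Finset V} {x : V} :
    x ∈ att G l C ↔ x ∈ l ∧ ∃ c ∈ C, G.Adj x c := by
  classical
  unfold att
  rw [mem_filter, List.mem_toFinset]

/-- states -/
structure RS (G : SimpleGraph V) (S : Finset V) (w : ℕ) (r : V) (l : List V) (C : Finset V) :
    Prop where
  pl : PL G l
  last : l.getLast? = some r
  sub : ∀ x ∈ l, x ∈ S
  head : ∃ a, l.head? = some a ∧ ∃ c ∈ C, G.Adj a c
  cS : C ⊆ S
  disj : ∀ x ∈ l, x ∉ C
  conn : Conn G C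
  cl : ∀ u ∈ C, ∀ v ∈ S, G.Adj u v → v ∈ C ∨ v ∈ l
  np : ¬ P G w (att G l C) C

lemma adj_of_closed {S K : Finset V} (hS : Conn G S) {r : V} (hr : r ∈ S)
    (hK : Closed G (S.erase r) K) (hne : K.Nonempty) : ∃ c ∈ K, G.Adj r c := by
  obtain ⟨k, hk⟩ := hne
  have hk' := hK.1 hk
  rw [mem_erase] at hk'
  obtain ⟨l, hl, hlS⟩ := conn_pb hS hr hk'.2
  cases l with
  | nil => exact absurd rfl hl.ne_nil
  | cons a t =>
    have h1 := hl.2.1
    simp only [List.head?_cons, Option.some.injEq] at h1
    subst h1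
    cases t with
    | nil =>
      have h2 := hl.2.2
      simp only [List.getLast?_singleton, Option.some.injEq] at h2
      exact absurd h2.symm hk'.1
    | cons b t =>
      have hc := hl.1.1
      rw [List.isChain_cons_cons] at hc
      have hn := hl.1.2
      rw [List.nodup_cons] at hn
      have hkt : k ∈ b :: t := by
        have h3 := hl.last_mem
        rw [List.mem_cons] at h3
        exact h3.resolve_left hk'.1
      have h4 := closed_chain hK hc.2 (fun x hx => by
        rw [mem_erase]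
        exact ⟨fun h => hn.1 (h ▸ hx), hlS x (List.mem_cons_of_mem _ hx)⟩) hkt hk
      exact ⟨b, h4 b (by simp), hc.1⟩

lemma RS.start {S : Finset V} {w : ℕ} (hS : Conn G S) {r : V} (hr : r ∈ S) (hw : 1 ≤ w)
    (h : ¬ P G w ∅ S) : ∃ C, RS G S w r [r] C ∧ (att G [r] C).card ≤ 1 := by
  have h1 : ¬ P G w {r} (S.erase r) := fun h2 => h (P.add _ _ r hr (by simpa using h2))
  obtain ⟨K, hK1, hK0, hK2, hK3, hK4⟩ := exists_compP (by simpa using hw) _ h1
  obtain ⟨c, hc, hrc⟩ := adj_of_closed hS hr hK3 hK0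
  have hrK : r ∉ K := fun h => (mem_erase.1 (hK1 h)).1 rfl
  have hsub : att G [r] K ⊆ {r} := by
    intro x hx
    rw [mem_att] at hx
    simpa using hx.1
  refine ⟨K, ⟨PL.singleton r, rfl, by simpa using hr, ⟨r, rfl, c, hc, hrc⟩,
    hK1.trans (erase_subset _ _), by simpa using hrK, hK2, ?_, ?_⟩, ?_⟩
  · intro u hu v hv huv
    by_cases hvr : v = r
    · exact Or.inr (by simp [hvr])
    · exact Or.inl (hK3.2 u hu v (mem_erase.2 ⟨hvr, hv⟩) huv)
  · intro h2
    apply hK4
    refine P.forget _ _ _ hsub (by simpa using hw) ?_ h2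
    intro x hx hx' k hk hxk
    rw [mem_singleton] at hx
    subst hx
    exact hx' (mem_att.2 ⟨by simp, k, hk, hxk⟩)
  · simpa using card_le_card hsub

lemma RS.step {S : Finset V} {w : ℕ} {r : V} {l : List V} {C : Finset V} (h : RS G S w r l C)
    (hw : (att G l C).card < w) : ∃ c C', RS G S w r (c :: l) C' ∧ C'.card < C.card ∧
      (att G (c :: l) C').card ≤ (att G l C).card + 1 := by
  obtain ⟨a, ha, c, hc, hac⟩ := h.head
  have h1 : ¬ P G w (insert c (att G l C)) (C.erase c) := fun h2 => h.np (P.add _ _ c hc h2)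
  have hcard : (insert c (att G l C)).card ≤ w := (card_insert_le _ _).trans hw
  obtain ⟨K, hK1, hK0, hK2, hK3, hK4⟩ := exists_compP hcard _ h1
  obtain ⟨d, hd, hcd⟩ := adj_of_closed h.conn hc hK3 hK0
  have hcK : c ∉ K := fun h => (mem_erase.1 (hK1 h)).1 rfl
  have hKC : K ⊆ C := hK1.trans (erase_subset _ _)
  have hcl : c ∉ l := fun h' => h.disj c h' hc
  have hsub : att G (c :: l) K ⊆ insert c (att G l C) := by
    intro x hx
    rw [mem_att, List.mem_cons] at hx
    rw [mem_insert]
    obtain ⟨hx | hx, k, hk, hxk⟩ := hx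
    · exact Or.inl hx
    · exact Or.inr (mem_att.2 ⟨hx, k, hKC hk, hxk⟩)
  refine ⟨c, K, ⟨?_, ?_, ?_, ⟨c, rfl, d, hd, hcd⟩, hKC.trans h.cS, ?_, hK2, ?_, ?_⟩, ?_, ?_⟩
  · refine ⟨?_, List.nodup_cons.2 ⟨hcl, h.pl.2⟩⟩
    rw [List.isChain_cons]
    refine ⟨?_, h.pl.1⟩
    intro y hy
    rw [ha] at hy
    simp only [Option.mem_some_iff] at hy
    subst hy
    exact hac.symm
  · have hne : l ≠ [] := by rintro rfl; simp at ha
    rw [List.getLast?_cons_of_ne_nil hne]
    exact h.last
  · intro x hx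
    rw [List.mem_cons] at hx
    rcases hx with rfl | hx
    · exact h.cS hc
    · exact h.sub x hx
  · intro x hx
    rw [List.mem_cons] at hx
    rcases hx with rfl | hx
    · exact hcK
    · exact fun hx' => h.disj x hx (hKC hx')
  · intro u hu v hv huv
    rcases h.cl u (hKC hu) v hv huv with h2 | h2
    · by_cases hvc : v = c
      · exact Or.inr (by simp [hvc])
      · exact Or.inl (hK3.2 u hu v (mem_erase.2 ⟨hvc, h2⟩) huv)
    · exact Or.inr (List.mem_cons_of_mem _ h2)
  · intro h2
    apply hK4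
    refine P.forget _ _ _ hsub hcard ?_ h2
    intro x hx hx' k hk hxk
    rw [mem_insert] at hx
    apply hx'
    rw [mem_att, List.mem_cons]
    rcases hx with rfl | hx
    · exact ⟨Or.inl rfl, k, hk, hxk⟩
    · exact ⟨Or.inr (mem_att.1 hx).1, k, hk, hxk⟩
  · exact card_lt_card ⟨hKC, fun h' => hcK (h' hc)⟩
  · exact (card_le_card hsub).trans (card_insert_le _ _)

lemma RS.reach {S : Finset V} {w s : ℕ} {r : V} (hs : s ≤ w) : ∀ (n : ℕ) (l : List V) (C : Finset V),
    C.card = n → RS G S w r l C → (att G l C).card ≤ s →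
    ∃ l C, RS G S w r l C ∧ (att G l C).card = s := by
  intro n
  induction n using Nat.strong_induction_on with
  | _ n ih =>
    intro l C hn h hle
    by_cases he : (att G l C).card = s
    · exact ⟨l, C, h, he⟩
    · obtain ⟨c, C', h1, h2, h3⟩ := h.step (by omega)
      exact ih C'.card (by omega) _ _ rfl h1 (by omega)

/-- the robber's path -/
theorem robber {S : Finset V} {w s : ℕ} (hS : Conn G S) {r : V} (hr : r ∈ S) (hs1 : 1 ≤ s)
    (hs : s ≤ w) (h : ¬ P G w ∅ S) : ∃ l C, RS G S w r l C ∧ (att G l C).card = s := by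
  obtain ⟨C, h1, h2⟩ := RS.start hS hr (by omega) h
  exact RS.reach hs _ _ _ rfl h1 (by omega)

lemma att_card_le {l : List V} {C : Finset V} : (att G l C).card ≤ l.length := by
  classical
  unfold att
  exact (card_filter_le _ _).trans (List.toFinset_card_le l)

/-- long paths from large treewidth -/
theorem long_path {S : Finset V} {w : ℕ} (h : ¬ P G w ∅ S) :
    ∃ l, PL G l ∧ (∀ x ∈ l, x ∈ S) ∧ w + 1 ≤ l.length := by
  obtain ⟨K, hK1, ⟨r, hr⟩, hK2, hK3, hK4⟩ := exists_compP (by simp) _ h
  rcases Nat.eq_zero_or_pos w with rfl | hw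
  · exact ⟨[r], PL.singleton r, by simpa using hK1 hr, by simp⟩
  · obtain ⟨l, C, h1, h2⟩ := robber hK2 hr hw le_rfl hK4
    obtain ⟨a, ha, c, hc, hac⟩ := h1.head
    refine ⟨c :: l, ⟨?_, List.nodup_cons.2 ⟨fun h' => h1.disj c h' hc, h1.pl.2⟩⟩, ?_, ?_⟩
    · rw [List.isChain_cons]
      refine ⟨?_, h1.pl.1⟩
      intro y hy
      rw [ha] at hy
      simp only [Option.mem_some_iff] at hy
      subst hy
      exact hac.symm
    · intro x hx
      rw [List.mem_cons] at hx
      rcases hx with rfl | hx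
      · exact hK1 (h1.cS hc)
      · exact hK1 (h1.sub x hx)
    · have := att_card_le (G := G) (l := l) (C := C)
      rw [List.length_cons]
      omega

end Pool.Agent.V1162.TM
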