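import Mathlib
import Pool.Agent.V1162.TM.Robber

/-!
Upper bounds for the treewidth: graphs without long paths, forests, and the key lemma.
-/

set_option autoImplicit false
set_option linter.unusedSectionVars false

namespace Pool.Agent.V1162.TM

open SimpleGraph Finset
open Pool.Agent.W126.Split

variable {V : Type} [Fintype V] [DecidableEq V] {G : SimpleGraph V}

theorem td_rooted {w : ℕ} (s : ℕ) : ∀ {X R : Finset V} {r : V}, Conn G R → r ∈ R →
    (∀ l, PL G l → (∀ x ∈ l, x ∈ R) → l.head? = some r → l.length ≤ s) → X.card + s ≤ w →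
    P G w X R := by
  induction s with
  | zero =>
    intro X R r _ hr h _
    have := h [r] (PL.singleton r) (by simpa using hr) rfl
    simp at this
  | succ s ih =>
    intro X R r hR hr h hw
    refine P.add _ _ r hr ?_
    by_contra hcon
    have hcard : (insert r X).card ≤ w := (card_insert_le _ _).trans (by omega)
    obtain ⟨K, hK1, hK0, hK2, hK3, hK4⟩ := exists_compP hcard _ hcon
    obtain ⟨c, hc, hrc⟩ := adj_of_closed hR hr hK3 hK0
    apply hK4
    refine ih hK2 hc ?_ ?_
    · intro l hl hlK hlc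
      have h1 : PL G (r :: l) := by
        refine ⟨?_, List.nodup_cons.2 ⟨fun h' => (mem_erase.1 (hK1 (hlK r h'))).1 rfl, hl.2⟩⟩
        rw [List.isChain_cons]
        refine ⟨?_, hl.1⟩
        intro y hy
        rw [hlc] at hy
        simp only [Option.mem_some_iff] at hy
        subst hy
        exact hrc
      have h2 := h (r :: l) h1 (by
        intro x hx
        rw [List.mem_cons] at hx
        rcases hx with rfl | hx
        · exact hr
        · exact (mem_erase.1 (hK1 (hlK x hx))).2) rfl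
      simpa using h2
    · have := card_insert_le r X
      omega

/-- graphs without long paths -/
theorem td {w s : ℕ} {X R : Finset V} (h : ∀ l, PL G l → (∀ x ∈ l, x ∈ R) → l.length ≤ s)
    (hw : X.card + s ≤ w) : P G w X R := by
  by_contra hcon
  obtain ⟨K, hK1, ⟨r, hr⟩, hK2, hK3, hK4⟩ := exists_compP (by omega) _ hcon
  exact hK4 (td_rooted s hK2 hr (fun l hl hlK _ => h l hl fun x hx => hK1 (hlK x hx)) hw)

/-- `T` contains no cycle -/
def Acy (G : SimpleGraph V) (T : Finset V) : Prop := ∀ l, CycL G l → ¬ ∀ x ∈ l, x ∈ T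

lemma Acy.mono {T T' : Finset V} (h : Acy G T) (hT : T' ⊆ T) : Acy G T' :=
  fun l hl hlT => h l hl fun x hx => hT (hlT x hx)

/-- in a graph without cycles, a connected set is attached to a vertex by at most one edge -/
lemma Acy.unique {T K : Finset V} (hT : Acy G T) (hK : Conn G K) (hKT : K ⊆ T) {r c d : V}
    (hr : r ∈ T) (hrK : r ∉ K) (hc : c ∈ K) (hd : d ∈ K) (hrc : G.Adj r c) (hrd : G.Adj r d) :
    c = d := by
  by_contra hne
  obtain ⟨l, hl, hlK⟩ := conn_pb hK hc hd
  apply hT (r :: l) ⟨⟨?_, List.nodup_cons.2 ⟨fun h => hrK (hlK r h), hl.1.2⟩⟩, ?_, r, d, rfl, ?_, hrd.symm⟩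
  · intro x hx
    rw [List.mem_cons] at hx
    rcases hx with rfl | hx
    · exact hr
    · exact hKT (hlK x hx)
  · rw [List.isChain_cons]
    refine ⟨?_, hl.1.1⟩
    intro y hy
    rw [hl.2.1] at hy
    simp only [Option.mem_some_iff] at hy
    subst hy
    exact hrc
  · have h1 := hl.2.1
    have h2 := hl.2.2
    cases l with
    | nil => simp at h1
    | cons a t =>
      cases t with
      | nil =>
        simp only [List.head?_cons, Option.some.injEq, List.getLast?_singleton] at h1 h2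
        exact absurd (h1.symm.trans h2) hne
      | cons b t => simp
  · rw [List.getLast?_cons_of_ne_nil hl.ne_nil]
    exact hl.2.2

theorem forest_rooted {w : ℕ} (n : ℕ) : ∀ {X T : Finset V} {r : V}, T.card = n → Conn G T → r ∈ T →
    Acy G T → X.card + 2 ≤ w → P G w (insert r X) (T.erase r) := by
  induction n using Nat.strong_induction_on with
  | _ n ih =>
    intro X T r hn hT hr hac hw
    by_contra hcon
    have hcard : (insert r X).card ≤ w := (card_insert_le _ _).trans (by omega)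
    obtain ⟨K, hK1, hK0, hK2, hK3, hK4⟩ := exists_compP hcard _ hcon
    obtain ⟨c, hc, hrc⟩ := adj_of_closed hT hr hK3 hK0
    have hrK : r ∉ K := fun h => (mem_erase.1 (hK1 h)).1 rfl
    have hKT : K ⊆ T := hK1.trans (erase_subset _ _)
    apply hK4
    refine P.add _ _ c hc ?_
    refine P.forget _ (insert c X) _ (insert_subset_insert _ (subset_insert _ _)) ?_ ?_ ?_
    · have h1 := card_insert_le c (insert r X)
      have h2 := card_insert_le r X
      omega
    · intro x hx hx' d hd hxd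
      rw [mem_insert, mem_insert] at hx
      rw [mem_insert] at hx'
      push Not at hx'
      have hxr : x = r := by
        rcases hx with h | h | h
        · exact absurd h hx'.1
        · exact h
        · exact absurd h hx'.2
      subst hxr
      rw [mem_erase] at hd
      exact hd.1 (hac.unique hK2 hKT hr hrK hd.2 hc hxd hrc)
    · refine ih K.card ?_ rfl hK2 hc (hac.mono hKT) hw
      rw [← hn]
      exact card_lt_card ⟨hKT, fun h => hrK (h hr)⟩

/-- forests -/
theorem forest {w : ℕ} {X T : Finset V} (hT : Acy G T) (hw : X.card + 2 ≤ w) : P G w X T := by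
  by_contra hcon
  obtain ⟨K, hK1, ⟨r, hr⟩, hK2, hK3, hK4⟩ := exists_compP (by omega) _ hcon
  exact hK4 (P.add _ _ r hr (forest_rooted _ rfl hK2 hr (hT.mono hK1) hw))

/-- the key lemma: large sets in a small set with few vertices outside are well connected -/
theorem key {S A U S₁ S₂ : Finset V} {w D : ℕ} (hA : A ⊆ S) (hU : U ⊆ S \ A) (h₁ : S₁ ⊆ A)
    (h₂ : S₂ ⊆ A) (hd : Disjoint S₁ S₂)
    (hO : ∀ l, PL G l → (∀ x ∈ l, x ∈ S \ A) → l.length ≤ D) (hnp : ¬ P G w ∅ S)
    (hc₁ : A.card + U.card + D ≤ w + S₁.card) (hc₂ : A.card + U.card + D ≤ w + S₂.card) :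
    ∃ a ∈ S₁, ∃ b ∈ S₂, G.Adj a b ∨ ∃ q a' b', PB G a' b' q ∧ (∀ x ∈ q, x ∈ (S \ A) \ U) ∧
      G.Adj a a' ∧ G.Adj b' b := by
  classical
  by_contra hcon
  push Not at hcon
  apply hnp
  set O := (S \ A) \ U with hOdef
  set K₁ := O.filter (fun x => ∃ a ∈ S₁, ∃ a' ∈ O, G.Adj a a' ∧ x ∈ comp G O a') with hK₁
  have hOS : O ⊆ S \ A := sdiff_subset
  have hO' : ∀ l, PL G l → (∀ x ∈ l, x ∈ O) → l.length ≤ D := fun l hl hlO =>
    hO l hl fun x hx => hOS (hlO x hx)
  -- `K₁` is closed
  have hcl : ∀ u ∈ K₁, ∀ v ∈ O, G.Adj u v → v ∈ K₁ := by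
    intro u hu v hv huv
    rw [hK₁, mem_filter] at hu ⊢
    obtain ⟨-, a, ha, a', ha', haa, hua⟩ := hu
    exact ⟨hv, a, ha, a', ha', haa, (closed_comp O a').2 u hua v hv huv⟩
  have hS₂ : ∀ u ∈ K₁, ∀ v ∈ S₂, ¬ G.Adj u v := by
    intro u hu v hv huv
    rw [hK₁, mem_filter] at hu
    obtain ⟨-, a, ha, a', ha', haa, hua⟩ := hu
    obtain ⟨q, hq, hqO⟩ := conn_pb (conn_comp O a') (mem_comp_self ha') hua
    exact (hcon a ha v hv).2 q a' u hq (fun x hx => (closed_comp O a').1 (hqO x hx)) haa huv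
  have hS₁ : ∀ u ∈ S₁, ∀ v ∈ O, v ∉ K₁ → ¬ G.Adj u v := by
    intro u hu v hv hv' huv
    apply hv'
    rw [hK₁, mem_filter]
    exact ⟨hv, u, hu, v, hv, huv, mem_comp_self hv⟩
  have hS₁₂ : ∀ u ∈ S₁, ∀ v ∈ S₂, ¬ G.Adj u v := fun u hu v hv => (hcon u hu v hv).1
  have hUA : Disjoint A U := by
    rw [Finset.disjoint_left]
    intro x hx hx'
    exact (mem_sdiff.1 (hU hx')).2 hx
  have hUS : U ⊆ S := hU.trans sdiff_subset
  set B₁ := (A \ S₂) ∪ U with hB₁
  have hcB₁ : B₁.card + D ≤ w := by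
    have e1 : (A \ S₂).card = A.card - S₂.card := card_sdiff_of_subset h₂
    have e2 : B₁.card ≤ (A \ S₂).card + U.card := card_union_le _ _
    have e3 := card_le_card h₂
    omega
  refine P.adds B₁ ?_ ?_
  · exact union_subset (sdiff_subset.trans hA) hUS
  rw [empty_union]
  have e4 : S \ B₁ = K₁ ∪ (S₂ ∪ (O \ K₁)) := by
    ext x
    have hxK : x ∈ K₁ → x ∈ O := fun h => (mem_filter.1 h).1
    have hxO : x ∈ O ↔ (x ∈ S ∧ x ∉ A) ∧ x ∉ U := by rw [hOdef, mem_sdiff, mem_sdiff]
    have hxS₂ : x ∈ S₂ → x ∈ A ∧ x ∈ S ∧ x ∉ U := fun h =>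
      ⟨h₂ h, hA (h₂ h), Finset.disjoint_left.1 hUA (h₂ h)⟩
    rw [hB₁]
    simp only [mem_sdiff, mem_union]
    tauto
  rw [e4]
  refine P.split _ _ _ ?_ ?_ (td (fun l hl hlK => hO' l hl fun x hx => (mem_filter.1 (hlK x hx)).1) hcB₁)
    ?_
  · rw [Finset.disjoint_left]
    intro x hx hx'
    rw [mem_union] at hx'
    rcases hx' with hx' | hx'
    · exact (mem_sdiff.1 (hOS (mem_filter.1 hx).1)).2 (h₂ hx')
    · exact (mem_sdiff.1 hx').2 hx
  · intro u hu v hv huv
    rw [mem_union] at hv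
    rcases hv with hv | hv
    · exact hS₂ u hu v hv huv
    · exact (mem_sdiff.1 hv).2 (hcl u hu v (mem_sdiff.1 hv).1 huv)
  · refine P.forget _ (B₁ \ S₁) _ sdiff_subset (by omega) ?_ ?_
    · intro x hx hx' c hc hxc
      have hxS : x ∈ S₁ := by
        by_contra h
        exact hx' (mem_sdiff.2 ⟨hx, h⟩)
      rw [mem_union] at hc
      rcases hc with hc | hc
      · exact hS₁₂ x hxS c hc hxc
      · exact hS₁ x hxS c (mem_sdiff.1 hc).1 (mem_sdiff.1 hc).2 hxc
    · refine P.adds S₂ subset_union_left ?_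
      have e5 : (S₂ ∪ O \ K₁) \ S₂ ⊆ O \ K₁ := by
        intro x hx
        rw [mem_sdiff, mem_union] at hx
        exact hx.1.resolve_left hx.2
      have e6 : B₁ \ S₁ ∪ S₂ ⊆ (A \ S₁) ∪ U := by
        intro x hx
        have h3 : x ∈ S₂ → x ∈ A ∧ x ∉ S₁ := fun h =>
          ⟨h₂ h, fun h' => Finset.disjoint_left.1 hd h' h⟩
        rw [hB₁] at hx
        simp only [mem_sdiff, mem_union] at hx ⊢
        tauto
      have h7 : P G w ((A \ S₁) ∪ U) (O \ K₁) := by
        refine td (fun l hl hlK => hO' l hl fun x hx => (mem_sdiff.1 (hlK x hx)).1) ?_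
        have e1 : (A \ S₁).card = A.card - S₁.card := card_sdiff_of_subset h₁
        have e2 := card_union_le (A \ S₁) U
        have e3 := card_le_card h₁
        omega
      exact h7.mono e6 e5 le_rfl

end Pool.Agent.V1162.TM
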