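import Mathlib
import Pool.Agent.V1162.TM.TD

/-!
Lines: a set of vertices that is covered by few paths; sweeping along a line.
-/

set_option autoImplicit false
set_option linter.unusedSectionVars false

namespace Pool.Agent.V1162.TM

open SimpleGraph Finset
open Pool.Agent.W126.Split

variable {V : Type} [Fintype V] [DecidableEq V] {G : SimpleGraph V}

/-- the vertices of `A` are arranged in a line with at most `t` blocks, consecutive vertices in the
same block being adjacent -/
structure Line (G : SimpleGraph V) (t : ℕ) (A : Finset V) where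
  N : ℕ
  pt : ℕ → V
  blk : ℕ → ℕ
  inj : ∀ p < N, ∀ q < N, pt p = pt q → p = q
  mem : ∀ x, x ∈ A ↔ ∃ p < N, pt p = x
  lt : ∀ p < N, blk p < t
  mono : ∀ p q, p ≤ q → q < N → blk p ≤ blk q
  adj : ∀ p, p + 1 < N → blk p = blk (p + 1) → G.Adj (pt p) (pt (p + 1))

/-- the empty line -/
noncomputable def Line.empty (v : V) : Line G 0 ∅ where
  N := 0
  pt := fun _ => v
  blk := fun _ => 0
  inj := fun p hp => by omega
  mem := fun x => by simp
  lt := fun p hp => by omega
  mono := fun p q _ hq => by omega
  adj := fun p hp => by omega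

/-- adding a path -/
noncomputable def Line.cons {t : ℕ} {A : Finset V} (h : Line G t A) {l : List V} (hl : PL G l)
    (hd : ∀ x ∈ l, x ∉ A) : Line G (t + 1) (A ∪ l.toFinset) where
  N := h.N + l.length
  pt := fun p => if p < h.N then h.pt p else l.getD (p - h.N) (h.pt 0)
  blk := fun p => if p < h.N then h.blk p else t
  inj := by
    intro p hp q hq hpq
    by_cases h1 : p < h.N <;> by_cases h2 : q < h.N
    · simp only [h1, h2, if_true] at hpq
      exact h.inj p h1 q h2 hpq
    · simp only [h1, h2, if_true, if_false] at hpq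
      have h3 : q - h.N < l.length := by omega
      rw [List.getD_eq_getElem _ _ h3] at hpq
      exact absurd ((h.mem _).2 ⟨p, h1, hpq⟩) (hd _ (List.getElem_mem h3))
    · simp only [h1, h2, if_true, if_false] at hpq
      have h3 : p - h.N < l.length := by omega
      rw [List.getD_eq_getElem _ _ h3] at hpq
      exact absurd ((h.mem _).2 ⟨q, h2, hpq.symm⟩) (hd _ (List.getElem_mem h3))
    · simp only [h1, h2, if_false] at hpq
      have h3 : p - h.N < l.length := by omega
      have h4 : q - h.N < l.length := by omega
      rw [List.getD_eq_getElem _ _ h3, List.getD_eq_getElem _ _ h4] at hpq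
      have := (List.Nodup.getElem_inj_iff hl.2).1 hpq
      omega
  mem := by
    intro x
    rw [mem_union, List.mem_toFinset, h.mem]
    constructor
    · rintro (⟨p, hp, rfl⟩ | hx)
      · exact ⟨p, by omega, by simp [hp]⟩
      · obtain ⟨i, hi, rfl⟩ := List.getElem_of_mem hx
        refine ⟨h.N + i, by omega, ?_⟩
        have h1 : ¬ h.N + i < h.N := by omega
        simp only [h1, if_false]
        rw [List.getD_eq_getElem _ _ (by omega)]
        congr 1
        omega
    · rintro ⟨p, hp, rfl⟩
      by_cases h1 : p < h.N
      · exact Or.inl ⟨p, h1, by simp [h1]⟩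
      · right
        simp only [h1, if_false]
        have h3 : p - h.N < l.length := by omega
        rw [List.getD_eq_getElem _ _ h3]
        exact List.getElem_mem h3
  lt := by
    intro p hp
    by_cases h1 : p < h.N
    · have := h.lt p h1
      simp only [h1, if_true]; omega
    · simp only [h1, if_false]; omega
  mono := by
    intro p q hpq hq
    by_cases h2 : q < h.N
    · have h1 : p < h.N := by omega
      simp only [h1, h2, if_true]
      exact h.mono p q hpq h2
    · by_cases h1 : p < h.N
      · simp only [h1, h2, if_true, if_false]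
        exact (h.lt p h1).le
      · simp only [h1, h2, if_false]; omega
  adj := by
    intro p hp hb
    by_cases h1 : p + 1 < h.N
    · have h2 : p < h.N := by omega
      simp only [h1, h2, if_true] at hb ⊢
      exact h.adj p h1 hb
    · by_cases h2 : p < h.N
      · simp only [h1, h2, if_true, if_false] at hb
        have := h.lt p h2
        omega
      · simp only [h1, h2, if_false]
        have h3 : p - h.N < l.length := by omega
        have h4 : p + 1 - h.N < l.length := by omega
        rw [List.getD_eq_getElem _ _ h3, List.getD_eq_getElem _ _ h4]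
        have h5 := List.isChain_iff_getElem.1 hl.1 (p - h.N) (by omega)
        have h6 : p + 1 - h.N = p - h.N + 1 := by omega
        simp only [h6]
        exact h5

/-- disjoint paths form a line -/
lemma exists_line (v : V) {t : ℕ} (c : Fin t → List V) (h1 : ∀ i, PL G (c i))
    (h3 : ∀ i j, i ≠ j → ∀ x ∈ c i, x ∉ c j) :
    ∃ A : Finset V, (∀ x, x ∈ A ↔ ∃ i, x ∈ c i) ∧ Nonempty (Line G t A) := by
  induction t with
  | zero => exact ⟨∅, fun x => by simp, ⟨Line.empty v⟩⟩
  | succ t ih =>
    obtain ⟨A, hA, ⟨L⟩⟩ := ih (fun i => c i.succ) (fun i => h1 _)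
      (fun i j hij => h3 _ _ (fun h => hij (Fin.succ_injective _ h)))
    refine ⟨A ∪ (c 0).toFinset, ?_, ⟨L.cons (h1 0) ?_⟩⟩
    · intro x
      rw [mem_union, List.mem_toFinset, hA, Fin.exists_fin_succ]
      tauto
    · intro x hx hxA
      obtain ⟨i, hi⟩ := (hA x).1 hxA
      exact h3 0 i.succ (Fin.succ_ne_zero i).symm x hx hi

/-- sweeping along a line -/
theorem sweep {t w : ℕ} {A F Y : Finset V} (L : Line G t A) (hAF : Disjoint A F) (hF : Acy G F)
    (hch : ∀ p q, p + 1 < q → q < L.N → L.pt p ∉ Y → L.pt q ∉ Y → ¬ G.Adj (L.pt p) (L.pt q))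
    (hat : ∀ D, D ⊆ F \ Y → Conn G D → ∀ a ∈ A \ Y, ∀ b ∈ A \ Y, (∃ d ∈ D, G.Adj a d) →
      (∃ d ∈ D, G.Adj b d) → a = b) (hw : Y.card + 4 ≤ w) (hY : Y ⊆ A ∪ F) :
    P G w ∅ (A ∪ F) := by
  classical
  set T : ℕ → Finset V := fun j => (F \ Y).filter (fun f => ∃ e ∈ F \ Y, G.Adj (L.pt j) e ∧
    f ∈ comp G (F \ Y) e) with hT
  set R : ℕ → Finset V := fun p => (A \ Y).filter (fun x => ∃ j, p ≤ j ∧ j < L.N ∧ L.pt j = x) ∪
    (F \ Y).filter (fun f => ∀ j < p, j < L.N → L.pt j ∉ Y → f ∉ T j) with hR
  have hAF' : ∀ x, x ∈ A → x ∉ F := fun x hx hx' => Finset.disjoint_left.1 hAF hx hx'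
  have hTF : ∀ j, T j ⊆ F \ Y := fun j => filter_subset _ _
  have hTcl : ∀ j, ∀ u ∈ T j, ∀ v ∈ F \ Y, G.Adj u v → v ∈ T j := by
    intro j u hu v hv huv
    simp only [hT, mem_filter] at hu ⊢
    obtain ⟨hu1, e, he, hje, hue⟩ := hu
    exact ⟨hv, e, he, hje, (closed_comp _ e).2 u hue v hv huv⟩
  have hTnb : ∀ j, L.pt j ∈ A \ Y → ∀ u ∈ T j, ∀ b ∈ A \ Y, G.Adj u b → b = L.pt j := by
    intro j hj u hu b hb hub
    simp only [hT, mem_filter] at hu
    obtain ⟨hu1, e, he, hje, hue⟩ := hu
    exact (hat _ (closed_comp (F \ Y) e).1 (conn_comp _ e) _ hj b hb ⟨e, mem_comp_self he, hje⟩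
      ⟨u, hue, hub.symm⟩).symm
  have main : ∀ k p, p + k = L.N → ∀ X : Finset V, X.card ≤ Y.card + 1 →
      (∀ x ∈ X, x ∉ Y → ∃ j < p, j < L.N ∧ L.pt j = x) → P G w X (R p) := by
    intro k
    induction k with
    | zero =>
      intro p hp X hX _
      have h1 : R p ⊆ F := by
        intro x hx
        simp only [hR, mem_union, mem_filter] at hx
        rcases hx with ⟨-, j, hj1, hj2, -⟩ | ⟨h, -⟩
        · omega
        · exact (mem_sdiff.1 h).1
      exact forest (hF.mono h1) (by omega)
    | succ k ih =>
      intro p hp X hX hXp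
      have hpN : p < L.N := by omega
      have hpA : L.pt p ∈ A := (L.mem _).2 ⟨p, hpN, rfl⟩
      by_cases hpY : L.pt p ∈ Y
      · have h1 : R p ⊆ R (p + 1) := by
          intro x hx
          simp only [hR, mem_union, mem_filter] at hx ⊢
          rcases hx with ⟨h, j, hj1, hj2, rfl⟩ | ⟨h, h'⟩
          · left
            refine ⟨h, j, ?_, hj2, rfl⟩
            rcases Nat.lt_or_ge p j with h2 | h2
            · exact h2
            · have : j = p := by omega
              subst this
              exact absurd hpY (mem_sdiff.1 h).2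
          · right
            refine ⟨h, fun j hj hjN hjY => ?_⟩
            rcases Nat.lt_or_ge j p with h2 | h2
            · exact h' j h2 hjN hjY
            · have : j = p := by omega
              subst this
              exact absurd hpY hjY
        refine (ih (p + 1) (by omega) X hX ?_).mono Subset.rfl h1 le_rfl
        intro x hx hxY
        obtain ⟨j, hj1, hj2, hj3⟩ := hXp x hx hxY
        exact ⟨j, by omega, hj2, hj3⟩
      · have hpAY : L.pt p ∈ A \ Y := mem_sdiff.2 ⟨hpA, hpY⟩
        have hpR : L.pt p ∈ R p := by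
          simp only [hR, mem_union, mem_filter]
          exact Or.inl ⟨hpAY, p, le_rfl, hpN, rfl⟩
        refine P.add _ _ _ hpR ?_
        have h1 : (R p).erase (L.pt p) ⊆ T p ∪ R (p + 1) := by
          intro x hx
          rw [mem_erase] at hx
          obtain ⟨hx1, hx⟩ := hx
          simp only [hR, mem_union, mem_filter] at hx ⊢
          rcases hx with ⟨h, j, hj1, hj2, rfl⟩ | ⟨h, h'⟩
          · right; left
            refine ⟨h, j, ?_, hj2, rfl⟩
            rcases Nat.lt_or_ge p j with h2 | h2
            · exact h2
            · have : j = p := by omega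
              subst this
              exact absurd rfl hx1
          · by_cases hxT : x ∈ T p
            · exact Or.inl hxT
            · right; right
              refine ⟨h, fun j hj hjN hjY => ?_⟩
              rcases Nat.lt_or_ge j p with h2 | h2
              · exact h' j h2 hjN hjY
              · have : j = p := by omega
                subst this
                exact hxT
        refine P.mono (C := T p ∪ R (p + 1)) ?_ Subset.rfl h1 le_rfl
        have hcard : (insert (L.pt p) X).card ≤ Y.card + 2 := (card_insert_le _ _).trans (by omega)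
        refine P.split _ _ _ ?_ ?_ (forest (hF.mono ((hTF p).trans sdiff_subset)) (by omega)) ?_
        · rw [Finset.disjoint_left]
          intro x hx hx'
          simp only [hR, mem_union, mem_filter] at hx'
          rcases hx' with ⟨h, -⟩ | ⟨h, h'⟩
          · exact hAF' x (mem_sdiff.1 h).1 (mem_sdiff.1 (hTF p hx)).1
          · exact h' p (by omega) hpN hpY hx
        · intro u hu v hv huv
          simp only [hR, mem_union, mem_filter] at hv
          rcases hv with ⟨h, j, hj1, hj2, rfl⟩ | ⟨h, h'⟩
          · have h2 := L.inj j hj2 p hpN (hTnb p hpAY u hu _ h huv)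
            omega
          · exact h' p (by omega) hpN hpY (hTcl p u hu v h huv)
        · refine P.forget _ (insert (L.pt p) (X ∩ Y)) _ (insert_subset_insert _ inter_subset_left)
            (by omega) ?_ (ih (p + 1) (by omega) _ ?_ ?_)
          · intro x hx hx' c hc hxc
            rw [mem_insert] at hx hx'
            push Not at hx'
            have hxX := hx.resolve_left hx'.1
            have hxY : x ∉ Y := fun h => hx'.2 (mem_inter.2 ⟨hxX, h⟩)
            obtain ⟨j, hj1, hj2, rfl⟩ := hXp x hxX hxY
            have hjA : L.pt j ∈ A \ Y := mem_sdiff.2 ⟨(L.mem _).2 ⟨j, hj2, rfl⟩, hxY⟩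
            simp only [hR, mem_union, mem_filter] at hc
            rcases hc with ⟨h, i, hi1, hi2, rfl⟩ | ⟨h, h'⟩
            · exact hch j i (by omega) hi2 hxY (mem_sdiff.1 h).2 hxc
            · apply h' j (by omega) hj2 hxY
              simp only [hT, mem_filter]
              exact ⟨h, c, h, hxc, mem_comp_self h⟩
          · have := card_le_card (inter_subset_right (s₁ := X) (s₂ := Y))
            exact (card_insert_le _ _).trans (by omega)
          · intro x hx hxY
            rw [mem_insert, mem_inter] at hx
            rcases hx with rfl | hx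
            · exact ⟨p, by omega, hpN, rfl⟩
            · exact absurd hx.2 hxY
  refine P.adds Y hY ?_
  rw [empty_union]
  refine (main L.N 0 (by omega) Y (by omega) (fun x hx hx' => absurd hx hx')).mono Subset.rfl ?_ le_rfl
  intro x hx
  rw [mem_sdiff, mem_union] at hx
  simp only [hR, mem_union, mem_filter]
  rcases hx.1 with h | h
  · obtain ⟨p, hp, rfl⟩ := (L.mem x).1 h
    exact Or.inl ⟨mem_sdiff.2 ⟨h, hx.2⟩, p, Nat.zero_le _, hp, rfl⟩
  · exact Or.inr ⟨mem_sdiff.2 ⟨h, hx.2⟩, fun j hj => by omega⟩

end Pool.Agent.V1162.TM
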