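import Mathlib
import Pool.Agent.V1162.TM.Sweep

/-!
Disjoint connectors through a forest, or a small set destroying all of them.
-/

set_option autoImplicit false
set_option linter.unusedSectionVars false

namespace Pool.Agent.V1162.TM

open SimpleGraph Finset
open Pool.Agent.W126.Split

variable {V : Type} [Fintype V] [DecidableEq V] {G : SimpleGraph V}

/-- `Q` is a path joining `x` and `y` (without these two vertices) -/
def Cn (G : SimpleGraph V) (x y : V) (Q : List V) : Prop :=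
  (Q = [] ∧ G.Adj x y) ∨ ∃ a b, PB G a b Q ∧ G.Adj x a ∧ G.Adj b y

lemma Cn.symm {x y : V} {Q : List V} (h : Cn G x y Q) : Cn G y x Q.reverse := by
  rcases h with ⟨rfl, h⟩ | ⟨a, b, h1, h2, h3⟩
  · exact Or.inl ⟨rfl, h.symm⟩
  · exact Or.inr ⟨b, a, h1.reverse, h3.symm, h2.symm⟩

lemma Cn.join {u v x y : V} {l l' Q : List V} (h : Cn G x y Q) (hl : PB G u x l)
    (hl' : PB G y v l') (h1 : ∀ z ∈ l, z ∉ Q) (h2 : ∀ z ∈ l, z ∉ l') (h3 : ∀ z ∈ Q, z ∉ l') :
    PB G u v (l ++ Q ++ l') := by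
  rcases h with ⟨rfl, h⟩ | ⟨a, b, g1, g2, g3⟩
  · rw [List.append_nil]
    exact hl.append hl' h2 h
  · refine (hl.append g1 h1 g2).append hl' ?_ g3
    intro z hz
    rw [List.mem_append] at hz
    rcases hz with hz | hz
    · exact h2 z hz
    · exact h3 z hz

lemma Cn.cyc {u v : V} {l Q : List V} (h : Cn G v u Q) (hl : PB G u v l) (h1 : ∀ z ∈ l, z ∉ Q)
    (hlen : 3 ≤ l.length + Q.length) : CycL G (l ++ Q) := by
  rcases h with ⟨rfl, h⟩ | ⟨a, b, g1, g2, g3⟩
  · rw [List.append_nil]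
    exact ⟨hl.1, by simpa using hlen, u, v, hl.2.1, hl.2.2, h⟩
  · have h2 := hl.append g1 h1 g2
    exact ⟨h2.1, by simpa using hlen, u, b, h2.2.1, h2.2.2, g3⟩

/-- `q` disjoint connectors -/
def CF (G : SimpleGraph V) (A F : Finset V) (ok : V → V → Prop) (q : ℕ) : Prop :=
  ∃ (x y : ℕ → V) (Q : ℕ → List V),
    (∀ i < q, x i ∈ A ∧ y i ∈ A ∧ x i ≠ y i ∧ (∀ z ∈ Q i, z ∈ F) ∧ Cn G (x i) (y i) (Q i) ∧
      (Q i = [] → ok (x i) (y i))) ∧
    (∀ i < q, ∀ j < q, i ≠ j → x i ≠ x j ∧ x i ≠ y j ∧ y i ≠ y j ∧ ∀ z ∈ Q i, z ∉ Q j)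

lemma CF.zero (A F : Finset V) (ok : V → V → Prop) (v : V) : CF G A F ok 0 :=
  ⟨fun _ => v, fun _ => v, fun _ => [], fun i hi => by omega, fun i hi => by omega⟩

lemma CF.cons {A F A' F' : Finset V} {ok : V → V → Prop} {q : ℕ} (h : CF G A' F' ok q)
    (hA : A' ⊆ A) (hF : F' ⊆ F) {x₀ y₀ : V} {Q₀ : List V} (hx : x₀ ∈ A) (hx' : x₀ ∉ A')
    (hy : y₀ ∈ A) (hy' : y₀ ∉ A') (hxy : x₀ ≠ y₀) (hQ : ∀ z ∈ Q₀, z ∈ F) (hQ' : ∀ z ∈ Q₀, z ∉ F')
    (hC : Cn G x₀ y₀ Q₀) (hok : Q₀ = [] → ok x₀ y₀) : CF G A F ok (q + 1) := by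
  obtain ⟨x, y, Q, h1, h2⟩ := h
  refine ⟨fun i => if i < q then x i else x₀, fun i => if i < q then y i else y₀,
    fun i => if i < q then Q i else Q₀, ?_, ?_⟩
  · intro i hi
    by_cases hiq : i < q
    · simp only [hiq, if_true]
      obtain ⟨a1, a2, a3, a4, a5, a6⟩ := h1 i hiq
      exact ⟨hA a1, hA a2, a3, fun z hz => hF (a4 z hz), a5, a6⟩
    · simp only [hiq, if_false]
      exact ⟨hx, hy, hxy, hQ, hC, hok⟩
  · intro i hi j hj hij
    by_cases hiq : i < q <;> by_cases hjq : j < q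
    · simp only [hiq, hjq, if_true]
      exact h2 i hiq j hjq hij
    · simp only [hiq, hjq, if_true, if_false]
      obtain ⟨a1, a2, a3, a4, a5, a6⟩ := h1 i hiq
      exact ⟨fun h => hx' (h ▸ a1), fun h => hy' (h ▸ a1), fun h => hy' (h ▸ a2),
        fun z hz hz' => hQ' z hz' (a4 z hz)⟩
    · simp only [hiq, hjq, if_true, if_false]
      obtain ⟨a1, a2, a3, a4, a5, a6⟩ := h1 j hjq
      exact ⟨fun h => hx' (h ▸ a1), fun h => hx' (h ▸ a2), fun h => hy' (h ▸ a2),
        fun z hz hz' => hQ' z hz (a4 z hz')⟩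
    · omega

/-- chords -/
theorem chords {F : Finset V} {ok : V → V → Prop} (v : V) (q : ℕ) : ∀ A : Finset V,
    CF G A F ok q ∨ ∃ Y, Y ⊆ A ∧ Y.card ≤ 2 * q ∧
      ∀ a ∈ A \ Y, ∀ b ∈ A \ Y, G.Adj a b → ¬ ok a b := by
  induction q with
  | zero => exact fun A => Or.inl (CF.zero A F ok v)
  | succ q ih =>
    intro A
    by_cases h : ∀ a ∈ A, ∀ b ∈ A, G.Adj a b → ¬ ok a b
    · exact Or.inr ⟨∅, empty_subset _, by simp, fun a ha b hb => h a (mem_sdiff.1 ha).1 b (mem_sdiff.1 hb).1⟩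
    · push Not at h
      obtain ⟨a, ha, b, hb, hab, hok⟩ := h
      rcases ih (A \ {a, b}) with h | ⟨Y, hY, hc, h⟩
      · left
        refine h.cons sdiff_subset Subset.rfl (x₀ := a) (y₀ := b) (Q₀ := []) ha (by simp) hb (by simp)
          hab.ne (by simp) (by simp) (Or.inl ⟨rfl, hab⟩) (fun _ => hok)
      · right
        refine ⟨Y ∪ {a, b}, ?_, ?_, ?_⟩
        · intro x hx
          rw [mem_union, mem_insert, mem_singleton] at hx
          rcases hx with hx | rfl | rfl
          · exact (mem_sdiff.1 (hY hx)).1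
          · exact ha
          · exact hb
        · have h1 := card_union_le Y {a, b}
          have h2 := card_le_two (a := a) (b := b)
          omega
        · intro c hc' d hd'
          refine h c ?_ d ?_
          · simp only [mem_sdiff, mem_union, not_or] at hc' ⊢
            exact ⟨⟨hc'.1, hc'.2.2⟩, hc'.2.1⟩
          · simp only [mem_sdiff, mem_union, not_or] at hd' ⊢
            exact ⟨⟨hd'.1, hd'.2.2⟩, hd'.2.1⟩

/-- `D` is attached to at most one vertex of `A` -/
def Att1 (G : SimpleGraph V) (A D : Finset V) : Prop :=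
  ∀ a ∈ A, ∀ b ∈ A, (∃ d ∈ D, G.Adj a d) → (∃ d ∈ D, G.Adj b d) → a = b

lemma Att1.mono {A D A' D' : Finset V} (h : Att1 G A D) (hA : A' ⊆ A) (hD : D' ⊆ D) :
    Att1 G A' D' := fun a ha b hb ⟨d, hd, h1⟩ ⟨e, he, h2⟩ =>
  h a (hA ha) b (hA hb) ⟨d, hD hd, h1⟩ ⟨e, hD he, h2⟩

lemma sub_closed {D E K : Finset V} (hD : Conn G D) (hE : D ⊆ E) (hK : Closed G E K) {d : V}
    (hd : d ∈ D) (hdK : d ∈ K) : D ⊆ K := by
  intro x hx
  obtain ⟨l, hl, hlD⟩ := conn_pb hD hd hx
  exact closed_chain hK hl.1.1 (fun y hy => hE (hlD y hy)) hl.head_mem hdK x hl.last_mem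

/-- a lowest place in a forest with two attachments -/
lemma exists_low {A F : Finset V} (hF : Acy G F) (n : ℕ) : ∀ (z : V) (W : Finset V), W.card = n →
    z ∈ W → W ⊆ F → Conn G W → Closed G (F.erase z) (W.erase z) → ¬ Att1 G A W →
    ∃ (z : V) (W : Finset V), z ∈ W ∧ W ⊆ F ∧ Conn G W ∧ Closed G (F.erase z) (W.erase z) ∧
      ¬ Att1 G A W ∧ ∀ D, D ⊆ W.erase z → Conn G D → Att1 G A D := by
  induction n using Nat.strong_induction_on with
  | _ n ih =>
    intro z W hn hz hW hc hcl hA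
    by_cases h : ∀ D, D ⊆ W.erase z → Conn G D → Att1 G A D
    · exact ⟨z, W, hz, hW, hc, hcl, hA, h⟩
    · push Not at h
      obtain ⟨D, hD1, hD2, hD3⟩ := h
      have hD0 : D.Nonempty := by
        rw [nonempty_iff_ne_empty]
        rintro rfl
        exact hD3 (fun a _ b _ ⟨d, hd, _⟩ => by simp at hd)
      obtain ⟨d, hd⟩ := hD0
      set K := comp G (W.erase z) d with hK
      have hKcl : Closed G (W.erase z) K := closed_comp _ _
      have hKc : Conn G K := conn_comp _ _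
      have hdK : d ∈ K := mem_comp_self (hD1 hd)
      have hDK : D ⊆ K := sub_closed hD2 hD1 hKcl hd hdK
      obtain ⟨k, hk, hzk⟩ := adj_of_closed hc hz hKcl ⟨d, hdK⟩
      have hKW : K ⊆ W.erase z := hKcl.1
      have hzK : z ∉ K := fun h => (mem_erase.1 (hKW h)).1 rfl
      have hKF : K ⊆ F := hKW.trans ((erase_subset _ _).trans hW)
      refine ih K.card ?_ k K rfl hk hKF hKc ⟨erase_subset_erase _ hKF, ?_⟩
        (fun h => hD3 (h.mono Subset.rfl hDK))
      · rw [← hn]
        exact card_lt_card ⟨hKW.trans (erase_subset _ _), fun h => hzK (h hz)⟩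
      · intro u hu v hv huv
        rw [mem_erase] at hu hv ⊢
        refine ⟨hv.1, ?_⟩
        have huz := mem_erase.1 (hKW hu.2)
        by_cases hvz : v = z
        · subst hvz
          exact absurd (hF.unique hKc hKF (hW hz) hzK hu.2 hk huv.symm hzk) hu.1
        · have h1 := hcl.2 u (mem_erase.2 huz) v (mem_erase.2 ⟨hvz, hv.2⟩) huv
          exact hKcl.2 u hu.2 v h1 huv

/-- connectors through a forest -/
theorem fconn {ok : V → V → Prop} (v : V) (q : ℕ) : ∀ A F : Finset V, Acy G F →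
    CF G A F ok q ∨ ∃ Y, Y ⊆ A ∪ F ∧ Y.card ≤ 3 * q ∧
      ∀ D, D ⊆ F \ Y → Conn G D → Att1 G (A \ Y) D := by
  induction q with
  | zero => exact fun A F _ => Or.inl (CF.zero A F ok v)
  | succ q ih =>
    intro A F hF
    by_cases h : ∀ D, D ⊆ F → Conn G D → Att1 G A D
    · exact Or.inr ⟨∅, empty_subset _, by simp, fun D hD hc => (h D (hD.trans sdiff_subset) hc).mono
        sdiff_subset Subset.rfl⟩
    · push Not at h
      obtain ⟨D₀, hD1, hD2, hD3⟩ := h
      have hD0 : D₀.Nonempty := by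
        rw [nonempty_iff_ne_empty]
        rintro rfl
        exact hD3 (fun a _ b _ ⟨d, hd, _⟩ => by simp at hd)
      obtain ⟨d₀, hd₀⟩ := hD0
      have hcl₀ := closed_comp (G := G) F d₀
      have hsub := sub_closed hD2 hD1 hcl₀ hd₀ (mem_comp_self (hD1 hd₀))
      obtain ⟨z, W, hz, hW, hc, hcl, hA, hlow⟩ := exists_low (A := A) hF _ d₀ (comp G F d₀) rfl
        (mem_comp_self (hD1 hd₀)) hcl₀.1 (conn_comp _ _) ⟨erase_subset_erase _ hcl₀.1, by
          intro u hu w hw huw
          rw [mem_erase] at hu hw ⊢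
          exact ⟨hw.1, hcl₀.2 u hu.2 w hw.2 huw⟩⟩ (fun h => hD3 (h.mono Subset.rfl hsub))
      have h2 : ∃ a ∈ A, ∃ b ∈ A, (∃ d ∈ W, G.Adj a d) ∧ (∃ d ∈ W, G.Adj b d) ∧ a ≠ b := by
        unfold Att1 at hA
        push Not at hA
        obtain ⟨a, ha, b, hb, h3, h4, h5⟩ := hA
        exact ⟨a, ha, b, hb, h3, h4, h5⟩
      obtain ⟨a, ha, b, hb, ⟨d, hd, had⟩, ⟨e, he, hbe⟩, hab⟩ := h2
      obtain ⟨Q, hQ, hQW⟩ := conn_pb hc hd he
      rcases ih (A \ {a, b}) (F \ W) (hF.mono sdiff_subset) with h | ⟨Y, hY, hcard, h⟩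
      · left
        refine h.cons sdiff_subset sdiff_subset (x₀ := a) (y₀ := b) (Q₀ := Q) ha (by simp) hb (by simp)
          hab (fun x hx => hW (hQW x hx)) (fun x hx hx' => (mem_sdiff.1 hx').2 (hQW x hx))
          (Or.inr ⟨d, e, hQ, had, hbe.symm⟩) (fun h => absurd h hQ.ne_nil)
      · right
        refine ⟨Y ∪ {z, a, b}, ?_, ?_, ?_⟩
        · intro x hx
          rw [mem_union, mem_insert, mem_insert, mem_singleton] at hx
          rw [mem_union]
          rcases hx with hx | rfl | rfl | rfl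
          · rcases mem_union.1 (hY hx) with h1 | h1
            · exact Or.inl (mem_sdiff.1 h1).1
            · exact Or.inr (mem_sdiff.1 h1).1
          · exact Or.inr (hW hz)
          · exact Or.inl ha
          · exact Or.inl hb
        · have h1 := card_union_le Y {z, a, b}
          have h2 := card_le_three (a := z) (b := a) (c := b)
          omega
        · intro D hD hDc
          by_cases hDW : ∃ x ∈ D, x ∈ W
          · obtain ⟨x, hx, hxW⟩ := hDW
            have h3 : D ⊆ F.erase z := by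
              intro y hy
              have := hD hy
              simp only [mem_sdiff, mem_union, mem_insert, mem_singleton, not_or] at this
              exact mem_erase.2 ⟨this.2.2.1, this.1⟩
            have h4 : D ⊆ W.erase z := sub_closed hDc h3 hcl hx
              (mem_erase.2 ⟨(mem_erase.1 (h3 hx)).1, hxW⟩)
            exact (hlow D h4 hDc).mono sdiff_subset Subset.rfl
          · push Not at hDW
            refine (h D ?_ hDc).mono ?_ Subset.rfl
            · intro y hy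
              have := hD hy
              simp only [mem_sdiff, mem_union, mem_insert, mem_singleton, not_or] at this ⊢
              exact ⟨⟨this.1, hDW y hy⟩, this.2.1⟩
            · intro y hy
              simp only [mem_sdiff, mem_union, mem_insert, mem_singleton, not_or] at hy ⊢
              exact ⟨⟨hy.1, hy.2.2.2⟩, hy.2.1⟩

end Pool.Agent.V1162.TM
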