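import Mathlib

/-!
Ramsey's theorem for pairs and two colours.
-/

set_option autoImplicit false

namespace Pool.Agent.V1162.TM

open Finset

theorem ramsey (k l : ℕ) : ∃ N : ℕ, ∀ (r : ℕ → ℕ → Prop) (s : Finset ℕ), N ≤ s.card →
    (∃ t, t ⊆ s ∧ t.card = k ∧ ∀ i ∈ t, ∀ j ∈ t, i < j → r i j) ∨
    (∃ t, t ⊆ s ∧ t.card = l ∧ ∀ i ∈ t, ∀ j ∈ t, i < j → ¬ r i j) := by
  classical
  induction hn : k + l generalizing k l with
  | zero =>
    have hk : k = 0 := by omega
    subst hk
    exact ⟨0, fun r s _ => Or.inl ⟨∅, empty_subset _, rfl, by simp⟩⟩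
  | succ n ih =>
    rcases Nat.eq_zero_or_pos k with rfl | hk
    · exact ⟨0, fun r s _ => Or.inl ⟨∅, empty_subset _, rfl, by simp⟩⟩
    rcases Nat.eq_zero_or_pos l with rfl | hl
    · exact ⟨0, fun r s _ => Or.inr ⟨∅, empty_subset _, rfl, by simp⟩⟩
    obtain ⟨N₁, h₁⟩ := ih (k - 1) l (by omega)
    obtain ⟨N₂, h₂⟩ := ih k (l - 1) (by omega)
    refine ⟨N₁ + N₂ + 1, fun r s hs => ?_⟩
    have hne : s.Nonempty := card_pos.1 (by omega)
    set m := s.min' hne with hm
    have hms : m ∈ s := min'_mem _ _
    have hlt : ∀ j ∈ s.erase m, m < j := by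
      intro j hj
      rw [mem_erase] at hj
      exact lt_of_le_of_ne (min'_le _ _ hj.2) (Ne.symm hj.1)
    set s₁ := (s.erase m).filter (fun j => r m j) with hs₁
    set s₂ := (s.erase m).filter (fun j => ¬ r m j) with hs₂
    have hc : s₁.card + s₂.card = s.card - 1 := by
      rw [hs₁, hs₂, card_filter_add_card_filter_not, card_erase_of_mem hms]
    have e₁ : ∀ j ∈ s₁, j ∈ s ∧ m < j ∧ r m j := fun j hj => by
      rw [hs₁, mem_filter] at hj
      exact ⟨(mem_erase.1 hj.1).2, hlt j hj.1, hj.2⟩
    have e₂ : ∀ j ∈ s₂, j ∈ s ∧ m < j ∧ ¬ r m j := fun j hj => by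
      rw [hs₂, mem_filter] at hj
      exact ⟨(mem_erase.1 hj.1).2, hlt j hj.1, hj.2⟩
    rcases Nat.lt_or_ge s₁.card N₁ with h | h
    · -- many non-neighbours
      rcases h₂ r s₂ (by omega) with ⟨t, ht, hc, hr⟩ | ⟨t, ht, hc, hr⟩
      · exact Or.inl ⟨t, fun x hx => (e₂ x (ht hx)).1, hc, hr⟩
      · right
        have hmt : m ∉ t := fun h' => absurd (e₂ m (ht h')).2.1 (lt_irrefl _)
        refine ⟨insert m t, ?_, ?_, ?_⟩
        · intro x hx
          rw [mem_insert] at hx
          rcases hx with rfl | hx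
          · exact hms
          · exact (e₂ x (ht hx)).1
        · rw [card_insert_of_notMem hmt]; omega
        · intro i hi j hj hij
          rw [mem_insert] at hi hj
          rcases hi with rfl | hi
          · rcases hj with rfl | hj
            · exact absurd hij (lt_irrefl _)
            · exact (e₂ j (ht hj)).2.2
          · rcases hj with rfl | hj
            · exact absurd (hij.trans (e₂ i (ht hi)).2.1) (lt_irrefl _)
            · exact hr i hi j hj hij
    · rcases h₁ r s₁ h with ⟨t, ht, hc, hr⟩ | ⟨t, ht, hc, hr⟩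
      · left
        have hmt : m ∉ t := fun h' => absurd (e₁ m (ht h')).2.1 (lt_irrefl _)
        refine ⟨insert m t, ?_, ?_, ?_⟩
        · intro x hx
          rw [mem_insert] at hx
          rcases hx with rfl | hx
          · exact hms
          · exact (e₁ x (ht hx)).1
        · rw [card_insert_of_notMem hmt]; omega
        · intro i hi j hj hij
          rw [mem_insert] at hi hj
          rcases hi with rfl | hi
          · rcases hj with rfl | hj
            · exact absurd hij (lt_irrefl _)
            · exact (e₁ j (ht hj)).2.2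
          · rcases hj with rfl | hj
            · exact absurd (hij.trans (e₁ i (ht hi)).2.1) (lt_irrefl _)
            · exact hr i hi j hj hij
      · exact Or.inr ⟨t, fun x hx => (e₁ x (ht hx)).1, hc, hr⟩

end Pool.Agent.V1162.TM
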