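import Mathlib
import Pool.Agent.V1162.TM.Cn
import Pool.Agent.V1162.TM.Ramsey

/-!
Graphs of large treewidth contain many disjoint cycles.
-/

set_option autoImplicit false
set_option linter.unusedSectionVars false

namespace Pool.Agent.V1162.TM

open SimpleGraph Finset
open Pool.Agent.W126.Split

variable {V : Type} [Fintype V] [DecidableEq V] {G : SimpleGraph V}

lemma NC_of {t : ℕ} {S : Finset V} (U : Fin t → V → Prop)
    (h : ∀ k, ∃ l, CycL G l ∧ ∀ x ∈ l, U k x) (hS : ∀ k x, U k x → x ∈ S)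
    (hd : ∀ i j, i < j → ∀ x, U i x → ¬ U j x) : NC G t S := by
  choose c h1 h2 using h
  refine ⟨c, h1, fun i x hx => hS i x (h2 i x hx), ?_⟩
  intro i j hij x hx hx'
  rcases lt_or_gt_of_ne hij with h | h
  · exact hd i j h x (h2 i x hx) (h2 j x hx')
  · exact hd j i h x (h2 j x hx') (h2 i x hx)

/-- segments -/
def sg (f : ℕ → V) (p : ℕ) : ℕ → List V
  | 0 => [f p]
  | n + 1 => sg f p n ++ [f (p + n + 1)]

lemma length_sg (f : ℕ → V) (p n : ℕ) : (sg f p n).length = n + 1 := by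
  induction n with
  | zero => rfl
  | succ n ih => simp [sg, ih]

lemma mem_sg {f : ℕ → V} {p n : ℕ} {x : V} (h : x ∈ sg f p n) : ∃ j, p ≤ j ∧ j ≤ p + n ∧ f j = x := by
  induction n with
  | zero =>
    simp only [sg, List.mem_singleton] at h
    exact ⟨p, le_rfl, le_rfl, h.symm⟩
  | succ n ih =>
    simp only [sg, List.mem_append, List.mem_singleton] at h
    rcases h with h | h
    · obtain ⟨j, h1, h2, h3⟩ := ih h
      exact ⟨j, h1, by omega, h3⟩
    · exact ⟨p + n + 1, by omega, by omega, h.symm⟩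

lemma sg_pb {t : ℕ} {A : Finset V} (L : Line G t A) (p n : ℕ) (hn : p + n < L.N)
    (hb : L.blk p = L.blk (p + n)) : PB G (L.pt p) (L.pt (p + n)) (sg L.pt p n) := by
  induction n with
  | zero => exact ⟨PL.singleton _, rfl, rfl⟩
  | succ n ih =>
    have h1 := L.mono p (p + n) (by omega) (by omega)
    have h2 := L.mono (p + n) (p + (n + 1)) (by omega) hn
    have h3 := ih (by omega) (by omega)
    have h4 : G.Adj (L.pt (p + n)) (L.pt (p + n + 1)) := L.adj (p + n) (by omega) (by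
      have : p + n + 1 = p + (n + 1) := by ring
      rw [this]; omega)
    refine h3.append (l' := [L.pt (p + n + 1)]) ⟨PL.singleton _, rfl, rfl⟩ ?_ h4
    intro x hx hx'
    rw [List.mem_singleton] at hx'
    subst hx'
    obtain ⟨j, h5, h6, h7⟩ := mem_sg hx
    have := L.inj j (by omega) _ (by omega) h7
    omega

/-- a family of connectors, indexed by the first position -/
structure Fam {t : ℕ} {A : Finset V} (L : Line G t A) (F : Finset V) (T : Finset ℕ) (β : ℕ → ℕ)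
    (Q : ℕ → List V) : Prop where
  lt : ∀ p ∈ T, p < β p ∧ β p < L.N
  cn : ∀ p ∈ T, Cn G (L.pt p) (L.pt (β p)) (Q p)
  ne : ∀ p ∈ T, Q p = [] → p + 1 < β p
  sub : ∀ p ∈ T, ∀ z ∈ Q p, z ∈ F
  d : ∀ p ∈ T, ∀ q ∈ T, p ≠ q → p ≠ β q ∧ β p ≠ β q ∧ ∀ z ∈ Q p, z ∉ Q q

lemma cyc1 {t : ℕ} {A F : Finset V} {L : Line G t A} {T : Finset ℕ} {β : ℕ → ℕ} {Q : ℕ → List V}
    (hF : Fam L F T β Q) (hAF : Disjoint A F) {p : ℕ} (hp : p ∈ T) (hb : L.blk p = L.blk (β p)) :
    ∃ l, CycL G l ∧ ∀ x ∈ l, (∃ j, p ≤ j ∧ j ≤ β p ∧ L.pt j = x) ∨ x ∈ Q p := by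
  obtain ⟨h1, h2⟩ := hF.lt p hp
  have e : p + (β p - p) = β p := by omega
  have h3 := sg_pb L p (β p - p) (by omega) (by rw [e]; exact hb)
  rw [e] at h3
  refine ⟨sg L.pt p (β p - p) ++ (Q p).reverse, (hF.cn p hp).symm.cyc h3 ?_ ?_, ?_⟩
  · intro z hz hz'
    rw [List.mem_reverse] at hz'
    obtain ⟨j, h4, h5, rfl⟩ := mem_sg hz
    exact Finset.disjoint_left.1 hAF ((L.mem _).2 ⟨j, by omega, rfl⟩) (hF.sub p hp _ hz')
  · rw [length_sg, List.length_reverse]
    rcases Nat.eq_zero_or_pos (Q p).length with h | h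
    · have := hF.ne p hp (List.length_eq_zero_iff.1 h)
      omega
    · omega
  · intro x hx
    rw [List.mem_append, List.mem_reverse] at hx
    rcases hx with hx | hx
    · obtain ⟨j, h4, h5, h6⟩ := mem_sg hx
      exact Or.inl ⟨j, h4, by omega, h6⟩
    · exact Or.inr hx

lemma cyc2 {t : ℕ} {A F : Finset V} {L : Line G t A} {T : Finset ℕ} {β : ℕ → ℕ} {Q : ℕ → List V}
    (hF : Fam L F T β Q) (hAF : Disjoint A F) {p q : ℕ} (hp : p ∈ T) (hq : q ∈ T) (hpq : p < q)
    (hqb : q < β p) (hb : L.blk p = L.blk q) (hb' : L.blk (β p) = L.blk (β q)) :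
    ∃ l, CycL G l ∧ ∀ x ∈ l, ((∃ j, p ≤ j ∧ j ≤ q ∧ L.pt j = x) ∨
      (∃ j, min (β p) (β q) ≤ j ∧ j ≤ max (β p) (β q) ∧ L.pt j = x)) ∨ x ∈ Q p ∨ x ∈ Q q := by
  obtain ⟨h1, h2⟩ := hF.lt p hp
  obtain ⟨h1', h2'⟩ := hF.lt q hq
  have hd := hF.d p hp q hq hpq.ne
  have hA : ∀ j < L.N, ∀ i, i ∈ T → L.pt j ∉ Q i := fun j hj i hi h =>
    Finset.disjoint_left.1 hAF ((L.mem _).2 ⟨j, hj, rfl⟩) (hF.sub i hi _ h)
  have e : p + (q - p) = q := by omega
  have h3 := sg_pb L p (q - p) (by omega) (by rw [e]; exact hb)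
  rw [e] at h3
  -- the second segment
  have h4 : ∃ l₂, PB G (L.pt (β q)) (L.pt (β p)) l₂ ∧
      (∀ x ∈ l₂, ∃ j, min (β p) (β q) ≤ j ∧ j ≤ max (β p) (β q) ∧ L.pt j = x) ∧ 2 ≤ l₂.length := by
    rcases lt_or_gt_of_ne hd.2.1 with h | h
    · have e' : β p + (β q - β p) = β q := by omega
      have h5 := sg_pb L (β p) (β q - β p) (by omega) (by rw [e']; exact hb')
      rw [e'] at h5
      refine ⟨_, h5.reverse, ?_, ?_⟩
      · intro x hx
        rw [List.mem_reverse] at hx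
        obtain ⟨j, g1, g2, g3⟩ := mem_sg hx
        exact ⟨j, by omega, by omega, g3⟩
      · rw [List.length_reverse, length_sg]; omega
    · have e' : β q + (β p - β q) = β p := by omega
      have h5 := sg_pb L (β q) (β p - β q) (by omega) (by rw [e']; exact hb'.symm)
      rw [e'] at h5
      refine ⟨_, h5, ?_, ?_⟩
      · intro x hx
        obtain ⟨j, g1, g2, g3⟩ := mem_sg hx
        exact ⟨j, by omega, by omega, g3⟩
      · rw [length_sg]; omega
  obtain ⟨l₂, g1, g2, g3⟩ := h4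
  have h5 := (hF.cn q hq).join h3 g1 (by
    intro z hz hz'
    obtain ⟨j, h4, h5, rfl⟩ := mem_sg hz
    exact hA j (by omega) q hq hz') (by
    intro z hz hz'
    obtain ⟨j, h4, h5, rfl⟩ := mem_sg hz
    obtain ⟨i, h6, h7, h8⟩ := g2 _ hz'
    have := L.inj i (by omega) j (by omega) h8
    omega) (by
    intro z hz hz'
    obtain ⟨i, h6, h7, rfl⟩ := g2 _ hz'
    exact hA i (by omega) q hq hz)
  refine ⟨_, (hF.cn p hp).symm.cyc h5 ?_ ?_, ?_⟩
  · intro z hz hz'
    rw [List.mem_reverse] at hz'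
    rw [List.mem_append, List.mem_append] at hz
    rcases hz with (hz | hz) | hz
    · obtain ⟨j, h4, h5, rfl⟩ := mem_sg hz
      exact hA j (by omega) p hp hz'
    · exact hd.2.2 z hz' hz
    · obtain ⟨i, h6, h7, rfl⟩ := g2 _ hz
      exact hA i (by omega) p hp hz'
  · rw [List.length_append, List.length_append, length_sg]
    omega
  · intro x hx
    rw [List.mem_append, List.mem_append, List.mem_append, List.mem_reverse] at hx
    rcases hx with ((hx | hx) | hx) | hx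
    · obtain ⟨j, h4, h5, h6⟩ := mem_sg hx
      exact Or.inl (Or.inl ⟨j, h4, by omega, h6⟩)
    · exact Or.inr (Or.inr hx)
    · exact Or.inl (Or.inr (g2 x hx))
    · exact Or.inr (Or.inl hx)

lemma arith {a c a' c' A C A' C' k : ℕ} (_e1 : a < c) (_e2 : a' < c') (e3 : c < a')
    (e8 : c' < A) (e9 : c' < C) (e10 : c < A') (e11 : c < C')
    (hm : (A < A' ∧ A < C' ∧ C < A' ∧ C < C') ∨ (A' < A ∧ A' < C ∧ C' < A ∧ C' < C))
    (k2 : a ≤ k ∧ k ≤ c ∨ min A C ≤ k ∧ k ≤ max A C)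
    (l2 : a' ≤ k ∧ k ≤ c' ∨ min A' C' ≤ k ∧ k ≤ max A' C') : False := by
  omega

/-- many connectors give many disjoint cycles -/
theorem fam_NC (r t : ℕ) : ∃ M : ℕ, ∀ (V : Type) [Fintype V] [DecidableEq V] (G : SimpleGraph V)
    (A F : Finset V) (L : Line G r A) (T : Finset ℕ) (β : ℕ → ℕ) (Q : ℕ → List V),
    Disjoint A F → Fam L F T β Q → M ≤ T.card → NC G t (A ∪ F) := by
  obtain ⟨N₂, h₂⟩ := ramsey (2 * t) (2 * t)
  obtain ⟨N₁, h₁⟩ := ramsey (t + 2) N₂
  refine ⟨r * r * N₁ + 1, ?_⟩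
  intro V _ _ G A F L T β Q hAF hF hM
  have hr : 0 < r := by
    have h1 : T.Nonempty := card_pos.1 (by omega)
    obtain ⟨p, hp⟩ := h1
    have := L.lt p (by have := hF.lt p hp; omega)
    omega
  obtain ⟨⟨P₀, R₀⟩, -, hfib⟩ := exists_le_card_fiber_of_mul_le_card_of_maps_to
    (s := T) (t := range r ×ˢ range r) (f := fun p => (L.blk p, L.blk (β p))) (n := N₁) (by
      intro p hp
      rw [mem_product, mem_range, mem_range]
      have := hF.lt p hp
      exact ⟨L.lt p (by omega), L.lt _ this.2⟩) (by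
      rw [nonempty_product]
      exact ⟨⟨0, mem_range.2 hr⟩, ⟨0, mem_range.2 hr⟩⟩) (by
      rw [card_product, card_range]; omega)
  set T₀ := T.filter (fun p => (L.blk p, L.blk (β p)) = (P₀, R₀)) with hT₀
  have hT : ∀ p ∈ T₀, p ∈ T ∧ L.blk p = P₀ ∧ L.blk (β p) = R₀ := by
    intro p hp
    rw [hT₀, mem_filter, Prod.mk.injEq] at hp
    exact hp
  have hA : ∀ j < L.N, ∀ i, i ∈ T → L.pt j ∉ Q i := fun j hj i hi h =>
    Finset.disjoint_left.1 hAF ((L.mem _).2 ⟨j, hj, rfl⟩) (hF.sub i hi _ h)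
  rcases h₁ (fun p q => β p < q) T₀ hfib with ⟨U, hU, hUc, hUr⟩ | ⟨U, hU, hUc, hUr⟩
  · -- disjoint intervals
    set f := U.orderEmbOfFin hUc with hf
    have hfU : ∀ i, f i ∈ U := fun i => orderEmbOfFin_mem U hUc i
    have hPR : P₀ = R₀ := by
      have a0 := hfU 0
      have a1 := hfU 1
      have h01 : f 0 < f 1 := f.strictMono (by
        rw [Fin.lt_def]; simp)
      have b0 := hT _ (hU a0)
      have b1 := hT _ (hU a1)
      have h3 := hUr _ a0 _ a1 h01
      have h4 := hF.lt _ b0.1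
      have h5 := hF.lt _ b1.1
      have h6 := L.mono _ _ h4.1.le h4.2
      have h7 := L.mono _ _ h3.le (by omega)
      omega
    refine NC_of (fun k x => (∃ j, f (k.castAdd 2) ≤ j ∧ j ≤ β (f (k.castAdd 2)) ∧ L.pt j = x) ∨
      x ∈ Q (f (k.castAdd 2))) ?_ ?_ ?_
    · intro k
      have b0 := hT _ (hU (hfU (k.castAdd 2)))
      exact cyc1 hF hAF b0.1 (by rw [b0.2.1, b0.2.2]; exact hPR)
    · intro k x hx
      have b0 := hT _ (hU (hfU (k.castAdd 2)))
      have h4 := hF.lt _ b0.1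
      rcases hx with ⟨j, h5, h6, rfl⟩ | hx
      · exact mem_union_left _ ((L.mem _).2 ⟨j, by omega, rfl⟩)
      · exact mem_union_right _ (hF.sub _ b0.1 _ hx)
    · intro i j hij x hx hx'
      have b0 := hT _ (hU (hfU (i.castAdd 2)))
      have b1 := hT _ (hU (hfU (j.castAdd 2)))
      have hlt : f (i.castAdd 2) < f (j.castAdd 2) := f.strictMono (by
        rw [Fin.lt_def] at hij ⊢; simpa using hij)
      have h3 := hUr _ (hfU _) _ (hfU _) hlt
      have h4 := hF.lt _ b0.1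
      have h5 := hF.lt _ b1.1
      rcases hx with ⟨k, h6, h7, rfl⟩ | hx <;> rcases hx' with ⟨l, h8, h9, h10⟩ | hx'
      · have := L.inj l (by omega) k (by omega) h10
        omega
      · exact hA k (by omega) _ b1.1 hx'
      · subst h10
        exact hA l (by omega) _ b0.1 hx
      · exact (hF.d _ b0.1 _ b1.1 hlt.ne).2.2 x hx hx'
  · -- crossing intervals
    have key : ∀ W : Finset ℕ, W ⊆ U → ∀ hc : W.card = 2 * t,
        ((∀ p ∈ W, ∀ q ∈ W, p < q → β p < β q) ∨ ∀ p ∈ W, ∀ q ∈ W, p < q → ¬ β p < β q) →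
        NC G t (A ∪ F) := by
      intro W hW hc hmon
      set f := W.orderEmbOfFin hc with hf
      have hfW : ∀ i, f i ∈ W := fun i => orderEmbOfFin_mem W hc i
      have b : ∀ i, f i ∈ T ∧ L.blk (f i) = P₀ ∧ L.blk (β (f i)) = R₀ := fun i => hT _ (hU (hW (hfW i)))
      have hcr : ∀ i j, f i < β (f j) := by
        intro i j
        have h4 := hF.lt _ (b i).1
        have h5 := hF.lt _ (b j).1
        rcases lt_trichotomy (f i) (f j) with h | h | h
        · omega
        · omega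
        · have h6 := hUr _ (hW (hfW j)) _ (hW (hfW i)) h
          have h7 := (hF.d _ (b i).1 _ (b j).1 h.ne').1
          omega
      let a : Fin t → Fin (2 * t) := fun k => ⟨2 * k.1, by omega⟩
      let c : Fin t → Fin (2 * t) := fun k => ⟨2 * k.1 + 1, by omega⟩
      have hac : ∀ k, f (a k) < f (c k) := fun k => f.strictMono (by
        rw [Fin.lt_def]; simp [a, c])
      have hca : ∀ i j : Fin t, i < j → f (c i) < f (a j) := fun i j hij => f.strictMono (by
        rw [Fin.lt_def] at hij ⊢; simp only [a, c]; omega)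
      refine NC_of (fun k x => ((∃ j, f (a k) ≤ j ∧ j ≤ f (c k) ∧ L.pt j = x) ∨
        (∃ j, min (β (f (a k))) (β (f (c k))) ≤ j ∧ j ≤ max (β (f (a k))) (β (f (c k))) ∧
          L.pt j = x)) ∨ x ∈ Q (f (a k)) ∨ x ∈ Q (f (c k))) ?_ ?_ ?_
      · intro k
        refine cyc2 hF hAF (b _).1 (b _).1 (hac k) (hcr _ _) ?_ ?_
        · rw [(b _).2.1, (b _).2.1]
        · rw [(b _).2.2, (b _).2.2]
      · intro k x hx
        have h4 := hF.lt _ (b (a k)).1
        have h5 := hF.lt _ (b (c k)).1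
        rcases hx with (⟨j, h6, h7, rfl⟩ | ⟨j, h6, h7, rfl⟩) | hx | hx
        · exact mem_union_left _ ((L.mem _).2 ⟨j, by omega, rfl⟩)
        · exact mem_union_left _ ((L.mem _).2 ⟨j, by omega, rfl⟩)
        · exact mem_union_right _ (hF.sub _ (b _).1 _ hx)
        · exact mem_union_right _ (hF.sub _ (b _).1 _ hx)
      · intro i j hij x hx hx'
        have e1 := hac i
        have e2 := hac j
        have e3 := hca i j hij
        have e4 := hF.lt _ (b (a i)).1
        have e5 := hF.lt _ (b (c i)).1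
        have e6 := hF.lt _ (b (a j)).1
        have e7 := hF.lt _ (b (c j)).1
        have e8 := hcr (c j) (a i)
        have e9 := hcr (c j) (c i)
        have e10 := hcr (c i) (a j)
        have e11 := hcr (c i) (c j)
        have hmon' : (β (f (a i)) < β (f (a j)) ∧ β (f (a i)) < β (f (c j)) ∧
            β (f (c i)) < β (f (a j)) ∧ β (f (c i)) < β (f (c j))) ∨
            (β (f (a j)) < β (f (a i)) ∧ β (f (a j)) < β (f (c i)) ∧
            β (f (c j)) < β (f (a i)) ∧ β (f (c j)) < β (f (c i))) := by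
          rcases hmon with h | h
          · left
            exact ⟨h _ (hfW _) _ (hfW _) (by omega), h _ (hfW _) _ (hfW _) (by omega),
              h _ (hfW _) _ (hfW _) (by omega), h _ (hfW _) _ (hfW _) (by omega)⟩
          · right
            have d1 := (hF.d _ (b (a i)).1 _ (b (a j)).1 (by omega)).2.1
            have d2 := (hF.d _ (b (a i)).1 _ (b (c j)).1 (by omega)).2.1
            have d3 := (hF.d _ (b (c i)).1 _ (b (a j)).1 (by omega)).2.1
            have d4 := (hF.d _ (b (c i)).1 _ (b (c j)).1 (by omega)).2.1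
            have g1 := h _ (hfW (a i)) _ (hfW (a j)) (by omega)
            have g2 := h _ (hfW (a i)) _ (hfW (c j)) (by omega)
            have g3 := h _ (hfW (c i)) _ (hfW (a j)) (by omega)
            have g4 := h _ (hfW (c i)) _ (hfW (c j)) (by omega)
            omega
        have hx1 : (∃ k, k < L.N ∧ (f (a i) ≤ k ∧ k ≤ f (c i) ∨ min (β (f (a i))) (β (f (c i))) ≤ k ∧
            k ≤ max (β (f (a i))) (β (f (c i)))) ∧ L.pt k = x) ∨ ∃ p, p ∈ T ∧
            (p = f (a i) ∨ p = f (c i)) ∧ x ∈ Q p := by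
          rcases hx with (⟨k, h6, h7, h8⟩ | ⟨k, h6, h7, h8⟩) | hx | hx
          · exact Or.inl ⟨k, by omega, Or.inl ⟨h6, h7⟩, h8⟩
          · exact Or.inl ⟨k, by omega, Or.inr ⟨h6, h7⟩, h8⟩
          · exact Or.inr ⟨_, (b _).1, Or.inl rfl, hx⟩
          · exact Or.inr ⟨_, (b _).1, Or.inr rfl, hx⟩
        have hx2 : (∃ k, k < L.N ∧ (f (a j) ≤ k ∧ k ≤ f (c j) ∨ min (β (f (a j))) (β (f (c j))) ≤ k ∧
            k ≤ max (β (f (a j))) (β (f (c j)))) ∧ L.pt k = x) ∨ ∃ p, p ∈ T ∧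
            (p = f (a j) ∨ p = f (c j)) ∧ x ∈ Q p := by
          rcases hx' with (⟨k, h6, h7, h8⟩ | ⟨k, h6, h7, h8⟩) | hx | hx
          · exact Or.inl ⟨k, by omega, Or.inl ⟨h6, h7⟩, h8⟩
          · exact Or.inl ⟨k, by omega, Or.inr ⟨h6, h7⟩, h8⟩
          · exact Or.inr ⟨_, (b _).1, Or.inl rfl, hx⟩
          · exact Or.inr ⟨_, (b _).1, Or.inr rfl, hx⟩
        rcases hx1 with ⟨k, k1, k2, rfl⟩ | ⟨p, p1, p2, p3⟩ <;>
          rcases hx2 with ⟨l, l1, l2, l3⟩ | ⟨q, q1, q2, q3⟩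
        · have := L.inj l l1 k k1 l3
          subst this
          exact arith e1 e2 e3 e8 e9 e10 e11 hmon' k2 l2
        · exact hA k k1 q q1 q3
        · subst l3
          exact hA l l1 p p1 p3
        · exact (hF.d p p1 q q1 (by omega)).2.2 x p3 q3
    rcases h₂ (fun p q => β p < β q) U hUc.ge with ⟨W, hW, hWc, hWr⟩ | ⟨W, hW, hWc, hWr⟩
    · exact key W hW hWc (Or.inl hWr)
    · exact key W hW hWc (Or.inr hWr)

end Pool.Agent.V1162.TM
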