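import Mathlib
import Pool.Agent.V1162.TM.EP

/-!
Graphs of large treewidth contain many disjoint cycles.
-/

set_option autoImplicit false
set_option linter.unusedSectionVars false

namespace Pool.Agent.V1162.TM

open SimpleGraph Finset
open Pool.Agent.W126.Split

variable {V : Type} [Fintype V] [DecidableEq V] {G : SimpleGraph V}

/-- no two consecutive vertices of the line -/
def okL {r : ℕ} {A : Finset V} (L : Line G r A) (x y : V) : Prop :=
  ∀ p < L.N, ∀ s < L.N, L.pt p = x → L.pt s = y → p + 1 ≠ s ∧ s + 1 ≠ p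

lemma CF.fam {r : ℕ} {A F : Finset V} (L : Line G r A) {q : ℕ} (h : CF G A F (okL L) q) :
    ∃ T β Q, Fam L F T β Q ∧ T.card = q := by
  classical
  obtain ⟨x, y, Q, h1, h2⟩ := h
  have hx : ∀ i, ∃ p, i < q → p < L.N ∧ L.pt p = x i := by
    intro i
    by_cases hi : i < q
    · obtain ⟨p, hp, hp'⟩ := (L.mem _).1 (h1 i hi).1
      exact ⟨p, fun _ => ⟨hp, hp'⟩⟩
    · exact ⟨0, fun h => absurd h hi⟩
  have hy : ∀ i, ∃ p, i < q → p < L.N ∧ L.pt p = y i := by
    intro i
    by_cases hi : i < q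
    · obtain ⟨p, hp, hp'⟩ := (L.mem _).1 (h1 i hi).2.1
      exact ⟨p, fun _ => ⟨hp, hp'⟩⟩
    · exact ⟨0, fun h => absurd h hi⟩
  choose px hpx using hx
  choose py hpy using hy
  set a : ℕ → ℕ := fun i => min (px i) (py i) with ha
  set b : ℕ → ℕ := fun i => max (px i) (py i) with hb
  set R : ℕ → List V := fun i => if px i ≤ py i then Q i else (Q i).reverse with hR
  have hmR : ∀ i z, z ∈ R i ↔ z ∈ Q i := by
    intro i z
    simp only [hR]
    split_ifs
    · rfl
    · exact List.mem_reverse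
  have hne : ∀ i < q, ∀ j < q, i ≠ j → px i ≠ px j ∧ px i ≠ py j ∧ py i ≠ py j := by
    intro i hi j hj hij
    obtain ⟨g1, g2, g3, -⟩ := h2 i hi j hj hij
    refine ⟨fun h => g1 ?_, fun h => g2 ?_, fun h => g3 ?_⟩
    · rw [← (hpx i hi).2, ← (hpx j hj).2, h]
    · rw [← (hpx i hi).2, ← (hpy j hj).2, h]
    · rw [← (hpy i hi).2, ← (hpy j hj).2, h]
  have hab : ∀ i < q, ∀ j < q, i ≠ j → a i ≠ a j ∧ a i ≠ b j ∧ b i ≠ b j := by
    intro i hi j hj hij
    have g1 := hne i hi j hj hij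
    have g2 := hne j hj i hi hij.symm
    simp only [ha, hb]
    omega
  have hH : ∀ i < q, a i < b i ∧ b i < L.N ∧ Cn G (L.pt (a i)) (L.pt (b i)) (R i) ∧
      (R i = [] → a i + 1 < b i) ∧ ∀ z ∈ R i, z ∈ F := by
    intro i hi
    obtain ⟨g1, g2, g3, g4, g5, g6⟩ := h1 i hi
    obtain ⟨e1, e2⟩ := hpx i hi
    obtain ⟨e3, e4⟩ := hpy i hi
    have e5 : px i ≠ py i := fun h => g3 (by rw [← e2, ← e4, h])
    have hRF : ∀ z ∈ R i, z ∈ F := fun z hz => g4 z ((hmR i z).1 hz)
    by_cases hle : px i ≤ py i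
    · have ea : a i = px i := by simp only [ha]; omega
      have eb : b i = py i := by simp only [hb]; omega
      have eR : R i = Q i := by simp only [hR, hle, if_true]
      rw [ea, eb]
      refine ⟨by omega, e3, ?_, ?_, hRF⟩
      · rw [e2, e4, eR]; exact g5
      · intro h
        rw [eR] at h
        have := g6 h (px i) e1 (py i) e3 e2 e4
        omega
    · have ea : a i = py i := by simp only [ha]; omega
      have eb : b i = px i := by simp only [hb]; omega
      have eR : R i = (Q i).reverse := by simp only [hR, hle, if_false]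
      rw [ea, eb]
      refine ⟨by omega, e1, ?_, ?_, hRF⟩
      · rw [e2, e4, eR]; exact g5.symm
      · intro h
        rw [eR, List.reverse_eq_nil_iff] at h
        have := g6 h (px i) e1 (py i) e3 e2 e4
        omega
  have hι : ∀ p, ∃ i, p ∈ (range q).image a → i < q ∧ a i = p := by
    intro p
    by_cases hp : p ∈ (range q).image a
    · obtain ⟨i, hi, hip⟩ := mem_image.1 hp
      exact ⟨i, fun _ => ⟨mem_range.1 hi, hip⟩⟩
    · exact ⟨0, fun h => absurd h hp⟩
  choose ι hι using hι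
  refine ⟨(range q).image a, fun p => b (ι p), fun p => R (ι p), ⟨?_, ?_, ?_, ?_, ?_⟩, ?_⟩
  · intro p hp
    obtain ⟨h3, h4⟩ := hι p hp
    have := hH _ h3
    rw [h4] at this
    exact ⟨this.1, this.2.1⟩
  · intro p hp
    obtain ⟨h3, h4⟩ := hι p hp
    have := hH _ h3
    rw [h4] at this
    exact this.2.2.1
  · intro p hp
    obtain ⟨h3, h4⟩ := hι p hp
    have := hH _ h3
    rw [h4] at this
    exact this.2.2.2.1
  · intro p hp
    obtain ⟨h3, h4⟩ := hι p hp
    exact (hH _ h3).2.2.2.2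
  · intro p hp s hs hps
    obtain ⟨h3, h4⟩ := hι p hp
    obtain ⟨h5, h6⟩ := hι s hs
    have hne' : ι p ≠ ι s := fun h => hps (by rw [← h4, ← h6, h])
    obtain ⟨g1, g2, g3⟩ := hab _ h3 _ h5 hne'
    rw [h4] at g2
    refine ⟨g2, g3, fun z hz hz' => ?_⟩
    exact (h2 _ h3 _ h5 hne').2.2.2 z ((hmR _ _).1 hz) ((hmR _ _).1 hz')
  · rw [card_image_of_injOn, card_range]
    intro i hi j hj hij
    by_contra hne'
    exact (hab i (by simpa using hi) j (by simpa using hj) hne').1 hij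

/-- **graphs of large treewidth contain many disjoint cycles** -/
theorem EP (t : ℕ) : ∃ c : ℕ, ∀ (V : Type) [Fintype V] [DecidableEq V] (G : SimpleGraph V)
    (S : Finset V), ¬ P G c ∅ S → NC G t S := by
  classical
  choose M hM using fun r => fam_NC r t
  refine ⟨5 * (range (t + 1)).sup M + 4, ?_⟩
  intro V _ _ G S hnp
  by_contra hNC
  have hS : S.Nonempty := by
    rw [nonempty_iff_ne_empty]
    rintro rfl
    exact hnp (P.nil _ (by simp))
  obtain ⟨v, hv⟩ := hS
  have hex : ∃ r, ¬ NC G r S := ⟨t, hNC⟩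
  set r := Nat.find hex with hr
  have hr1 : ¬ NC G r S := Nat.find_spec hex
  have hr2 : r ≤ t := Nat.find_min' hex hNC
  have hr3 : r ≠ 0 := fun h => hr1 (by rw [h]; exact NC.zero S)
  obtain ⟨r', hr'⟩ := Nat.exists_eq_succ_of_ne_zero hr3
  have hr4 : NC G r' S := by
    by_contra h
    have := Nat.find_min' hex h
    omega
  obtain ⟨c, c1, c2, c3⟩ := hr4
  obtain ⟨A, hA, ⟨L⟩⟩ := exists_line v c (fun i => (c1 i).1) c3
  have hAS : A ⊆ S := by
    intro x hx
    obtain ⟨i, hi⟩ := (hA x).1 hx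
    exact c2 i x hi
  have hNA : NC G r' A := ⟨c, c1, fun i x hx => (hA x).2 ⟨i, hx⟩, c3⟩
  set F := S \ A with hF
  have hAF : Disjoint A F := disjoint_sdiff
  have hAF' : A ∪ F = S := union_sdiff_of_subset hAS
  have hac : Acy G F := by
    intro l hl hlF
    apply hr1
    rw [hr']
    exact hNA.cons hl (fun x hx => (mem_sdiff.1 (hlF x hx)).1) hAS
      (fun x hx => (mem_sdiff.1 (hlF x hx)).2)
  have hfin : ¬ CF G A F (okL L) (M r') := by
    intro h
    obtain ⟨T, β, Q, h1, h2⟩ := h.fam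
    have h3 := hM r' V G A F L T β Q hAF h1 h2.ge
    rw [hAF'] at h3
    exact hNC h3
  have hMr : M r' ≤ (range (t + 1)).sup M := le_sup (f := M) (mem_range.2 (by omega))
  rcases chords (F := F) (ok := okL L) v (M r') A with h | ⟨Y₁, hY₁, hc₁, h₁⟩
  · exact hfin h
  rcases fconn (ok := okL L) v (M r') A F hac with h | ⟨Y₂, hY₂, hc₂, h₂⟩
  · exact hfin h
  apply hnp
  rw [← hAF']
  have hcard := card_union_le Y₁ Y₂
  refine sweep (Y := Y₁ ∪ Y₂) L hAF hac ?_ ?_ (by omega) ?_
  · intro p q hpq hq hp' hq' hadj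
    rw [mem_union, not_or] at hp' hq'
    refine h₁ _ (mem_sdiff.2 ⟨(L.mem _).2 ⟨p, by omega, rfl⟩, hp'.1⟩) _
      (mem_sdiff.2 ⟨(L.mem _).2 ⟨q, hq, rfl⟩, hq'.1⟩) hadj ?_
    intro p' hp1 q' hq1 e1 e2
    have := L.inj p' hp1 p (by omega) e1
    have := L.inj q' hq1 q hq e2
    omega
  · intro D hD hDc a ha b hb
    refine h₂ D ?_ hDc a ?_ b ?_
    · intro x hx
      have := hD hx
      simp only [mem_sdiff, mem_union, not_or] at this ⊢
      exact ⟨this.1, this.2.2⟩
    · simp only [mem_sdiff, mem_union, not_or] at ha ⊢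
      exact ⟨ha.1, ha.2.2⟩
    · simp only [mem_sdiff, mem_union, not_or] at hb ⊢
      exact ⟨hb.1, hb.2.2⟩
  · exact union_subset (hY₁.trans subset_union_left) hY₂

end Pool.Agent.V1162.TM
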