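import Mathlib
import Pool.Agent.V1162.TM.TD
import Pool.Agent.V1162.TM.Ramsey

/-!
Triangle-free graphs of large treewidth contain paths that are longer than the treewidth by any
given constant: local changes of a path.
-/

set_option autoImplicit false
set_option linter.unusedSectionVars false

namespace Pool.Agent.V1162.TM

open SimpleGraph Finset
open Pool.Agent.W126.Split

variable {V : Type} [Fintype V] [DecidableEq V] {G : SimpleGraph V}

/-- `x` and `y` are joined by a path whose inner vertices lie in `O` -/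
def Lk (G : SimpleGraph V) (O : Finset V) (x y : V) : Prop :=
  ∃ q a b, PB G a b q ∧ (∀ z ∈ q, z ∈ O) ∧ G.Adj x a ∧ G.Adj b y

lemma Lk.symm {O : Finset V} {x y : V} (h : Lk G O x y) : Lk G O y x := by
  obtain ⟨q, a, b, h1, h2, h3, h4⟩ := h
  exact ⟨q.reverse, b, a, h1.reverse, fun z hz => h2 z (List.mem_reverse.1 hz), h4.symm, h3.symm⟩

/-- any two large sets of vertices of `B` are joined by an edge or through `O` -/
def Rich (G : SimpleGraph V) (B O : Finset V) (b : ℕ) : Prop :=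
  ∀ S₁ S₂ : Finset V, S₁ ⊆ B → S₂ ⊆ B → Disjoint S₁ S₂ → b ≤ S₁.card → b ≤ S₂.card →
    ∃ x ∈ S₁, ∃ y ∈ S₂, G.Adj x y ∨ Lk G O x y

/-- no triangles in `S` -/
def TF (G : SimpleGraph V) (S : Finset V) : Prop :=
  ∀ a ∈ S, ∀ b ∈ S, ∀ c ∈ S, G.Adj a b → G.Adj b c → G.Adj a c → False

lemma TF.mono {S S' : Finset V} (h : TF G S) (hS : S' ⊆ S) : TF G S' :=
  fun a ha b hb c hc => h a (hS ha) b (hS hb) c (hS hc)

lemma rich_pair {B O : Finset V} {b : ℕ} (hR : Rich G B O b) {f : ℕ → V} {t : Finset ℕ}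
    (hinj : ∀ i ∈ t, ∀ j ∈ t, f i = f j → i = j) (hf : ∀ i ∈ t, f i ∈ B) (ht : 2 * b ≤ t.card)
    (hna : ∀ i ∈ t, ∀ j ∈ t, i < j → ¬ G.Adj (f i) (f j))
    (hnl : ∀ i ∈ t, ∀ j ∈ t, i < j → ¬ Lk G O (f i) (f j)) : False := by
  obtain ⟨t₁, ht₁, hc₁⟩ := exists_subset_card_eq (show b ≤ t.card by omega)
  have hc₂ : b ≤ (t \ t₁).card := by
    rw [card_sdiff_of_subset ht₁]
    omega
  obtain ⟨x, hx, y, hy, h⟩ := hR (t₁.image f) ((t \ t₁).image f) (by
      intro x hx
      rw [mem_image] at hx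
      obtain ⟨i, hi, rfl⟩ := hx
      exact hf i (ht₁ hi)) (by
      intro x hx
      rw [mem_image] at hx
      obtain ⟨i, hi, rfl⟩ := hx
      exact hf i (mem_sdiff.1 hi).1) (by
      rw [Finset.disjoint_left]
      intro x hx hx'
      rw [mem_image] at hx hx'
      obtain ⟨i, hi, rfl⟩ := hx
      obtain ⟨j, hj, hij⟩ := hx'
      have := hinj j (mem_sdiff.1 hj).1 i (ht₁ hi) hij
      subst this
      exact (mem_sdiff.1 hj).2 hi) (by
      rw [card_image_of_injOn (fun i hi j hj h => hinj i (ht₁ hi) j (ht₁ hj) h), hc₁]) (by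
      rw [card_image_of_injOn (fun i hi j hj h => hinj i (mem_sdiff.1 hi).1 j (mem_sdiff.1 hj).1 h)]
      exact hc₂)
  rw [mem_image] at hx hy
  obtain ⟨i, hi, rfl⟩ := hx
  obtain ⟨j, hj, rfl⟩ := hy
  have hj' := mem_sdiff.1 hj
  have hi' := ht₁ hi
  have hij : i ≠ j := fun h => hj'.2 (h ▸ hi)
  rcases lt_or_gt_of_ne hij with hlt | hlt
  · rcases h with h | h
    · exact hna i hi' j hj'.1 hlt h
    · exact hnl i hi' j hj'.1 hlt h
  · rcases h with h | h
    · exact hna j hj'.1 i hi' hlt h.symm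
    · exact hnl j hj'.1 i hi' hlt h.symm

lemma tf_of_three {S : Finset V} (h : TF G S) {f : ℕ → V} {t : Finset ℕ} (ht : t.card = 3)
    (hf : ∀ i ∈ t, f i ∈ S) (hadj : ∀ i ∈ t, ∀ j ∈ t, i < j → G.Adj (f i) (f j)) : False := by
  rw [card_eq_three] at ht
  obtain ⟨x, y, z, hxy, hxz, hyz, rfl⟩ := ht
  have key : ∀ i ∈ ({x, y, z} : Finset ℕ), ∀ j ∈ ({x, y, z} : Finset ℕ), i ≠ j →
      G.Adj (f i) (f j) := by
    intro i hi j hj hij
    rcases lt_or_gt_of_ne hij with h | h
    · exact hadj i hi j hj h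
    · exact (hadj j hj i hi h).symm
  exact h (f x) (hf x (by simp)) (f y) (hf y (by simp)) (f z) (hf z (by simp))
    (key x (by simp) y (by simp) hxy) (key y (by simp) z (by simp) hyz)
    (key x (by simp) z (by simp) hxz)

/-- selection of two positions -/
theorem select (b : ℕ) : ∃ N : ℕ, 0 < N ∧ ∀ (V : Type) [Fintype V] [DecidableEq V] (G : SimpleGraph V)
    (B O : Finset V), Rich G B O b → TF G B → ∀ f g : ℕ → V,
    (∀ i < N, ∀ j < N, f i = f j → i = j) → (∀ i < N, ∀ j < N, g i = g j → i = j) →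
    (∀ i < N, f i ∈ B) → (∀ i < N, g i ∈ B) →
    ∃ i j, i < j ∧ j < N ∧ Lk G O (f i) (f j) ∧ Lk G O (g i) (g j) := by
  classical
  obtain ⟨N₃, h₃⟩ := ramsey (2 * b) (2 * b)
  obtain ⟨N₂, h₂⟩ := ramsey 3 N₃
  obtain ⟨N₁, h₁⟩ := ramsey 3 N₂
  refine ⟨N₁ + 1, Nat.succ_pos _, ?_⟩
  intro V _ _ G B O hR hT f g hf₀ hg₀ hfB₀ hgB₀
  have hf : ∀ i < N₁, ∀ j < N₁, f i = f j → i = j := fun i hi j hj => hf₀ i (by omega) j (by omega)
  have hg : ∀ i < N₁, ∀ j < N₁, g i = g j → i = j := fun i hi j hj => hg₀ i (by omega) j (by omega)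
  have hfB : ∀ i < N₁, f i ∈ B := fun i hi => hfB₀ i (by omega)
  have hgB : ∀ i < N₁, g i ∈ B := fun i hi => hgB₀ i (by omega)
  by_contra hcon₀
  push Not at hcon₀
  have hcon : ∀ i j, i < j → j < N₁ → Lk G O (f i) (f j) → ¬ Lk G O (g i) (g j) :=
    fun i j h h' => hcon₀ i j h (by omega)
  rcases h₁ (fun i j => G.Adj (f i) (f j)) (range N₁) (by simp) with ⟨t, ht, hc, hr⟩ | ⟨t₁, ht₁, hc₁, hr₁⟩
  · exact tf_of_three hT hc (fun i hi => hfB i (mem_range.1 (ht hi))) hr
  rcases h₂ (fun i j => G.Adj (g i) (g j)) t₁ hc₁.ge with ⟨t, ht, hc, hr⟩ | ⟨t₂, ht₂, hc₂, hr₂⟩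
  · exact tf_of_three hT hc (fun i hi => hgB i (mem_range.1 (ht₁ (ht hi)))) hr
  rcases h₃ (fun i j => Lk G O (f i) (f j)) t₂ hc₂.ge with ⟨t, ht, hc, hr⟩ | ⟨t, ht, hc, hr⟩
  · have hlt : ∀ i ∈ t, i < N₁ := fun i hi => mem_range.1 (ht₁ (ht₂ (ht hi)))
    refine rich_pair hR (f := g) (t := t) (fun i hi j hj => hg i (hlt i hi) j (hlt j hj))
      (fun i hi => hgB i (hlt i hi)) hc.ge (fun i hi j hj => hr₂ i (ht hi) j (ht hj)) ?_
    intro i hi j hj hij h
    exact hcon i j hij (hlt j hj) (hr i hi j hj hij) h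
  · have hlt : ∀ i ∈ t, i < N₁ := fun i hi => mem_range.1 (ht₁ (ht₂ (ht hi)))
    exact rich_pair hR (f := f) (t := t) (fun i hi j hj => hf i (hlt i hi) j (hlt j hj))
      (fun i hi => hfB i (hlt i hi)) hc.ge
      (fun i hi j hj => hr₁ i (ht₂ (ht hi)) j (ht₂ (ht hj))) hr

lemma split4 (B : List V) (p q : ℕ) (hpq : p + 1 < q) (hq : q + 1 < B.length) :
    ∃ B₁ B₂ B₃, B = B₁ ++ B[p] :: B[p + 1] :: (B₂ ++ B[q] :: B[q + 1] :: B₃) := by
  have e1 : B = B.take p ++ B.drop p := (List.take_append_drop _ _).symm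
  have e2 : B.drop p = B[p] :: B.drop (p + 1) := List.drop_eq_getElem_cons (by omega)
  have e3 : B.drop (p + 1) = B[p + 1] :: B.drop (p + 2) := List.drop_eq_getElem_cons (by omega)
  have e4 : B.drop (p + 2) = (B.drop (p + 2)).take (q - (p + 2)) ++ B.drop q := by
    have := (List.take_append_drop (q - (p + 2)) (B.drop (p + 2))).symm
    rw [List.drop_drop] at this
    have e : p + 2 + (q - (p + 2)) = q := by omega
    rw [e] at this
    exact this
  have e5 : B.drop q = B[q] :: B.drop (q + 1) := List.drop_eq_getElem_cons (by omega)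
  have e6 : B.drop (q + 1) = B[q + 1] :: B.drop (q + 2) := List.drop_eq_getElem_cons (by omega)
  refine ⟨B.take p, (B.drop (p + 2)).take (q - (p + 2)), B.drop (q + 2), ?_⟩
  rw [← e6, ← e5, ← e4, ← e3, ← e2, ← e1]

/-- lengthening a path by connectors -/
lemma lengthen {O : Finset V} {D : ℕ} (hO : ∀ l, PL G l → (∀ x ∈ l, x ∈ O) → l.length ≤ D)
    {B₁ B₂ B₃ : List V} {x x' y y' : V} {B : List V} (hB : B = B₁ ++ x :: x' :: (B₂ ++ y :: y' :: B₃))
    (hpl : PL G B) (hBO : ∀ z ∈ B, z ∉ O) (h : Lk G O x y) (h' : Lk G O x' y') :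
    ∃ B', PL G B' ∧ B'.head? = B.head? ∧ B'.getLast? = B.getLast? ∧ B.length + 1 ≤ B'.length ∧
      ∃ Q : Finset V, Q ⊆ O ∧ Q.card ≤ 2 * D ∧ ∀ z ∈ B', z ∈ B ∨ z ∈ Q := by
  obtain ⟨q, a, b, hq, hqO, hxa, hby⟩ := h
  obtain ⟨q', a', b', hq', hqO', hxa', hby'⟩ := h'
  -- the parts
  have hP : PL G ((B₁ ++ [x]) ++ ((x' :: B₂ ++ [y]) ++ (y' :: B₃))) := by
    have e : (B₁ ++ [x]) ++ ((x' :: B₂ ++ [y]) ++ (y' :: B₃)) = B := by rw [hB]; simp
    rw [e]; exact hpl
  have hne₁ : B₁ ++ [x] ≠ [] := by simp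
  have hL₁ : ∃ u, PB G u x (B₁ ++ [x]) := by
    obtain ⟨u, v, huv⟩ := hP.left.exists_pb hne₁
    have h1 := huv.2.2
    simp only [List.getLast?_append, List.getLast?_singleton, Option.some_or,
      Option.some.injEq] at h1
    subst h1
    exact ⟨u, huv⟩
  obtain ⟨u, hu⟩ := hL₁
  have hM : PB G x' y (x' :: B₂ ++ [y]) := by
    refine ⟨hP.right.left, rfl, ?_⟩
    rw [List.getLast?_append]
    simp
  have hL₃ : ∃ v, PB G y' v (y' :: B₃) := by
    obtain ⟨u, v, huv⟩ := hP.right.right.exists_pb (by simp)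
    have h1 := huv.2.1
    simp only [List.head?_cons, Option.some.injEq] at h1
    subst h1
    exact ⟨v, huv⟩
  obtain ⟨v, hv⟩ := hL₃
  have hhead : B.head? = some u := by
    have h1 := hu.2.1
    rw [hB]
    cases B₁ with
    | nil => simpa using h1
    | cons c t => simpa using h1
  have hlast : B.getLast? = some v := by
    have h1 := hv.2.2
    have e : B = ((B₁ ++ [x]) ++ (x' :: B₂ ++ [y])) ++ (y' :: B₃) := by rw [hB]; simp
    rw [e, List.getLast?_append, h1]
    rfl
  have hdis1 : ∀ z ∈ B₁ ++ [x], z ∉ (x' :: B₂ ++ [y]) ∧ z ∉ y' :: B₃ := by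
    intro z hz
    have := hP.disj z hz
    rw [List.mem_append] at this
    push Not at this
    exact this
  have hdis2 : ∀ z ∈ x' :: B₂ ++ [y], z ∉ y' :: B₃ := hP.right.disj
  have hmem : ∀ z, z ∈ B ↔ z ∈ B₁ ++ [x] ∨ z ∈ x' :: B₂ ++ [y] ∨ z ∈ y' :: B₃ := by
    intro z
    rw [hB]
    simp only [List.mem_append, List.mem_cons, List.not_mem_nil, or_false]
    tauto
  have hlen : B.length = (B₁ ++ [x]).length + ((x' :: B₂ ++ [y]).length + (y' :: B₃).length) := by
    rw [hB]
    simp only [List.length_append, List.length_cons, List.length_nil]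
    omega
  have hBq : ∀ z ∈ q, z ∉ B := fun z hz hz' => hBO z hz' (hqO z hz)
  have hBq' : ∀ z ∈ q', z ∉ B := fun z hz hz' => hBO z hz' (hqO' z hz)
  have hqlen : 1 ≤ q.length := List.length_pos_iff.2 hq.ne_nil
  by_cases hm : ∃ z ∈ q, z ∈ q'
  · -- a detour
    obtain ⟨l, hl, hlq⟩ := meet hq hq' hm
    have hlO : ∀ z ∈ l, z ∈ O := fun z hz => by
      rcases hlq z hz with h | h
      · exact hqO z h
      · exact hqO' z h
    have hlB : ∀ z ∈ l, z ∉ B := fun z hz hz' => hBO z hz' (hlO z hz)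
    have h1 : PB G x' v ((x' :: B₂ ++ [y]) ++ (y' :: B₃)) := by
      refine ⟨hP.right, rfl, ?_⟩
      rw [List.getLast?_append, hv.2.2]
      rfl
    have h2 : PB G a v (l ++ ((x' :: B₂ ++ [y]) ++ (y' :: B₃))) := by
      refine hl.append h1 ?_ hxa'.symm
      intro z hz hz'
      rw [List.mem_append] at hz'
      exact hlB z hz ((hmem z).2 (Or.inr hz'))
    have h3 : PB G u v ((B₁ ++ [x]) ++ (l ++ ((x' :: B₂ ++ [y]) ++ (y' :: B₃)))) := by
      refine hu.append h2 ?_ hxa
      intro z hz hz'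
      rw [List.mem_append, List.mem_append] at hz'
      rcases hz' with hz' | hz' | hz'
      · exact hlB z hz' ((hmem z).2 (Or.inl hz))
      · exact (hdis1 z hz).1 hz'
      · exact (hdis1 z hz).2 hz'
    refine ⟨_, h3.1, h3.2.1.trans hhead.symm, h3.2.2.trans hlast.symm, ?_, l.toFinset, ?_, ?_, ?_⟩
    · have : 1 ≤ l.length := List.length_pos_iff.2 hl.ne_nil
      rw [hlen]
      simp only [List.length_append] at this ⊢
      omega
    · intro z hz
      exact hlO z (List.mem_toFinset.1 hz)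
    · have := hO l hl.1 hlO
      have h4 := List.toFinset_card_le l
      omega
    · intro z hz
      rw [hmem, List.mem_toFinset]
      simp only [List.mem_append] at hz ⊢
      tauto
  · push Not at hm
    have hMr := hM.reverse
    have h1 : PB G a' v (q' ++ (y' :: B₃)) := by
      refine hq'.append hv ?_ hby'
      intro z hz hz'
      exact hBq' z hz ((hmem z).2 (Or.inr (Or.inr hz')))
    have h2 : PB G y v ((x' :: B₂ ++ [y]).reverse ++ (q' ++ (y' :: B₃))) := by
      refine hMr.append h1 ?_ hxa'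
      intro z hz hz'
      rw [List.mem_reverse] at hz
      rw [List.mem_append] at hz'
      rcases hz' with hz' | hz'
      · exact hBq' z hz' ((hmem z).2 (Or.inr (Or.inl hz)))
      · exact hdis2 z hz hz'
    have h3 : PB G a v (q ++ ((x' :: B₂ ++ [y]).reverse ++ (q' ++ (y' :: B₃)))) := by
      refine hq.append h2 ?_ hby
      intro z hz hz'
      rw [List.mem_append, List.mem_append, List.mem_reverse] at hz'
      rcases hz' with hz' | hz' | hz'
      · exact hBq z hz ((hmem z).2 (Or.inr (Or.inl hz')))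
      · exact hm z hz hz'
      · exact hBq z hz ((hmem z).2 (Or.inr (Or.inr hz')))
    have h4 : PB G u v ((B₁ ++ [x]) ++ (q ++ ((x' :: B₂ ++ [y]).reverse ++ (q' ++ (y' :: B₃))))) := by
      refine hu.append h3 ?_ hxa
      intro z hz hz'
      rw [List.mem_append, List.mem_append, List.mem_append, List.mem_reverse] at hz'
      rcases hz' with hz' | hz' | hz' | hz'
      · exact hBq z hz' ((hmem z).2 (Or.inl hz))
      · exact (hdis1 z hz).1 hz'
      · exact hBq' z hz' ((hmem z).2 (Or.inl hz))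
      · exact (hdis1 z hz).2 hz'
    refine ⟨_, h4.1, h4.2.1.trans hhead.symm, h4.2.2.trans hlast.symm, ?_,
      q.toFinset ∪ q'.toFinset, ?_, ?_, ?_⟩
    · rw [hlen]
      simp only [List.length_append, List.length_reverse] at hqlen ⊢
      omega
    · intro z hz
      rw [mem_union, List.mem_toFinset, List.mem_toFinset] at hz
      rcases hz with hz | hz
      · exact hqO z hz
      · exact hqO' z hz
    · have e1 := hO q hq.1 hqO
      have e2 := hO q' hq'.1 hqO'
      have e3 := List.toFinset_card_le q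
      have e4 := List.toFinset_card_le q'
      have e5 := card_union_le q.toFinset q'.toFinset
      omega
    · intro z hz
      rw [hmem, mem_union, List.mem_toFinset, List.mem_toFinset]
      simp only [List.mem_append, List.mem_reverse] at hz ⊢
      tauto

/-- repeated lengthening -/
lemma iter {A O : Finset V} {D μ N : ℕ} (hN : 0 < N) (hAO : Disjoint A O)
    (hO : ∀ l, PL G l → (∀ x ∈ l, x ∈ O) → l.length ≤ D)
    (hsel : ∀ B ⊆ A, ∀ U ⊆ O, U.card ≤ μ → ∀ f g : ℕ → V,
      (∀ i < N, ∀ j < N, f i = f j → i = j) → (∀ i < N, ∀ j < N, g i = g j → i = j) →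
      (∀ i < N, f i ∈ B) → (∀ i < N, g i ∈ B) →
      ∃ i j, i < j ∧ j < N ∧ Lk G (O \ U) (f i) (f j) ∧ Lk G (O \ U) (g i) (g j)) :
    ∀ (j : ℕ) (E : List V) (U : Finset V), PL G E → (∀ x ∈ E, x ∈ A) → j * (2 * N) ≤ E.length →
      U ⊆ O → U.card + 2 * D * j ≤ μ →
      ∃ E', PL G E' ∧ E'.head? = E.head? ∧ E'.getLast? = E.getLast? ∧
        (∀ x ∈ E', x ∈ E ∨ x ∈ O \ U) ∧ E.length + j ≤ E'.length := by
  intro j
  induction j with
  | zero =>
    intro E U hE _ _ _ _
    exact ⟨E, hE, rfl, rfl, fun x hx => Or.inl hx, by omega⟩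
  | succ j ih =>
    intro E U hE hEA hlen hU hcard
    have e1 : (j + 1) * (2 * N) = j * (2 * N) + 2 * N := by ring
    have e2 : 2 * D * (j + 1) = 2 * D * j + 2 * D := by ring
    rw [e1] at hlen
    rw [e2] at hcard
    obtain ⟨B, R, hEBR, hBlen⟩ : ∃ B R, E = B ++ R ∧ B.length = 2 * N :=
      ⟨E.take (2 * N), E.drop (2 * N), (List.take_append_drop _ _).symm, by
        rw [List.length_take]; omega⟩
    have hRlen : R.length + 2 * N = E.length := by rw [hEBR, List.length_append]; omega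
    have hE2 := hE
    rw [hEBR] at hE2
    have hBA : ∀ x ∈ B, x ∈ A := fun x hx => hEA x (by rw [hEBR]; exact List.mem_append_left _ hx)
    have hRA : ∀ x ∈ R, x ∈ A := fun x hx => hEA x (by rw [hEBR]; exact List.mem_append_right _ hx)
    -- selection
    have hg : ∀ i, i < N → 2 * i + 1 < B.length := fun i hi => by omega
    have hf : ∀ i, i < N → 2 * i < B.length := fun i hi => by omega
    obtain ⟨v₀, -⟩ : ∃ v₀, v₀ ∈ B := by
      cases B with
      | nil => simp at hBlen; omega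
      | cons a t => exact ⟨a, by simp⟩
    have hBn := hE2.left.2
    obtain ⟨i, i', h1, h2, h3, h4⟩ := hsel B.toFinset (fun x hx => hBA x (List.mem_toFinset.1 hx)) U hU
      (by omega) (fun i => B.getD (2 * i) v₀) (fun i => B.getD (2 * i + 1) v₀) (by
        intro i hi j hj h
        simp only [List.getD_eq_getElem _ _ (hf i hi), List.getD_eq_getElem _ _ (hf j hj)] at h
        have := hBn.getElem_inj_iff.1 h
        omega) (by
        intro i hi j hj h
        simp only [List.getD_eq_getElem _ _ (hg i hi), List.getD_eq_getElem _ _ (hg j hj)] at h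
        have := hBn.getElem_inj_iff.1 h
        omega) (by
        intro i hi
        simp only [List.getD_eq_getElem _ _ (hf i hi), List.mem_toFinset]
        exact List.getElem_mem _) (by
        intro i hi
        simp only [List.getD_eq_getElem _ _ (hg i hi), List.mem_toFinset]
        exact List.getElem_mem _)
    have hiN : i < N := h1.trans h2
    simp only [List.getD_eq_getElem _ _ (hf i hiN), List.getD_eq_getElem _ _ (hf i' h2),
      List.getD_eq_getElem _ _ (hg i hiN), List.getD_eq_getElem _ _ (hg i' h2)] at h3 h4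
    obtain ⟨B₁, B₂, B₃, hBB⟩ := split4 B (2 * i) (2 * i') (by omega) (hg i' h2)
    have hOU : O \ U ⊆ O := sdiff_subset
    obtain ⟨B', g1, g2, g3, g4, Q, g5, g6, g7⟩ := lengthen (O := O \ U) (D := D)
      (fun l hl hlO => hO l hl fun x hx => hOU (hlO x hx)) hBB hE2.left
      (fun z hz hz' => Finset.disjoint_left.1 hAO (hBA z hz) (hOU hz')) h3 h4
    have hQU : (U ∪ Q).card ≤ U.card + Q.card := card_union_le _ _
    obtain ⟨R', k1, k2, k3, k4, k5⟩ := ih R (U ∪ Q) hE2.right hRA (by omega)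
      (union_subset hU (g5.trans hOU)) (by omega)
    refine ⟨B' ++ R', ?_, ?_, ?_, ?_, ?_⟩
    · refine g1.append k1 ?_ ?_
      · intro x hx hx'
        rcases g7 x hx with h | h
        · rcases k4 x hx' with h' | h'
          · exact hE2.disj x h h'
          · exact Finset.disjoint_left.1 hAO (hBA x h) (mem_sdiff.1 h').1
        · rcases k4 x hx' with h' | h'
          · exact Finset.disjoint_left.1 hAO (hRA x h') (hOU (g5 h))
          · exact (mem_sdiff.1 h').2 (mem_union_right _ h)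
      · rw [g3, k2]
        exact (List.isChain_append.1 hE2.1).2.2
    · rw [hEBR, List.head?_append, List.head?_append, g2, k2]
    · rw [hEBR, List.getLast?_append, List.getLast?_append, g3, k3]
    · intro x hx
      rw [List.mem_append] at hx
      rw [hEBR, List.mem_append]
      rcases hx with hx | hx
      · rcases g7 x hx with h | h
        · exact Or.inl (Or.inl h)
        · exact Or.inr (g5 h)
      · rcases k4 x hx with h | h
        · exact Or.inl (Or.inr h)
        · rw [mem_sdiff, mem_union] at h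
          push Not at h
          exact Or.inr (mem_sdiff.2 ⟨h.1, h.2.1⟩)
    · rw [List.length_append]
      omega

end Pool.Agent.V1162.TM
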