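import Mathlib
import Pool.Agent.V1162.TM.Gain

/-!
Triangle-free graphs of large treewidth contain paths that are longer than the treewidth by any
given constant.
-/

set_option autoImplicit false
set_option linter.unusedSectionVars false

namespace Pool.Agent.V1162.TM

open SimpleGraph Finset
open Pool.Agent.W126.Split

variable {V : Type} [Fintype V] [DecidableEq V] {G : SimpleGraph V}

lemma exists_edge_out {S T : Finset V} (hS : Conn G S) (hT : T ⊆ S) (hne : T.Nonempty)
    (hv : ∃ v ∈ S, v ∉ T) : ∃ r ∈ T, ∃ v ∈ S, v ∉ T ∧ G.Adj r v := by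
  obtain ⟨t, ht⟩ := hne
  obtain ⟨v, hvS, hvT⟩ := hv
  obtain ⟨l, hl, hlS⟩ := conn_pb hS (hT ht) hvS
  obtain ⟨l₁, y, l₂, h1, h2, h3⟩ := split_first (fun x => x ∉ T) l ⟨v, hl.last_mem, hvT⟩
  push Not at h3
  have hl' := hl.1
  rw [h1] at hl'
  have hne : l₁ ≠ [] := by
    rintro rfl
    have h4 := hl.2.1
    rw [h1] at h4
    simp only [List.nil_append, List.head?_cons, Option.some.injEq] at h4
    subst h4
    exact h2 ht
  refine ⟨l₁.getLast hne, h3 _ (List.getLast_mem hne), y,
    hlS y (by rw [h1]; simp), h2, ?_⟩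
  have h5 := (List.isChain_append.1 hl'.1).2.2
  exact h5 _ (by rw [List.getLast?_eq_some_getLast hne]; simp) y (by simp)

/-- a path with a hub, and short paths outside -/
theorem hub {S : Finset V} {w K : ℕ} (hw : 1 ≤ w) (hne : ¬ P G w ∅ S)
    (hshort : ∀ l, PL G l → (∀ x ∈ l, x ∈ S) → l.length < w + K) :
    ∃ (S' : Finset V) (A : List V), S' ⊆ S ∧ ¬ P G w ∅ S' ∧ PL G A ∧ (∀ x ∈ A, x ∈ S') ∧
      w ≤ A.length ∧
      ∀ p, PL G p → (∀ x ∈ p, x ∈ S' \ A.toFinset) → p.length ≤ 2 * K := by
  obtain ⟨S', hS'S, ⟨r, hr⟩, hconn, -, hnp⟩ := exists_compP (by simp) _ hne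
  obtain ⟨l, C, h, hcard⟩ := robber hconn hr hw le_rfl hnp
  obtain ⟨a, ha, c₀, hc₀, hac₀⟩ := h.head
  have hane : a ∈ l := List.mem_of_mem_head? (by rw [ha]; simp)
  obtain ⟨l₁, y, l₂, h1, ⟨c₁, hc₁, hyc₁⟩, h3⟩ := split_last (fun x => ∃ c ∈ C, G.Adj x c) l
    ⟨a, hane, c₀, hc₀, hac₀⟩
  set A := l₁ ++ [y] with hA
  have hlA : l = A ++ l₂ := by rw [h1, hA]; simp
  have hpl : PL G (A ++ l₂) := by rw [← hlA]; exact h.pl
  have hAy : A.getLast? = some y := by rw [hA, List.getLast?_append]; simp
  have hAa : A.head? = some a := by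
    rw [hlA, List.head?_append] at ha
    cases hA' : A with
    | nil => rw [hA'] at hAy; simp at hAy
    | cons b t => rw [hA'] at ha; simpa using ha
  have hAPB : PB G a y A := ⟨hpl.left, hAa, hAy⟩
  have hAS : ∀ x ∈ A, x ∈ S' := fun x hx => h.sub x (by rw [hlA]; exact List.mem_append_left _ hx)
  have hAlen : w ≤ A.length := by
    have h4 : att G l C ⊆ A.toFinset := by
      intro x hx
      rw [mem_att, hlA, List.mem_append] at hx
      rw [List.mem_toFinset]
      rcases hx.1 with h5 | h5
      · exact h5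
      · exact absurd hx.2 (h3 x h5)
    have h5 := card_le_card h4
    have h6 := List.toFinset_card_le A
    omega
  refine ⟨S', A, hS'S, hnp, hpl.left, hAS, hAlen, ?_⟩
  intro p hp hpO
  by_contra hlong
  push Not at hlong
  have hCA : ∀ x ∈ A, x ∉ C := fun x hx => h.disj x (by rw [hlA]; exact List.mem_append_left _ hx)
  have hCcl : Closed G (S' \ A.toFinset) C := by
    refine ⟨?_, ?_⟩
    · intro x hx
      rw [mem_sdiff, List.mem_toFinset]
      exact ⟨h.cS hx, fun h' => hCA x h' hx⟩
    · intro u hu v hv huv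
      rw [mem_sdiff, List.mem_toFinset] at hv
      rcases h.cl u hu v hv.1 huv with h4 | h4
      · exact h4
      · exfalso
        rw [hlA, List.mem_append] at h4
        rcases h4 with h4 | h4
        · exact hv.2 h4
        · exact h3 v h4 ⟨u, hu, huv.symm⟩
  have hpne : p ≠ [] := by rintro rfl; simp at hlong
  by_cases hm : ∃ x ∈ p, x ∈ C
  · obtain ⟨x, hx, hxC⟩ := hm
    have hpC := closed_chain hCcl hp.1 hpO hx hxC
    obtain ⟨q, hq, hqC, hqh, hql⟩ := half h.conn hc₀ hp hpC hpne
    have hqne : q ≠ [] := by rintro rfl; simp at hqh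
    obtain ⟨u, v, huv⟩ := hq.exists_pb hqne
    have hu : u = c₀ := by
      have := huv.2.1
      rw [hqh] at this
      exact (Option.some.inj this).symm
    subst hu
    have h4 : PB G v y (q.reverse ++ A) := by
      refine huv.reverse.append hAPB ?_ hac₀.symm
      intro z hz hz'
      exact hCA z hz' (hqC z (List.mem_reverse.1 hz))
    have h5 := hshort _ h4.1 (by
      intro z hz
      rw [List.mem_append, List.mem_reverse] at hz
      rcases hz with hz | hz
      · exact hS'S (h.cS (hqC z hz))
      · exact hS'S (hAS z hz))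
    rw [List.length_append, List.length_reverse] at h5
    omega
  · push Not at hm
    obtain ⟨u, v, huv⟩ := hp.exists_pb hpne
    set O := S' \ A.toFinset with hO
    have huO : u ∈ O := hpO u huv.head_mem
    set T := comp G O u with hT
    have hTconn : Conn G T := conn_comp O u
    have hTcl : Closed G O T := closed_comp O u
    have hTS : T ⊆ S' := hTcl.1.trans sdiff_subset
    have hpT : ∀ x ∈ p, x ∈ T := closed_chain hTcl hp.1 hpO huv.head_mem (mem_comp_self huO)
    have hTC : ∀ x ∈ T, x ∉ C := by
      intro x hx hxC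
      obtain ⟨q, hq, hqT⟩ := conn_pb hTconn hx (mem_comp_self huO)
      exact hm u huv.head_mem (closed_chain hCcl hq.1.1 (fun z hz => hTcl.1 (hqT z hz))
        hq.head_mem hxC u hq.last_mem)
    obtain ⟨r', hr', v', hv'S, hv'T, hrv⟩ := exists_edge_out hconn hTS ⟨u, mem_comp_self huO⟩
      ⟨a, hAS a hAPB.head_mem, fun h' => (mem_sdiff.1 (hTcl.1 h')).2
        (List.mem_toFinset.2 hAPB.head_mem)⟩
    have hv'A : v' ∈ A := by
      by_contra hno
      exact hv'T (hTcl.2 r' hr' v' (mem_sdiff.2 ⟨hv'S, fun h' => hno (List.mem_toFinset.1 h')⟩) hrv)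
    obtain ⟨q, hq, hqT, hqh, hql⟩ := half hTconn hr' hp hpT hpne
    have hqne : q ≠ [] := by rintro rfl; simp at hqh
    obtain ⟨s, e, hse⟩ := hq.exists_pb hqne
    have hs : s = r' := by
      have := hse.2.1
      rw [hqh] at this
      exact (Option.some.inj this).symm
    subst hs
    obtain ⟨zp, hzp, hzpC⟩ := conn_pb h.conn hc₀ hc₁
    obtain ⟨A₁, A₂, hAA⟩ := List.append_of_mem hv'A
    have hAsplit : A = (A₁ ++ [v']) ++ A₂ := by rw [hAA]; simp
    have hplA : PL G ((A₁ ++ [v']) ++ A₂) := by rw [← hAsplit]; exact hpl.left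
    have hM : PB G a v' (A₁ ++ [v']) := by
      refine ⟨hplA.left, ?_, ?_⟩
      · rw [hAA] at hAa
        cases A₁ with
        | nil => simpa using hAa
        | cons b t => simpa using hAa
      · rw [List.getLast?_append]; simp
    -- `A₂` reversed
    have hA2 : ∀ z ∈ A₂.reverse.head?, z = y := by
      intro z hz
      rw [List.head?_reverse, Option.mem_def] at hz
      rw [hAsplit, List.getLast?_append, hz] at hAy
      simpa using hAy
    have h4 : PL G (zp ++ A₂.reverse) := by
      refine hzp.1.append hplA.right.reverse ?_ ?_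
      · intro z hz hz'
        exact hCA z (by rw [hAsplit]; exact List.mem_append_right _ (List.mem_reverse.1 hz')) (hzpC z hz)
      · intro x hx z hz
        rw [hzp.2.2] at hx
        simp only [Option.mem_some_iff] at hx
        subst hx
        rw [hA2 z hz]
        exact hyc₁.symm
    have h5 : PL G ((A₁ ++ [v']).reverse ++ (zp ++ A₂.reverse)) := by
      refine hM.reverse.1.append h4 ?_ ?_
      · intro z hz hz'
        rw [List.mem_reverse] at hz
        rw [List.mem_append, List.mem_reverse] at hz'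
        rcases hz' with hz' | hz'
        · exact hCA z (by rw [hAsplit]; exact List.mem_append_left _ hz) (hzpC z hz')
        · exact hplA.disj z hz hz'
      · intro x hx z hz
        rw [hM.reverse.2.2] at hx
        rw [List.head?_append, hzp.2.1] at hz
        simp only [Option.mem_some_iff, Option.some_or] at hx hz
        subst hx; subst hz
        exact hac₀
    have h6 : PL G (q.reverse ++ ((A₁ ++ [v']).reverse ++ (zp ++ A₂.reverse))) := by
      refine hse.reverse.1.append h5 ?_ ?_
      · intro z hz hz'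
        rw [List.mem_reverse] at hz
        have hzO := (mem_sdiff.1 (hTcl.1 (hqT z hz))).2
        rw [List.mem_toFinset] at hzO
        rw [List.mem_append, List.mem_append, List.mem_reverse, List.mem_reverse] at hz'
        rcases hz' with hz' | hz' | hz'
        · exact hzO (by rw [hAsplit]; exact List.mem_append_left _ hz')
        · exact hTC z (hqT z hz) (hzpC z hz')
        · exact hzO (by rw [hAsplit]; exact List.mem_append_right _ hz')
      · intro x hx z hz
        rw [hse.reverse.2.2] at hx
        rw [List.head?_append, hM.reverse.2.1] at hz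
        simp only [Option.mem_some_iff, Option.some_or] at hx hz
        subst hx; subst hz
        exact hrv
    have h7 := hshort _ h6 (by
      intro z hz
      simp only [List.mem_append, List.mem_reverse, List.mem_singleton] at hz
      rcases hz with hz | (hz | hz) | hz | hz
      · exact hS'S (hTS (hqT z hz))
      · exact hS'S (hAS z (by rw [hAA]; simp [hz]))
      · exact hS'S (hAS z (by rw [hAA]; simp [hz]))
      · exact hS'S (h.cS (hzpC z hz))
      · exact hS'S (hAS z (by rw [hAA]; simp [hz])))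
    have h8 : A.length = A₁.length + 1 + A₂.length := by rw [hAsplit]; simp; omega
    simp only [List.length_append, List.length_reverse, List.length_singleton] at h7
    omega

/-- the gain theorem -/
theorem gain (K : ℕ) : ∃ w₀ : ℕ, 0 < w₀ ∧ ∀ (V : Type) [Fintype V] [DecidableEq V]
    (G : SimpleGraph V) (S : Finset V) (w : ℕ), w₀ ≤ w → TF G S → ¬ P G w ∅ S →
    ∃ l, PL G l ∧ (∀ x ∈ l, x ∈ S) ∧ w + K ≤ l.length := by
  set D := 2 * K with hD
  set μ := 2 * D * K with hμ
  set b := μ + K + D with hb
  obtain ⟨N, hN, hsel⟩ := select b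
  refine ⟨K * (2 * N) + 1, by omega, ?_⟩
  intro V _ _ G S w hw hTF hnp
  by_contra hcon
  push Not at hcon
  have hshort : ∀ l, PL G l → (∀ x ∈ l, x ∈ S) → l.length < w + K := fun l h1 h2 => hcon l h1 h2
  obtain ⟨S', A, hS'S, hnp', hA, hAS, hAlen, hO⟩ := hub (by omega) hnp hshort
  have hAcard : A.toFinset.card = A.length := List.toFinset_card_of_nodup hA.2
  have hAlt := hshort A hA (fun x hx => hS'S (hAS x hx))
  have hAS' : A.toFinset ⊆ S' := fun x hx => hAS x (List.mem_toFinset.1 hx)
  obtain ⟨E', h1, -, -, h4, h5⟩ := iter (A := A.toFinset) (O := S' \ A.toFinset) (D := D) (μ := μ)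
    (N := N) hN disjoint_sdiff (fun l hl hlO => hO l hl hlO) (by
      intro B hB U hU hUc f g
      apply hsel V G B ((S' \ A.toFinset) \ U) ?_ (hTF.mono (hB.trans (hAS'.trans hS'S)))
      intro S₁ S₂ hS₁ hS₂ hd hc₁ hc₂
      obtain ⟨x, hx, y, hy, h⟩ := key (w := w) (D := D) hAS' hU (hS₁.trans hB) (hS₂.trans hB) hd
        (fun l hl hlO => hO l hl hlO) hnp' (by omega) (by omega)
      refine ⟨x, hx, y, hy, ?_⟩
      rcases h with h | ⟨q, a', b', h1, h2, h3, h4⟩
      · exact Or.inl h
      · exact Or.inr ⟨q, a', b', h1, h2, h3, h4⟩) K A ∅ hA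
    (fun x hx => List.mem_toFinset.2 hx) (by omega) (empty_subset _) (by rw [card_empty]; omega)
  have h6 := hshort E' h1 (by
    intro x hx
    rcases h4 x hx with h | h
    · exact hS'S (hAS x h)
    · exact hS'S (mem_sdiff.1 (mem_sdiff.1 h).1).1)
  omega

end Pool.Agent.V1162.TM
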