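import Mathlib
import Pool.Agent.V1162.TM.EP2
import Pool.Agent.V1162.TM.Gain2

/-!
Graphs of large treewidth contain a long path and many cycles, all of them disjoint.
-/

set_option autoImplicit false
set_option linter.unusedSectionVars false

namespace Pool.Agent.V1162.TM

open SimpleGraph Finset
open Pool.Agent.W126.Split

variable {V : Type} [Fintype V] [DecidableEq V] {G : SimpleGraph V}

/-- a path with at least `n` vertices and `t` cycles in `S`, all disjoint -/
def PC (G : SimpleGraph V) (S : Finset V) (n t : ℕ) : Prop :=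
  ∃ l, PL G l ∧ (∀ x ∈ l, x ∈ S) ∧ n ≤ l.length ∧ ∃ S', S' ⊆ S ∧ (∀ x ∈ l, x ∉ S') ∧ NC G t S'

lemma PC.mono {S S₂ : Finset V} {n n₂ t : ℕ} (h : PC G S n t) (hS : S ⊆ S₂) (hn : n₂ ≤ n) :
    PC G S₂ n₂ t := by
  obtain ⟨l, h1, h2, h3, S', h4, h5, h6⟩ := h
  exact ⟨l, h1, fun x hx => hS (h2 x hx), hn.trans h3, S', h4.trans hS, h5, h6⟩

/-- adding a cycle -/
lemma PC.cons {S Y : Finset V} {n t : ℕ} (h : PC G (S \ Y) n t) {l : List V} (hl : CycL G l)
    (hlY : ∀ x ∈ l, x ∈ Y) (hY : Y ⊆ S) : PC G S n (t + 1) := by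
  obtain ⟨p, h1, h2, h3, S', h4, h5, h6⟩ := h
  refine ⟨p, h1, fun x hx => (mem_sdiff.1 (h2 x hx)).1, h3, S' ∪ Y, union_subset
    (h4.trans sdiff_subset) hY, ?_, h6.cons hl (fun x hx => mem_union_right _ (hlY x hx))
    subset_union_left (fun x hx hx' => (mem_sdiff.1 (h4 hx')).2 (hlY x hx))⟩
  intro x hx hx'
  rcases mem_union.1 hx' with h | h
  · exact h5 x hx h
  · exact (mem_sdiff.1 (h2 x hx)).2 h

/-- the case of large girth -/
lemma large_girth {S : Finset V} {w k K t : ℕ} (hw : k + 1 ≤ w)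
    (hEP : ∀ C : Finset V, ¬ P G k ∅ C → NC G (t + 1) C)
    (hg : ∀ l, CycL G l → (∀ x ∈ l, x ∈ S) → k + K ≤ l.length) (h : ¬ P G w ∅ S) :
    PC G S (w + K) t := by
  obtain ⟨K₀, hK1, ⟨r, hr⟩, hK2, hK3, hK4⟩ := exists_compP (by simp) _ h
  obtain ⟨l, C, hRS, hatt⟩ := robber (s := w - k) hK2 hr (by omega) (by omega) hK4
  have hCS : C ⊆ S := hRS.cS.trans hK1
  have hnp : ¬ P G k ∅ C := by
    intro h1
    apply hRS.np
    have h2 := h1.addY (att G l C)
    rw [empty_union] at h2
    refine h2.mono Subset.rfl ?_ (by omega)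
    intro x hx
    rw [mem_sdiff]
    exact ⟨hx, fun hx' => hRS.disj x (mem_att.1 hx').1 hx⟩
  obtain ⟨a, ha, c, hc, hac⟩ := hRS.head
  obtain ⟨p, hp1, hp2, hp3, hp4, S', hS', hd, hNC⟩ := absorb hRS.conn hc (hEP C hnp)
    (fun l' hl' hlC => hg l' hl' fun x hx => hCS (hlC x hx))
  have hlen := att_card_le (G := G) (l := l) (C := C)
  refine ⟨p.reverse ++ l, ?_, ?_, ?_, S', hS'.trans hCS, ?_, hNC⟩
  · refine hp1.reverse.append hRS.pl ?_ ?_
    · intro x hx hx'
      rw [List.mem_reverse] at hx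
      exact hRS.disj x hx' (hp2 x hx)
    · intro x hx y hy
      rw [List.getLast?_reverse, hp3] at hx
      rw [ha] at hy
      simp only [Option.mem_some_iff] at hx hy
      subst hx; subst hy
      exact hac.symm
  · intro x hx
    rw [List.mem_append, List.mem_reverse] at hx
    rcases hx with hx | hx
    · exact hCS (hp2 x hx)
    · exact hK1 (hRS.sub x hx)
  · rw [List.length_append, List.length_reverse]
    omega
  · intro x hx hx'
    rw [List.mem_append, List.mem_reverse] at hx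
    rcases hx with hx | hx
    · exact hd x hx hx'
    · exact hRS.disj x hx (hS' hx')

/-- triangle-free graphs -/
theorem star (t : ℕ) : ∀ K : ℕ, ∃ m₀ : ℕ, ∀ (V : Type) [Fintype V] [DecidableEq V]
    (G : SimpleGraph V) (S : Finset V) (w : ℕ), m₀ ≤ w → TF G S → ¬ P G w ∅ S →
    PC G S (w + K) t := by
  induction t with
  | zero =>
    intro K
    obtain ⟨w₀, -, h⟩ := gain K
    refine ⟨w₀, fun V _ _ G S w hw hT hnp => ?_⟩
    obtain ⟨l, h1, h2, h3⟩ := h V G S w hw hT hnp
    exact ⟨l, h1, h2, h3, ∅, empty_subset _, by simp, NC.zero _⟩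
  | succ t ih =>
    intro K
    obtain ⟨k, hk⟩ := EP (t + 2)
    obtain ⟨m₁, h₁⟩ := ih (K + (k + K))
    refine ⟨m₁ + (k + K) + k + 1, fun V _ _ G S w hw hT hnp => ?_⟩
    by_cases hg : ∀ l, CycL G l → (∀ x ∈ l, x ∈ S) → k + K ≤ l.length
    · exact large_girth (by omega) (fun C hC => hk V G C hC) hg hnp
    · push Not at hg
      obtain ⟨l, hl, hlS, hlen⟩ := hg
      have hY : l.toFinset ⊆ S := fun x hx => hlS x (List.mem_toFinset.1 hx)
      have hYc : l.toFinset.card ≤ k + K := (List.toFinset_card_le l).trans (by omega)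
      have h2 : ¬ P G (w - (k + K)) ∅ (S \ l.toFinset) := fun h => hnp (h.delete hY (by omega))
      have h3 := h₁ V G (S \ l.toFinset) (w - (k + K)) (by omega) (hT.mono sdiff_subset) h2
      exact (h3.mono Subset.rfl (by omega)).cons hl (fun x hx => List.mem_toFinset.2 hx) hY

/-- **a long path and many cycles** -/
theorem path_cycles (t : ℕ) : ∃ M : ℕ, ∀ m, M ≤ m → ∀ (V : Type) [Fintype V] [DecidableEq V]
    (G : SimpleGraph V) (S : Finset V), ¬ P G (m + 3 * t) ∅ S → PC G S (m + 1) t := by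
  induction t with
  | zero =>
    refine ⟨0, fun m _ V _ _ G S hnp => ?_⟩
    obtain ⟨l, h1, h2, h3⟩ := long_path hnp
    exact ⟨l, h1, h2, by omega, ∅, empty_subset _, by simp, NC.zero _⟩
  | succ t ih =>
    obtain ⟨M, hM⟩ := ih
    obtain ⟨m₀, hm₀⟩ := star (t + 1) 0
    refine ⟨M + m₀, fun m hm V _ _ G S hnp => ?_⟩
    by_cases hT : TF G S
    · exact (hm₀ V G S (m + 3 * (t + 1)) (by omega) hT hnp).mono Subset.rfl (by omega)
    · unfold TF at hT
      push Not at hT
      obtain ⟨a, ha, b, hb, c, hc, hab, hbc, hac, -⟩ := hT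
      have hl : CycL G [a, b, c] := by
        refine ⟨⟨?_, ?_⟩, by simp, a, c, rfl, rfl, hac.symm⟩
        · simp [hab, hbc]
        · simp [hab.ne, hac.ne, hbc.ne]
      have hY : ({a, b, c} : Finset V) ⊆ S := by
        intro x hx
        simp only [mem_insert, mem_singleton] at hx
        rcases hx with rfl | rfl | rfl <;> assumption
      have hYc := card_le_three (a := a) (b := b) (c := c)
      have h2 : ¬ P G (m + 3 * t) ∅ (S \ {a, b, c}) := fun h => hnp (h.delete hY (by omega))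
      exact (hM m (by omega) V G _ h2).cons hl (by simp) hY

end Pool.Agent.V1162.TM
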