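import Mathlib
import Pool.Agent.TH507.Bound
import Pool.Agent.V1162.TM.Star
import Pool.Agent.V1162.TM.Lower

/-!
The treewidth threshold of a planar graph, and the disjoint union of `t` triangles and a path.
-/

set_option autoImplicit false
set_option linter.unusedSectionVars false

namespace Pool.Agent.V1162.TM

open SimpleGraph Finset
open Pool.Agent.W126.Split Pool.Agent.TH507.Host

/-- `H` is planar: it has a straight-line drawing in the plane with distinct points as vertices, in
which no vertex lies on an edge it is not an end of, and edges without common end are disjoint -/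
def PlanarD {W : Type} (H : SimpleGraph W) : Prop :=
  ∃ p : W → ℝ × ℝ, Function.Injective p ∧
    (∀ u v w, H.Adj u v → w ≠ u → w ≠ v → p w ∉ segment ℝ (p u) (p v)) ∧
    ∀ u v x y, H.Adj u v → H.Adj x y → u ≠ x → u ≠ y → v ≠ x → v ≠ y →
      Disjoint (segment ℝ (p u) (p v)) (segment ℝ (p x) (p y))

/-- every finite graph (with at least one vertex) of treewidth at least `k` has `H` as a minor -/
def Forces {W : Type} (H : SimpleGraph W) (k : ℕ) : Prop :=
  ∀ (V : Type) [Finite V] [Nonempty V] (G : SimpleGraph V), k ≤ tw G → IsMinor H G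

/-- `f(H)`: the least `k` such that every finite graph of treewidth at least `k` has `H` as a
minor -/
noncomputable def thr {W : Type} (H : SimpleGraph W) : ℕ := sInf {k | Forces H k}

/-- `H` with a new vertex `none` adjacent only to `v` -/
def pendant {W : Type} (H : SimpleGraph W) (v : W) : SimpleGraph (Option W) where
  Adj
    | some a, some b => H.Adj a b
    | some a, none => a = v
    | none, some b => b = v
    | none, none => False
  symm := ⟨fun x y h => by
    cases x <;> cases y
    · exact h
    · exact h
    · exact h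
    · exact H.symm.symm _ _ h⟩
  loopless := ⟨fun x h => by
    cases x
    · exact h
    · exact H.loopless.irrefl _ h⟩

/-- `H` with the edge `uv` replaced by a new vertex `none` adjacent to `u` and `v` -/
def subdiv {W : Type} (H : SimpleGraph W) (u v : W) : SimpleGraph (Option W) where
  Adj
    | some a, some b => H.Adj a b ∧ ¬ (a = u ∧ b = v) ∧ ¬ (a = v ∧ b = u)
    | some a, none => a = u ∨ a = v
    | none, some b => b = u ∨ b = v
    | none, none => False
  symm := ⟨fun x y h => by
    cases x <;> cases y
    · exact h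
    · exact h
    · exact h
    · exact ⟨H.symm.symm _ _ h.1, fun h' => h.2.2 ⟨h'.2, h'.1⟩, fun h' => h.2.1 ⟨h'.2, h'.1⟩⟩⟩
  loopless := ⟨fun x h => by
    cases x
    · exact h
    · exact H.loopless.irrefl _ h.1⟩

/-- the disjoint union of `t` triangles and a path with `j + 1` vertices -/
def tp (t j : ℕ) : SimpleGraph ((Fin t × Fin 3) ⊕ Fin (j + 1)) where
  Adj
    | .inl x, .inl y => x.1 = y.1 ∧ x.2 ≠ y.2
    | .inr i, .inr k => i.1 + 1 = k.1 ∨ k.1 + 1 = i.1
    | _, _ => False
  symm := ⟨fun x y h => by
    rcases x with x | x <;> rcases y with y | y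
    · exact ⟨h.1.symm, h.2.symm⟩
    · exact h
    · exact h
    · exact Or.symm h⟩
  loopless := ⟨fun x h => by
    rcases x with x | x
    · exact h.2 rfl
    · rcases h with h | h <;> omega⟩

lemma minor_of_hom {W W' V : Type} {H : SimpleGraph W} {H' : SimpleGraph W'} {G : SimpleGraph V}
    (h : IsMinor H' G) (f : W → W') (hf : Function.Injective f)
    (hadj : ∀ a b, H.Adj a b → H'.Adj (f a) (f b)) : IsMinor H G := by
  obtain ⟨B, h1, h2, h3⟩ := h
  exact ⟨fun x => B (f x), fun x => h1 _, fun x y hxy => h2 _ _ (fun h => hxy (hf h)),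
    fun x y hxy => h3 _ _ (hadj x y hxy)⟩

lemma thr_congr {W W' : Type} {H : SimpleGraph W} {H' : SimpleGraph W'}
    (h : ∀ (V : Type) (G : SimpleGraph V), IsMinor H G ↔ IsMinor H' G) : thr H = thr H' := by
  unfold thr
  congr 1
  ext k
  exact ⟨fun hk V _ _ G hG => (h V G).1 (hk V G hG), fun hk V _ _ G hG => (h V G).2 (hk V G hG)⟩

lemma forces_congr {W W' : Type} {H : SimpleGraph W} {H' : SimpleGraph W'}
    (h : ∀ (V : Type) (G : SimpleGraph V), IsMinor H' G → IsMinor H G) {k : ℕ} (hk : Forces H' k) :
    Forces H k := fun V _ _ G hG => h V G (hk V G hG)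

/-! ### Isomorphisms -/

lemma pendant_iff (t j : ℕ) (V : Type) (G : SimpleGraph V) :
    IsMinor (pendant (tp t j) (Sum.inr (Fin.last j))) G ↔ IsMinor (tp t (j + 1)) G := by
  constructor
  · intro h
    refine minor_of_hom h (fun x => match x with
      | .inl x => some (.inl x)
      | .inr i => if h : i.1 < j + 1 then some (.inr ⟨i.1, h⟩) else none) ?_ ?_
    · rintro (x | x) (y | y) hxy
      · simpa using hxy
      · simp only at hxy
        split_ifs at hxy with h1
        simp at hxy
      · simp only at hxy
        split_ifs at hxy with h1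
        simp at hxy
      · simp only at hxy
        have hx := x.2
        have hy := y.2
        split_ifs at hxy with h1 h2 h2
        · simp only [Option.some.injEq, Sum.inr.injEq, Fin.mk.injEq] at hxy
          rw [Sum.inr.injEq]; exact Fin.ext hxy
        · rw [Sum.inr.injEq]; apply Fin.ext; omega
    · rintro (x | x) (y | y) hxy
      · exact hxy
      · exact hxy.elim
      · exact hxy.elim
      · have hx := x.2
        have hy := y.2
        have hxy' : x.1 + 1 = y.1 ∨ y.1 + 1 = x.1 := hxy
        simp only
        split_ifs with h1 h2 h2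
        · exact hxy
        · show (Sum.inr (⟨x.1, h1⟩ : Fin (j + 1)) : (Fin t × Fin 3) ⊕ Fin (j + 1)) =
            Sum.inr (Fin.last j)
          rw [Sum.inr.injEq]; apply Fin.ext; simp only [Fin.val_last]; omega
        · show (Sum.inr (⟨y.1, h2⟩ : Fin (j + 1)) : (Fin t × Fin 3) ⊕ Fin (j + 1)) =
            Sum.inr (Fin.last j)
          rw [Sum.inr.injEq]; apply Fin.ext; simp only [Fin.val_last]; omega
        · omega
  · intro h
    refine minor_of_hom h (fun x => match x with
      | some (.inl x) => .inl x
      | some (.inr i) => .inr i.castSucc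
      | none => .inr (Fin.last (j + 1))) ?_ ?_
    · rintro (_ | x | x) (_ | y | y) hxy
      · rfl
      · simp at hxy
      · simp only [Sum.inr.injEq, Fin.ext_iff, Fin.val_last, Fin.val_castSucc] at hxy
        have := y.2
        omega
      · simp at hxy
      · simpa using hxy
      · simp at hxy
      · simp only [Sum.inr.injEq, Fin.ext_iff, Fin.val_last, Fin.val_castSucc] at hxy
        have := x.2
        omega
      · simp at hxy
      · simpa using hxy
    · rintro (_ | x | x) (_ | y | y) hxy
      · exact hxy.elim
      · exact absurd hxy (by simp [pendant])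
      · have h1 : (Sum.inr y : (Fin t × Fin 3) ⊕ Fin (j + 1)) = Sum.inr (Fin.last j) := hxy
        rw [Sum.inr.injEq] at h1
        subst h1
        exact Or.inr rfl
      · exact absurd hxy (by simp [pendant])
      · exact hxy
      · exact hxy.elim
      · have h1 : (Sum.inr x : (Fin t × Fin 3) ⊕ Fin (j + 1)) = Sum.inr (Fin.last j) := hxy
        rw [Sum.inr.injEq] at h1
        subst h1
        exact Or.inl rfl
      · exact hxy.elim
      · exact hxy

/-- the last edge of the path -/
abbrev eu (t j : ℕ) : (Fin t × Fin 3) ⊕ Fin (j + 1 + 1) := Sum.inr (Fin.last j).castSucc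

/-- the last edge of the path -/
abbrev ev (t j : ℕ) : (Fin t × Fin 3) ⊕ Fin (j + 1 + 1) := Sum.inr (Fin.last (j + 1))

lemma adj_euv (t j : ℕ) : (tp t (j + 1)).Adj (eu t j) (ev t j) := Or.inl rfl

lemma subdiv_iff (t j : ℕ) (V : Type) (G : SimpleGraph V) :
    IsMinor (subdiv (tp t (j + 1)) (eu t j) (ev t j)) G ↔ IsMinor (tp t (j + 2)) G := by
  constructor
  · intro h
    refine minor_of_hom h (fun x => match x with
      | .inl x => some (.inl x)
      | .inr i => if h : i.1 < j + 1 then some (.inr ⟨i.1, by omega⟩) else
          if i.1 = j + 1 then none else some (.inr (Fin.last (j + 1)))) ?_ ?_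
    · rintro (x | x) (y | y) hxy
      · simpa using hxy
      · simp only at hxy
        split_ifs at hxy with h1 h2
        · simp at hxy
        · simp at hxy
      · simp only at hxy
        split_ifs at hxy with h1 h2
        · simp at hxy
        · simp at hxy
      · simp only at hxy
        have hx := x.2
        have hy := y.2
        rw [Sum.inr.injEq]
        apply Fin.ext
        split_ifs at hxy with h1 h2 h2 h3 h4 h5 h6
        · simpa only [Option.some.injEq, Sum.inr.injEq, Fin.mk.injEq] using hxy
        · simp only [Option.some.injEq, Sum.inr.injEq, Fin.ext_iff, Fin.val_last] at hxy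
          omega
        · omega
        · simp only [Option.some.injEq, Sum.inr.injEq, Fin.ext_iff, Fin.val_last] at hxy
          omega
        · omega
    · rintro (x | x) (y | y) hxy
      · exact ⟨hxy, by simp, by simp⟩
      · exact hxy.elim
      · exact hxy.elim
      · have hx := x.2
        have hy := y.2
        have hxy' : x.1 + 1 = y.1 ∨ y.1 + 1 = x.1 := hxy
        simp only
        split_ifs with h1 h2 h3 h2 h4 h5 h6
        · refine ⟨hxy, ?_, ?_⟩
          · rintro ⟨-, h⟩
            simp only [ev, Sum.inr.injEq, Fin.ext_iff, Fin.val_last] at h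
            omega
          · rintro ⟨h, -⟩
            simp only [ev, Sum.inr.injEq, Fin.ext_iff, Fin.val_last] at h
            omega
        · left
          simp only [eu, Sum.inr.injEq, Fin.ext_iff, Fin.val_last, Fin.val_castSucc]
          omega
        · omega
        · left
          simp only [eu, Sum.inr.injEq, Fin.ext_iff, Fin.val_last, Fin.val_castSucc]
          omega
        · omega
        · right
          rfl
        · omega
        · right
          rfl
        · omega
  · intro h
    refine minor_of_hom h (fun x => match x with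
      | some (.inl x) => .inl x
      | some (.inr i) => if i.1 < j + 1 then .inr i.castSucc else .inr (Fin.last (j + 2))
      | none => .inr (Fin.last (j + 1)).castSucc) ?_ ?_
    · rintro (_ | x | x) (_ | y | y) hxy
      · rfl
      · simp at hxy
      · have hy := y.2
        simp only at hxy
        split_ifs at hxy with h1 <;>
        · simp only [Sum.inr.injEq, Fin.ext_iff, Fin.val_last, Fin.val_castSucc] at hxy
          omega
      · simp at hxy
      · simpa using hxy
      · simp only at hxy
        split_ifs at hxy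
      · have hx := x.2
        simp only at hxy
        split_ifs at hxy with h1 <;>
        · simp only [Sum.inr.injEq, Fin.ext_iff, Fin.val_last, Fin.val_castSucc] at hxy
          omega
      · simp only at hxy
        split_ifs at hxy
      · have hx := x.2
        have hy := y.2
        rw [Option.some.injEq, Sum.inr.injEq]
        apply Fin.ext
        simp only at hxy
        split_ifs at hxy with h1 h2 h2
        · simpa only [Sum.inr.injEq, Fin.ext_iff, Fin.val_castSucc] using hxy
        · simp only [Sum.inr.injEq, Fin.ext_iff, Fin.val_last, Fin.val_castSucc] at hxy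
          omega
        · simp only [Sum.inr.injEq, Fin.ext_iff, Fin.val_last, Fin.val_castSucc] at hxy
          omega
        · omega
    · rintro (_ | x | x) (_ | y | y) hxy
      · exact hxy.elim
      · exact absurd hxy (by simp [subdiv])
      · have hy := y.2
        have h1 : (Sum.inr y : (Fin t × Fin 3) ⊕ Fin (j + 1 + 1)) = eu t j ∨
          (Sum.inr y : (Fin t × Fin 3) ⊕ Fin (j + 1 + 1)) = ev t j := hxy
        simp only [eu, ev, Sum.inr.injEq, Fin.ext_iff, Fin.val_last, Fin.val_castSucc] at h1
        simp only
        split_ifs with h2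
        · right
          simp only [Fin.val_last, Fin.val_castSucc]
          omega
        · left
          simp only [Fin.val_last, Fin.val_castSucc]
      · exact absurd hxy (by simp [subdiv])
      · exact hxy.1
      · exact hxy.1.elim
      · have hx := x.2
        have h1 : (Sum.inr x : (Fin t × Fin 3) ⊕ Fin (j + 1 + 1)) = eu t j ∨
          (Sum.inr x : (Fin t × Fin 3) ⊕ Fin (j + 1 + 1)) = ev t j := hxy
        simp only [eu, ev, Sum.inr.injEq, Fin.ext_iff, Fin.val_last, Fin.val_castSucc] at h1
        simp only
        split_ifs with h2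
        · left
          simp only [Fin.val_last, Fin.val_castSucc]
          omega
        · right
          simp only [Fin.val_last, Fin.val_castSucc]
      · exact hxy.1.elim
      · have hx := x.2
        have hy := y.2
        obtain ⟨h1, h2, h3⟩ := hxy
        have h1' : x.1 + 1 = y.1 ∨ y.1 + 1 = x.1 := h1
        simp only [eu, ev, Sum.inr.injEq, Fin.ext_iff, Fin.val_last, Fin.val_castSucc] at h2 h3
        simp only
        split_ifs with h4 h5 h5
        · exact h1'
        · omega
        · omega
        · omega

/-! ### Planarity -/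

lemma seg_le {u v z : ℝ × ℝ} (h : z ∈ segment ℝ u v) (α β c : ℝ) (h1 : α * u.1 + β * u.2 ≤ c)
    (h2 : α * v.1 + β * v.2 ≤ c) : α * z.1 + β * z.2 ≤ c := by
  obtain ⟨a, b, ha, hb, hab, rfl⟩ := h
  simp only [Prod.fst_add, Prod.snd_add, Prod.smul_fst, Prod.smul_snd, smul_eq_mul]
  have e1 : α * (a * u.1 + b * v.1) + β * (a * u.2 + b * v.2) =
      a * (α * u.1 + β * u.2) + b * (α * v.1 + β * v.2) := by ring
  rw [e1]
  calc a * (α * u.1 + β * u.2) + b * (α * v.1 + β * v.2) ≤ a * c + b * c :=
        add_le_add (mul_le_mul_of_nonneg_left h1 ha) (mul_le_mul_of_nonneg_left h2 hb)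
    _ = c := by rw [← add_mul, hab, one_mul]

/-- coordinates of the drawing -/
def cx {t j : ℕ} : (Fin t × Fin 3) ⊕ Fin (j + 1) → ℤ
  | .inl x => 3 * x.1.1 + (if x.2 = 1 then 1 else 0)
  | .inr i => i.1

/-- coordinates of the drawing -/
def cy {t j : ℕ} : (Fin t × Fin 3) ⊕ Fin (j + 1) → ℤ
  | .inl x => if x.2 = 2 then 1 else 0
  | .inr _ => -1

/-- the drawing -/
def dr {t j : ℕ} (x : (Fin t × Fin 3) ⊕ Fin (j + 1)) : ℝ × ℝ :=
  (((cx x : ℤ) : ℝ), ((cy x : ℤ) : ℝ))

/-- separation by a linear functional with integer coefficients -/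
lemma sep {t j : ℕ} {u v : (Fin t × Fin 3) ⊕ Fin (j + 1)} {z : ℝ × ℝ}
    (h : z ∈ segment ℝ (dr u) (dr v))
    (α β c : ℤ) (h1 : α * cx u + β * cy u ≤ c) (h2 : α * cx v + β * cy v ≤ c) :
    (α : ℝ) * z.1 + β * z.2 ≤ c := by
  refine seg_le h α β c ?_ ?_
  · show (α : ℝ) * ((cx u : ℤ) : ℝ) + (β : ℝ) * ((cy u : ℤ) : ℝ) ≤ (c : ℝ)
    exact_mod_cast h1
  · show (α : ℝ) * ((cx v : ℤ) : ℝ) + (β : ℝ) * ((cy v : ℤ) : ℝ) ≤ (c : ℝ)
    exact_mod_cast h2

lemma disj {t j : ℕ} {u v x y : (Fin t × Fin 3) ⊕ Fin (j + 1)} (α β c : ℤ)
    (h1 : α * cx u + β * cy u ≤ c) (h2 : α * cx v + β * cy v ≤ c)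
    (h3 : c + 1 ≤ α * cx x + β * cy x) (h4 : c + 1 ≤ α * cx y + β * cy y) :
    Disjoint (segment ℝ (dr u) (dr v)) (segment ℝ (dr x) (dr y)) := by
  rw [Set.disjoint_left]
  intro z hz hz'
  have e1 := sep hz α β c h1 h2
  have e2 := sep hz' (-α) (-β) (-(c + 1)) (by linarith) (by linarith)
  push_cast at e2
  linarith

lemma cx_inl {t j : ℕ} (i : Fin t) (a : Fin 3) :
    3 * (i.1 : ℤ) ≤ cx (Sum.inl (i, a) : (Fin t × Fin 3) ⊕ Fin (j + 1)) ∧
      cx (Sum.inl (i, a) : (Fin t × Fin 3) ⊕ Fin (j + 1)) ≤ 3 * i.1 + 1 := by
  simp only [cx]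
  split_ifs <;> constructor <;> omega

lemma cy_inl {t j : ℕ} (i : Fin t) (a : Fin 3) :
    0 ≤ cy (Sum.inl (i, a) : (Fin t × Fin 3) ⊕ Fin (j + 1)) ∧
      cy (Sum.inl (i, a) : (Fin t × Fin 3) ⊕ Fin (j + 1)) ≤ 1 := by
  simp only [cy]
  split_ifs <;> constructor <;> omega

theorem tp_planar (t j : ℕ) : PlanarD (tp t j) := by
  refine ⟨dr, ?_, ?_, ?_⟩
  · intro x y hxy
    simp only [dr, Prod.mk.injEq, Int.cast_inj] at hxy
    obtain ⟨h1, h2⟩ := hxy
    rcases x with ⟨x, a⟩ | x <;> rcases y with ⟨y, b⟩ | y
    · simp only [cx, cy] at h1 h2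
      have h3 : x.1 = y.1 := by
        split_ifs at h1 <;> omega
      have h4 : x = y := Fin.ext h3
      subst h4
      have h5 : a = b := by
        revert h1 h2
        fin_cases a <;> fin_cases b <;> simp
      rw [h5]
    · simp only [cy] at h2
      split_ifs at h2
    · simp only [cy] at h2
      split_ifs at h2
    · simp only [cx] at h1
      rw [Sum.inr.injEq]
      apply Fin.ext
      omega
  · intro u v w huv hwu hwv hw
    have key : ∀ α β c : ℤ, α * cx u + β * cy u ≤ c → α * cx v + β * cy v ≤ c →
        α * cx w + β * cy w ≤ c := by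
      intro α β c h1 h2
      have h3 : (α : ℝ) * ((cx w : ℤ) : ℝ) + (β : ℝ) * ((cy w : ℤ) : ℝ) ≤ (c : ℝ) :=
        sep hw α β c h1 h2
      exact_mod_cast h3
    rcases u with ⟨x, a⟩ | u <;> rcases v with ⟨y, b⟩ | v
    · obtain ⟨h1, h2⟩ := huv
      simp only at h1 h2
      subst h1
      have a1 := cx_inl (j := j) x a
      have a2 := cx_inl (j := j) x b
      have a3 := cy_inl (j := j) x a
      have a4 := cy_inl (j := j) x b
      rcases w with ⟨z, c⟩ | w
      · have a5 := cx_inl (j := j) z c
        by_cases hz : z = x
        · subst hz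
          have hca : c ≠ a := fun h => hwu (by rw [h])
          have hcb : c ≠ b := fun h => hwv (by rw [h])
          have k1 := key 0 1 0
          have k2 := key 1 0 (3 * z.1)
          have k3 := key (-1) (-1) (-(3 * z.1 + 1))
          clear hw hwu hwv a1 a2 a3 a4 a5 key
          revert k1 k2 k3 hca hcb h2
          fin_cases a <;> fin_cases b <;> fin_cases c <;> simp [cx, cy]
        · have hz' : z.1 ≠ x.1 := fun h => hz (Fin.ext h)
          have k1 := key 1 0 (3 * x.1 + 1) (by omega) (by omega)
          have k2 := key (-1) 0 (-(3 * x.1)) (by omega) (by omega)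
          omega
      · have k1 := key 0 (-1) 0 (by omega) (by omega)
        simp only [cy] at k1
        omega
    · exact huv.elim
    · exact huv.elim
    · have h1 : u.1 + 1 = v.1 ∨ v.1 + 1 = u.1 := huv
      rcases w with ⟨z, c⟩ | w
      · have a5 := cy_inl (j := j) z c
        have k1 := key 0 1 (-1) (by simp [cy]) (by simp [cy])
        omega
      · have hwu' : w.1 ≠ u.1 := fun h => hwu (by rw [Fin.ext h])
        have hwv' : w.1 ≠ v.1 := fun h => hwv (by rw [Fin.ext h])
        have k1 := key 1 0 (max u.1 v.1) (by simp [cx]) (by simp [cx])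
        have k2 := key (-1) 0 (-(min u.1 v.1)) (by simp [cx]) (by simp [cx])
        simp only [cx] at k1 k2
        omega
  · intro u v x y huv hxy hux huy hvx hvy
    rcases u with ⟨i, a⟩ | u <;> rcases v with ⟨i', b⟩ | v
    · obtain ⟨h1, h2⟩ := huv
      simp only at h1 h2
      subst h1
      have a1 := cx_inl (j := j) i a
      have a2 := cx_inl (j := j) i b
      have a3 := cy_inl (j := j) i a
      have a4 := cy_inl (j := j) i b
      rcases x with ⟨k, c⟩ | x <;> rcases y with ⟨k', d⟩ | y
      · obtain ⟨h3, h4⟩ := hxy
        simp only at h3 h4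
        subst h3
        have b1 := cx_inl (j := j) k c
        have b2 := cx_inl (j := j) k d
        rcases lt_trichotomy i.1 k.1 with h | h | h
        · exact disj 1 0 (3 * i.1 + 1) (by omega) (by omega) (by omega) (by omega)
        · have hik : i = k := Fin.ext h
          subst hik
          exfalso
          have c1 : a ≠ c := fun h => hux (by rw [h])
          have c2 : a ≠ d := fun h => huy (by rw [h])
          have c3 : b ≠ c := fun h => hvx (by rw [h])
          have c4 : b ≠ d := fun h => hvy (by rw [h])
          rw [Ne, Fin.ext_iff] at h2 h4 c1 c2 c3 c4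
          have d1 := a.2
          have d2 := b.2
          have d3 := c.2
          have d4 := d.2
          omega
        · exact disj (-1) 0 (-(3 * i.1)) (by omega) (by omega) (by omega) (by omega)
      · exact hxy.elim
      · exact hxy.elim
      · exact disj 0 (-1) 0 (by omega) (by omega) (by simp [cy]) (by simp [cy])
    · exact huv.elim
    · exact huv.elim
    · have h1 : u.1 + 1 = v.1 ∨ v.1 + 1 = u.1 := huv
      rcases x with ⟨k, c⟩ | x <;> rcases y with ⟨k', d⟩ | y
      · have b3 := cy_inl (j := j) k c
        have b4 := cy_inl (j := j) k' d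
        exact disj 0 1 (-1) (by simp [cy]) (by simp [cy]) (by omega) (by omega)
      · exact hxy.elim
      · exact hxy.elim
      · have h2 : x.1 + 1 = y.1 ∨ y.1 + 1 = x.1 := hxy
        have c1 : u.1 ≠ x.1 := fun h => hux (by rw [Fin.ext h])
        have c2 : u.1 ≠ y.1 := fun h => huy (by rw [Fin.ext h])
        have c3 : v.1 ≠ x.1 := fun h => hvx (by rw [Fin.ext h])
        have c4 : v.1 ≠ y.1 := fun h => hvy (by rw [Fin.ext h])
        rcases lt_or_gt_of_ne c1 with h | h
        · exact disj 1 0 (max u.1 v.1) (by simp [cx]) (by simp [cx]) (by simp only [cx]; omega)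
            (by simp only [cx]; omega)
        · exact disj (-1) 0 (-(min u.1 v.1)) (by simp [cx]) (by simp [cx])
            (by simp only [cx]; omega) (by simp only [cx]; omega)

end Pool.Agent.V1162.TM
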