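import Mathlib
import Pool.Agent.V1162.TM.Thr

/-!
The thresholds of the disjoint unions of triangles and a path.
-/

set_option autoImplicit false
set_option linter.unusedSectionVars false

namespace Pool.Agent.V1162.TM

open SimpleGraph Finset
open Pool.Agent.W126.Split Pool.Agent.TH507.Host

section

variable {V : Type} {G : SimpleGraph V}

lemma conn_single (G : SimpleGraph V) (a : V) : (G.induce {a}).Connected := by
  have : Subsingleton ({a} : Set V) := Set.subsingleton_coe _ |>.2 Set.subsingleton_singleton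
  have : Nonempty ({a} : Set V) := ⟨⟨a, rfl⟩⟩
  exact Connected.of_subsingleton

lemma conn_list {l : List V} (h : l.IsChain G.Adj) (hne : l ≠ []) :
    (G.induce {x | x ∈ l}).Connected := by
  induction l with
  | nil => exact absurd rfl hne
  | cons a t ih =>
    cases t with
    | nil =>
      have : {x | x ∈ [a]} = ({a} : Set V) := by ext; simp
      rw [this]
      exact conn_single G a
    | cons b t =>
      rw [List.isChain_cons_cons] at h
      have h1 := ih h.2 (by simp)
      have : {x | x ∈ a :: b :: t} = ({a} : Set V) ∪ {x | x ∈ b :: t} := by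
        ext x; simp
      rw [this]
      exact connected_induce_union (conn_single G a).preconnected h1.preconnected rfl
        (List.mem_cons_self) h.1

end

variable {V : Type} [Fintype V] [DecidableEq V] {G : SimpleGraph V}

lemma CycL.model {l : List V} (h : CycL G l) : ∃ B : Fin 3 → Set V,
    (∀ a, (G.induce (B a)).Connected) ∧ (∀ a b, a ≠ b → Disjoint (B a) (B b)) ∧
    (∀ a b, a ≠ b → ∃ u ∈ B a, ∃ v ∈ B b, G.Adj u v) ∧ ∀ a, ∀ x ∈ B a, x ∈ l := by
  obtain ⟨hp, hlen, a₀, z, ha, hz, hza⟩ := h
  match l, hlen, hp, ha, hz with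
  | a :: b :: c :: r, _, hp, ha, hz =>
    simp only [List.head?_cons, Option.some.injEq] at ha
    subst ha
    have hz' : (c :: r).getLast? = some z := by
      rw [List.getLast?_cons_cons, List.getLast?_cons_cons] at hz
      exact hz
    have hzr : z ∈ c :: r := List.mem_of_getLast? hz'
    obtain ⟨hc, hn⟩ := hp
    rw [List.isChain_cons_cons, List.isChain_cons_cons] at hc
    obtain ⟨hab, hbc, hcr⟩ := hc
    rw [List.nodup_cons, List.nodup_cons] at hn
    obtain ⟨hn1, hn2, hn3⟩ := hn
    have hab' : a ≠ b := hab.ne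
    have har : a ∉ c :: r := fun h => hn1 (List.mem_cons_of_mem _ h)
    let B : Fin 3 → Set V := ![{a}, {b}, {x | x ∈ c :: r}]
    have B0 : B 0 = {a} := rfl
    have B1 : B 1 = {b} := rfl
    have B2 : B 2 = {x | x ∈ c :: r} := rfl
    refine ⟨B, ?_, ?_, ?_, ?_⟩
    · intro i
      fin_cases i
      · exact conn_single G a
      · exact conn_single G b
      · exact conn_list hcr (by simp)
    · have d01 : Disjoint (B 0) (B 1) := by
        rw [B0, B1, Set.disjoint_singleton]; exact hab'
      have d02 : Disjoint (B 0) (B 2) := by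
        rw [B0, B2, Set.disjoint_singleton_left]; exact har
      have d12 : Disjoint (B 1) (B 2) := by
        rw [B1, B2, Set.disjoint_singleton_left]; exact hn2
      intro i j hij
      fin_cases i <;> fin_cases j
      · exact absurd rfl hij
      · exact d01
      · exact d02
      · exact d01.symm
      · exact absurd rfl hij
      · exact d12
      · exact d02.symm
      · exact d12.symm
      · exact absurd rfl hij
    · have e01 : a ∈ B 0 := rfl
      have e1 : b ∈ B 1 := rfl
      have e2 : c ∈ B 2 := List.mem_cons_self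
      have e2' : z ∈ B 2 := hzr
      intro i j hij
      fin_cases i <;> fin_cases j
      · exact absurd rfl hij
      · exact ⟨a, e01, b, e1, hab⟩
      · exact ⟨a, e01, z, e2', hza.symm⟩
      · exact ⟨b, e1, a, e01, hab.symm⟩
      · exact absurd rfl hij
      · exact ⟨b, e1, c, e2, hbc⟩
      · exact ⟨z, e2', a, e01, hza⟩
      · exact ⟨c, e2, b, e1, hbc.symm⟩
      · exact absurd rfl hij
    · intro i x hx
      fin_cases i
      · have : x = a := hx
        rw [this]; simp
      · have : x = b := hx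
        rw [this]; simp
      · have : x ∈ c :: r := hx
        exact List.mem_cons_of_mem _ (List.mem_cons_of_mem _ this)

lemma PC.minor {S : Finset V} {t j : ℕ} (h : PC G S (j + 1) t) : IsMinor (tp t j) G := by
  obtain ⟨l, h1, -, h3, S', -, h5, c, c1, c2, c3⟩ := h
  choose B B1 B2 B3 B4 using fun i => (c1 i).model
  have hBS : ∀ i a x, x ∈ B i a → x ∈ S' := fun i a x hx => c2 i x (B4 i a x hx)
  refine ⟨fun x => match x with
    | .inl x => B x.1 x.2
    | .inr k => {l[k.1]'(by omega)}, ?_, ?_, ?_⟩
  · rintro (x | k)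
    · exact B1 _ _
    · exact conn_single G _
  · rintro (⟨i, a⟩ | k) (⟨i', b⟩ | k') hne
    · by_cases hi : i = i'
      · subst hi
        exact B2 i a b (fun h => hne (by rw [h]))
      · rw [Set.disjoint_left]
        intro x hx hx'
        exact c3 i i' hi x (B4 _ _ x hx) (B4 _ _ x hx')
    · simp only
      rw [Set.disjoint_singleton_right]
      intro hx
      exact h5 _ (List.getElem_mem _) (hBS _ _ _ hx)
    · simp only
      rw [Set.disjoint_singleton_left]
      intro hx
      exact h5 _ (List.getElem_mem _) (hBS _ _ _ hx)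
    · simp only
      rw [Set.disjoint_singleton]
      intro h
      have := (List.Nodup.getElem_inj_iff h1.2).1 h
      exact hne (by rw [Fin.ext this])
  · have hch := List.isChain_iff_getElem.1 h1.1
    rintro (⟨i, a⟩ | k) (⟨i', b⟩ | k') hadj
    · obtain ⟨g1, g2⟩ := hadj
      simp only at g1 g2
      subst g1
      exact B3 i a b g2
    · exact hadj.elim
    · exact hadj.elim
    · have g : k.1 + 1 = k'.1 ∨ k'.1 + 1 = k.1 := hadj
      have hk := k.2
      have hk' := k'.2
      refine ⟨_, rfl, _, rfl, ?_⟩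
      rcases g with g | g
      · have := hch k.1 (by omega)
        simp only [← g]
        exact this
      · have := hch k'.1 (by omega)
        simp only [← g]
        exact this.symm

/-- large treewidth forces the decomposition game to fail -/
lemma not_P_of_le_tw {w : ℕ} (h : w + 1 ≤ tw G) : ¬ P G (w + 1) ∅ univ := by
  intro hP
  obtain ⟨m, T, bag, h1, h2, h3, h4, h5⟩ := td_of_bw hP.bw
  have h6 : TwLE G w := ⟨m, T, bag, h1, h2, h3, h4, h5⟩
  have h7 : tw G ≤ w := Nat.sInf_le h6
  omega

/-- the upper bound for the threshold -/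
theorem forces_tp (t : ℕ) : ∃ M, ∀ m, M ≤ m → Forces (tp t m) (m + 3 * t) := by
  obtain ⟨M, hM⟩ := path_cycles t
  refine ⟨M + 1, fun m hm V _ _ G hG => ?_⟩
  classical
  letI := Fintype.ofFinite V
  obtain ⟨w, hw⟩ : ∃ w, w + 1 = m + 3 * t := ⟨m + 3 * t - 1, by omega⟩
  rw [← hw] at hG
  have h1 := not_P_of_le_tw hG
  rw [hw] at h1
  exact (hM m (by omega) V G univ h1).minor

lemma tp_le {t i j : ℕ} (hij : i ≤ j) {V : Type} {G : SimpleGraph V} (h : IsMinor (tp t j) G) :
    IsMinor (tp t i) G := by
  refine minor_of_hom h (Sum.map id (Fin.castLE (by omega))) ?_ ?_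
  · exact Function.Injective.sumMap Function.injective_id (Fin.castLE_injective _)
  · rintro (x | x) (y | y) hxy
    · exact hxy
    · exact hxy.elim
    · exact hxy.elim
    · exact hxy

lemma exists_forces (t j : ℕ) : ∃ k, Forces (tp t j) k := by
  obtain ⟨M, hM⟩ := forces_tp t
  exact ⟨_, forces_congr (fun _ _ h => tp_le (le_max_left j M) h) (hM (max j M) (le_max_right _ _))⟩

lemma thr_mem (t j : ℕ) : Forces (tp t j) (thr (tp t j)) := Nat.sInf_mem (exists_forces t j)

lemma thr_mono {t i j : ℕ} (hij : i ≤ j) : thr (tp t i) ≤ thr (tp t j) :=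
  Nat.sInf_le (forces_congr (fun _ _ h => tp_le hij h) (thr_mem t j))

lemma twLE_mono {V : Type} {G : SimpleGraph V} {w w' : ℕ} (h : TwLE G w) (hw : w ≤ w') :
    TwLE G w' := by
  obtain ⟨m, T, bag, h1, h2, h3, h4, h5⟩ := h
  exact ⟨m, T, bag, h1, h2, h3, h4, fun i => (h5 i).trans (by omega)⟩

/-- the lower bound for the threshold -/
theorem lower_thr : ∃ t₀ : ℕ, ∀ t, t₀ ≤ t → ∀ j, 3 * t + 2 ≤ thr (tp t j) := by
  obtain ⟨t₀, h₀⟩ := lower
  refine ⟨t₀, fun t ht j => ?_⟩
  obtain ⟨n, G, hn, h1, h2⟩ := h₀ t ht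
  by_contra hcon
  have : Nonempty (Fin n) := ⟨⟨0, hn⟩⟩
  have h3 : 3 * t + 1 ≤ tw G := by
    by_contra h
    exact h1 (twLE_mono (exists_twLE G) (by omega))
  obtain ⟨B, b1, b2, b3⟩ := thr_mem t j (Fin n) G (by omega)
  apply h2
  refine ⟨fun x => B (Sum.inl x), fun x => b1 _, fun x y hxy => b2 _ _ (fun h => hxy (Sum.inl_injective h)),
    fun i a b hab => b3 _ _ ⟨rfl, hab⟩⟩

/-- somewhere the threshold does not grow -/
theorem exists_stall : ∃ t₀ : ℕ, ∀ t, t₀ ≤ t → ∃ j, 1 ≤ j ∧ thr (tp t (j + 1)) = thr (tp t j) := by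
  obtain ⟨t₀, h₀⟩ := lower_thr
  refine ⟨t₀, fun t ht => ?_⟩
  by_contra hcon
  push Not at hcon
  have h1 : ∀ j, 1 ≤ j → thr (tp t j) + 1 ≤ thr (tp t (j + 1)) := by
    intro j hj
    have := hcon j hj
    have := thr_mono (t := t) (Nat.le_succ j)
    rw [Nat.succ_eq_add_one] at this
    omega
  have h2 : ∀ m, 3 * t + 2 + m ≤ thr (tp t (m + 1)) := by
    intro m
    induction m with
    | zero => exact h₀ t ht 1
    | succ m ih =>
      have := h1 (m + 1) (by omega)
      omega
  obtain ⟨M, hM⟩ := forces_tp t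
  have h3 : thr (tp t (M + 1)) ≤ M + 1 + 3 * t := Nat.sInf_le (hM (M + 1) (by omega))
  have := h2 M
  omega

end Pool.Agent.V1162.TM
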