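import Mathlib
import Pool.Agent.V1162.TM.Main

/-!
The graphs of the statements, with explicit adjacency relations.
-/

set_option autoImplicit false

namespace Pool.Agent.V1162.TM

open Pool.Agent.TH507.Host

/-- the disjoint union of `t` triangles (the vertices `inl (i, a)` with `i` fixed form a triangle)
and a path with `j + 1` vertices `inr 0`, …, `inr j` -/
def triPath (t j : ℕ) : SimpleGraph ((Fin t × Fin 3) ⊕ Fin (j + 1)) where
  Adj x y := (∃ (i : Fin t) (a b : Fin 3), a ≠ b ∧ x = Sum.inl (i, a) ∧ y = Sum.inl (i, b)) ∨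
    ∃ k l : Fin (j + 1), ((k : ℕ) + 1 = l ∨ (l : ℕ) + 1 = k) ∧ x = Sum.inr k ∧ y = Sum.inr l
  symm := ⟨fun x y h => by
    rcases h with ⟨i, a, b, h1, h2, h3⟩ | ⟨k, l, h1, h2, h3⟩
    · exact Or.inl ⟨i, b, a, h1.symm, h3, h2⟩
    · exact Or.inr ⟨l, k, h1.symm, h3, h2⟩⟩
  loopless := ⟨fun x h => by
    rcases h with ⟨i, a, b, h1, h2, h3⟩ | ⟨k, l, h1, h2, h3⟩
    · rw [h2, Sum.inl.injEq, Prod.mk.injEq] at h3
      exact h1 h3.2
    · rw [h2, Sum.inr.injEq] at h3
      subst h3
      omega⟩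

/-- `H` with a new vertex `none` adjacent only to `v` -/
def addPendant {W : Type} (H : SimpleGraph W) (v : W) : SimpleGraph (Option W) where
  Adj x y := (∃ a b, H.Adj a b ∧ x = some a ∧ y = some b) ∨
    (x = none ∧ y = some v) ∨ (x = some v ∧ y = none)
  symm := ⟨fun x y h => by
    rcases h with ⟨a, b, h1, h2, h3⟩ | h | h
    · exact Or.inl ⟨b, a, h1.symm, h3, h2⟩
    · exact Or.inr (Or.inr ⟨h.2, h.1⟩)
    · exact Or.inr (Or.inl ⟨h.2, h.1⟩)⟩
  loopless := ⟨fun x h => by
    rcases h with ⟨a, b, h1, h2, h3⟩ | ⟨h1, h2⟩ | ⟨h1, h2⟩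
    · rw [h2, Option.some.injEq] at h3
      exact h1.ne h3
    · rw [h1] at h2
      simp at h2
    · rw [h2] at h1
      simp at h1⟩

/-- `H` with the edge `uv` replaced by a new vertex `none` adjacent to `u` and `v` -/
def subdivide {W : Type} (H : SimpleGraph W) (u v : W) : SimpleGraph (Option W) where
  Adj x y := (∃ a b, H.Adj a b ∧ s(a, b) ≠ s(u, v) ∧ x = some a ∧ y = some b) ∨
    (x = none ∧ (y = some u ∨ y = some v)) ∨ (y = none ∧ (x = some u ∨ x = some v))
  symm := ⟨fun x y h => by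
    rcases h with ⟨a, b, h1, h0, h2, h3⟩ | h | h
    · exact Or.inl ⟨b, a, h1.symm, by rwa [Sym2.eq_swap], h3, h2⟩
    · exact Or.inr (Or.inr h)
    · exact Or.inr (Or.inl h)⟩
  loopless := ⟨fun x h => by
    rcases h with ⟨a, b, h1, h0, h2, h3⟩ | ⟨h1, h2⟩ | ⟨h1, h2⟩
    · rw [h2, Option.some.injEq] at h3
      exact h1.ne h3
    · rw [h1] at h2
      simp at h2
    · rw [h1] at h2
      simp at h2⟩

lemma triPath_eq (t j : ℕ) : triPath t j = tp t j := by
  ext x y
  rcases x with ⟨i, a⟩ | k <;> rcases y with ⟨i', b⟩ | l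
  · simp only [triPath, tp, Sum.inl.injEq, Prod.mk.injEq, reduceCtorEq, and_false, exists_false,
      or_false]
    constructor
    · rintro ⟨i₀, a₀, b₀, h, ⟨rfl, rfl⟩, rfl, rfl⟩
      exact ⟨rfl, h⟩
    · rintro ⟨rfl, h⟩
      exact ⟨i, a, b, h, ⟨rfl, rfl⟩, rfl, rfl⟩
  · simp [triPath, tp]
  · simp [triPath, tp]
  · simp only [triPath, tp, Sum.inr.injEq, reduceCtorEq, and_false, exists_false, false_or]
    constructor
    · rintro ⟨k₀, l₀, h, rfl, rfl⟩
      exact h
    · intro h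
      exact ⟨k, l, h, rfl, rfl⟩

lemma addPendant_eq {W : Type} (H : SimpleGraph W) (v : W) : addPendant H v = pendant H v := by
  ext x y
  rcases x with _ | x <;> rcases y with _ | y <;> simp [addPendant, pendant]

lemma subdivide_eq {W : Type} (H : SimpleGraph W) (u v : W) : subdivide H u v = subdiv H u v := by
  ext x y
  rcases x with _ | x <;> rcases y with _ | y <;> simp [subdivide, subdiv]

end Pool.Agent.V1162.TM
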